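import Pool.Agent.Lib_helper35.Var.Exp

/-! The additive large sieve inequality (elementary proof by duality and the Fejer kernel) -/

set_option autoImplicit false

namespace Pool.Agent.Var35

open Finset Complex

lemma sum_inv_sq_nat (T : Finset ℕ) : ∑ n ∈ T, (1:ℝ) / ((n:ℝ) + 1) ^ 2 ≤ 2 := by
  have h1 : ∀ M : ℕ, ∑ n ∈ range (M + 1), (1:ℝ) / ((n:ℝ) + 1) ^ 2 ≤ 2 - 1 / ((M:ℝ) + 1) := by
    intro M
    induction M with
    | zero => norm_num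
    | succ M ih =>
        rw [sum_range_succ]
        push_cast
        have hM : (0:ℝ) ≤ M := Nat.cast_nonneg M
        have h : (1:ℝ) / ((M:ℝ) + 1 + 1) ^ 2 ≤ 1 / ((M:ℝ) + 1) - 1 / ((M:ℝ) + 1 + 1) := by
          rw [div_sub_div _ _ (by positivity) (by positivity), div_le_div_iff₀ (by positivity) (by positivity)]
          nlinarith
        linarith
  obtain ⟨M, hM⟩ : ∃ M, T ⊆ range (M + 1) := by
    refine ⟨T.sup id, fun n hn => ?_⟩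
    rw [mem_range]
    have := Finset.le_sup (f := id) hn
    simp only [id] at this
    omega
  refine (sum_le_sum_of_subset_of_nonneg hM (fun _ _ _ => by positivity)).trans ((h1 M).trans ?_)
  have : (0:ℝ) ≤ 1 / ((M:ℝ) + 1) := by positivity
  linarith

lemma sum_inv_sq_int (T : Finset ℤ) : ∑ n ∈ T, (1:ℝ) / (|(n:ℝ)| + 1) ^ 2 ≤ 4 := by
  have hsplit : ∑ n ∈ T, (1:ℝ) / (|(n:ℝ)| + 1) ^ 2
      = ∑ n ∈ T.filter (fun n => 0 ≤ n), (1:ℝ) / (|(n:ℝ)| + 1) ^ 2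
        + ∑ n ∈ T.filter (fun n => ¬ 0 ≤ n), (1:ℝ) / (|(n:ℝ)| + 1) ^ 2 :=
    (Finset.sum_filter_add_sum_filter_not T _ _).symm
  have h1 : ∑ n ∈ T.filter (fun n => 0 ≤ n), (1:ℝ) / (|(n:ℝ)| + 1) ^ 2 ≤ 2 := by
    have hinj : Set.InjOn Int.natAbs (T.filter (fun n : ℤ => 0 ≤ n) : Set ℤ) := by
      intro a ha b hb hab
      simp only [coe_filter, Set.mem_ofPred_eq] at ha hb
      omega
    have := sum_inv_sq_nat ((T.filter (fun n => 0 ≤ n)).image Int.natAbs)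
    rw [sum_image hinj] at this
    refine le_trans (le_of_eq ?_) this
    refine sum_congr rfl fun n hn => ?_
    congr 3
    rw [Nat.cast_natAbs, Int.cast_abs]
  have h2 : ∑ n ∈ T.filter (fun n => ¬ 0 ≤ n), (1:ℝ) / (|(n:ℝ)| + 1) ^ 2 ≤ 2 := by
    have hinj : Set.InjOn Int.natAbs (T.filter (fun n : ℤ => ¬ 0 ≤ n) : Set ℤ) := by
      intro a ha b hb hab
      simp only [coe_filter, Set.mem_ofPred_eq] at ha hb
      omega
    have := sum_inv_sq_nat ((T.filter (fun n => ¬ 0 ≤ n)).image Int.natAbs)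
    rw [sum_image hinj] at this
    refine le_trans (le_of_eq ?_) this
    refine sum_congr rfl fun n hn => ?_
    congr 3
    rw [Nat.cast_natAbs, Int.cast_abs]
  linarith

/-- `θ` is `δ`-separated modulo one on `R`. -/
def Sep {ι : Type*} (R : Finset ι) (θ : ι → ℝ) (δ : ℝ) : Prop :=
  ∀ r ∈ R, ∀ s ∈ R, r ≠ s → ∀ n : ℤ, δ ≤ |θ r - θ s - n|

lemma spaced {ι : Type*} [DecidableEq ι] (R : Finset ι) (θ : ι → ℝ) (δ : ℝ) (hδ : 0 < δ)
    (hsep : Sep R θ δ) (r : ι) (hr : r ∈ R) :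
    ∑ s ∈ R.erase r, 1 / (θ r - θ s - round (θ r - θ s)) ^ 2 ≤ 36 / δ ^ 2 := by
  set τ : ι → ℝ := fun s => θ r - θ s - round (θ r - θ s) with hτ
  have hinj : Set.InjOn (fun s => ⌊τ s / δ⌋) ((R.erase r : Finset ι) : Set ι) := by
    intro s hs t ht hst
    by_contra hne
    simp only [coe_erase, Set.mem_sdiff, mem_coe, Set.mem_singleton_iff] at hs ht
    simp only at hst
    have h1 := Int.floor_le (τ s / δ)
    have h2 := Int.lt_floor_add_one (τ s / δ)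
    have h3 := Int.floor_le (τ t / δ)
    have h4 := Int.lt_floor_add_one (τ t / δ)
    rw [← hst] at h3 h4
    have h5 : |τ s / δ - τ t / δ| < 1 := by
      rw [abs_lt]; constructor <;> linarith
    have h6 : |τ s - τ t| < δ := by
      rw [← sub_div, abs_div, abs_of_pos hδ, div_lt_one hδ] at h5
      exact h5
    have h7 := hsep t ht.1 s hs.1 (Ne.symm hne) (round (θ r - θ s) - round (θ r - θ t))
    have h8 : θ t - θ s - ((round (θ r - θ s) - round (θ r - θ t) : ℤ) : ℝ) = τ s - τ t := by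
      simp only [hτ]; push_cast; ring
    rw [h8] at h7
    linarith
  have hbound : ∀ s ∈ R.erase r, 1 / (τ s) ^ 2 ≤ 9 / δ ^ 2 * (1 / (|(⌊τ s / δ⌋ : ℝ)| + 1) ^ 2) := by
    intro s hs
    rw [mem_erase] at hs
    have h0 : δ ≤ |τ s| := hsep r hr s hs.2 (Ne.symm hs.1) _
    have h1 := Int.floor_le (τ s / δ)
    have h2 := Int.lt_floor_add_one (τ s / δ)
    set j : ℤ := ⌊τ s / δ⌋ with hj
    have h3 : (j:ℝ) * δ ≤ τ s := by
      rwa [le_div_iff₀ hδ] at h1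
    have h4 : τ s < ((j:ℝ) + 1) * δ := by
      rwa [div_lt_iff₀ hδ] at h2
    have key : δ * (|(j:ℝ)| + 1) ≤ 3 * |τ s| := by
      rcases le_or_gt 1 j with hj1 | hj1
      · have hj1' : (1:ℝ) ≤ j := by exact_mod_cast hj1
        rw [abs_of_nonneg (by linarith : (0:ℝ) ≤ j)]
        have : τ s ≤ |τ s| := le_abs_self _
        nlinarith
      rcases le_or_gt j (-2) with hj2 | hj2
      · have hj2' : (j:ℝ) ≤ -2 := by exact_mod_cast hj2
        rw [abs_of_nonpos (by linarith : (j:ℝ) ≤ 0)]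
        have : -τ s ≤ |τ s| := neg_le_abs _
        nlinarith
      · have : j = 0 ∨ j = -1 := by omega
        have hjj : |(j:ℝ)| ≤ 1 := by
          rcases this with h | h <;> rw [h] <;> norm_num
        nlinarith
    have hpos : 0 < δ * (|(j:ℝ)| + 1) := by positivity
    have hτpos : 0 < |τ s| := lt_of_lt_of_le hδ h0
    have hsq : (δ * (|(j:ℝ)| + 1)) ^ 2 ≤ 9 * (τ s) ^ 2 := by
      have := pow_le_pow_left₀ hpos.le key 2
      rw [mul_pow, mul_pow, sq_abs] at this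
      rw [mul_pow]
      linarith
    have hτ2 : 0 < τ s ^ 2 := by
      rw [← sq_abs]; positivity
    rw [div_mul_div_comm, div_le_div_iff₀ hτ2 (by positivity)]
    rw [mul_pow] at hsq
    linarith
  calc ∑ s ∈ R.erase r, 1 / (τ s) ^ 2
      ≤ ∑ s ∈ R.erase r, 9 / δ ^ 2 * (1 / (|(⌊τ s / δ⌋ : ℝ)| + 1) ^ 2) := sum_le_sum hbound
    _ = 9 / δ ^ 2 * ∑ s ∈ R.erase r, (1 / (|(⌊τ s / δ⌋ : ℝ)| + 1) ^ 2) := by rw [mul_sum]
    _ = 9 / δ ^ 2 * ∑ n ∈ (R.erase r).image (fun s => ⌊τ s / δ⌋), (1 / (|(n : ℝ)| + 1) ^ 2) := by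
        rw [sum_image hinj]
    _ ≤ 9 / δ ^ 2 * 4 := by
        exact mul_le_mul_of_nonneg_left (sum_inv_sq_int _) (by positivity)
    _ = 36 / δ ^ 2 := by ring

/-- Dirichlet kernel -/
noncomputable def Dk (L : ℕ) (θ : ℝ) : ℂ := ∑ j ∈ range L, e (j * θ)

lemma Dk_le (L : ℕ) (θ : ℝ) : ‖Dk L θ‖ ≤ L := by
  unfold Dk
  refine (norm_sum_le _ _).trans ?_
  simp [norm_e]

lemma Dk_sub_int (L : ℕ) (θ : ℝ) (n : ℤ) : Dk L (θ - n) = Dk L θ := by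
  unfold Dk
  refine sum_congr rfl fun j _ => ?_
  have : (j:ℝ) * (θ - n) = j * θ + ((-(j * n) : ℤ) : ℝ) := by push_cast; ring
  rw [this, e_add_int]

lemma Dk_sq_le (L : ℕ) (θ : ℝ) (h : 0 < |θ - round θ|) :
    ‖Dk L θ‖ ^ 2 ≤ (1/4) * (1 / (θ - round θ) ^ 2) := by
  rw [← Dk_sub_int L θ (round θ)]
  have h1 : |θ - round θ| ≤ 1/2 := abs_sub_round θ
  have h2 := geom_bound h h1 L
  have h3 : ‖Dk L (θ - round θ)‖ ≤ 1 / (2 * |θ - round θ|) := h2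
  have h4 := pow_le_pow_left₀ (norm_nonneg _) h3 2
  refine h4.trans (le_of_eq ?_)
  rw [div_pow, mul_pow, sq_abs]
  field_simp
  norm_num

/-- Schur-type row bound. -/
lemma row_bound {ι : Type*} [DecidableEq ι] (R : Finset ι) (θ : ι → ℝ) (δ : ℝ) (hδ : 0 < δ)
    (hsep : Sep R θ δ) (L : ℕ) (r : ι) (hr : r ∈ R) :
    ∑ s ∈ R, ‖Dk L (θ r - θ s)‖ ^ 2 ≤ (L:ℝ) ^ 2 + 9 / δ ^ 2 := by
  rw [← Finset.add_sum_erase R _ hr]
  have h1 : ‖Dk L (θ r - θ r)‖ ^ 2 ≤ (L:ℝ) ^ 2 :=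
    pow_le_pow_left₀ (norm_nonneg _) (Dk_le _ _) 2
  have h2 : ∑ s ∈ R.erase r, ‖Dk L (θ r - θ s)‖ ^ 2
      ≤ ∑ s ∈ R.erase r, (1/4) * (1 / (θ r - θ s - round (θ r - θ s)) ^ 2) := by
    refine sum_le_sum fun s hs => Dk_sq_le L _ ?_
    rw [mem_erase] at hs
    exact lt_of_lt_of_le hδ (hsep r hr s hs.2 (Ne.symm hs.1) _)
  rw [← mul_sum] at h2
  have h3 := spaced R θ δ hδ hsep r hr
  have h4 : (1/4 : ℝ) * (36 / δ ^ 2) = 9 / δ ^ 2 := by ring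
  nlinarith

lemma normSq_sum_expand {ι : Type*} (R : Finset ι) (b : ι → ℂ) (θ : ι → ℝ) (i j : ℕ) :
    (((‖∑ r ∈ R, b r * e (((i:ℝ) - j) * θ r)‖ ^ 2 : ℝ)) : ℂ)
      = ∑ r ∈ R, ∑ s ∈ R, b r * (starRingEnd ℂ) (b s) *
          (e (i * (θ r - θ s)) * (starRingEnd ℂ) (e (j * (θ r - θ s)))) := by
  rw [← Complex.normSq_eq_norm_sq, ← Complex.mul_conj, map_sum, sum_mul_sum]
  refine sum_congr rfl fun r _ => sum_congr rfl fun s _ => ?_
  rw [map_mul, ← e_neg, ← e_neg]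
  have : b r * e (((i:ℝ) - j) * θ r) * ((starRingEnd ℂ) (b s) * e (-(((i:ℝ) - j) * θ s)))
      = b r * (starRingEnd ℂ) (b s) * (e (((i:ℝ) - j) * θ r) * e (-(((i:ℝ) - j) * θ s))) := by ring
  rw [this, ← e_add, ← e_add]
  congr 2
  ring

lemma fejer_identity {ι : Type*} (R : Finset ι) (b : ι → ℂ) (θ : ι → ℝ) (L : ℕ) :
    ((∑ j ∈ range L, ∑ i ∈ range L, ‖∑ r ∈ R, b r * e (((i:ℝ) - j) * θ r)‖ ^ 2 : ℝ) : ℂ)
      = ∑ r ∈ R, ∑ s ∈ R, b r * (starRingEnd ℂ) (b s) * ((‖Dk L (θ r - θ s)‖ ^ 2 : ℝ) : ℂ) := by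
  push_cast
  have h1 : ∀ j ∈ range L, ∀ i ∈ range L,
      ((‖∑ r ∈ R, b r * e (((i:ℝ) - j) * θ r)‖ : ℂ)) ^ 2
      = ∑ r ∈ R, ∑ s ∈ R, b r * (starRingEnd ℂ) (b s) *
          (e (i * (θ r - θ s)) * (starRingEnd ℂ) (e (j * (θ r - θ s)))) := by
    intro j _ i _
    have := normSq_sum_expand R b θ i j
    push_cast at this
    exact this
  rw [sum_congr rfl fun j hj => sum_congr rfl fun i hi => h1 j hj i hi]
  have h2 : ∀ r ∈ R, ∀ s ∈ R, b r * (starRingEnd ℂ) (b s) * ((‖Dk L (θ r - θ s)‖ : ℂ)) ^ 2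
      = ∑ j ∈ range L, ∑ i ∈ range L, b r * (starRingEnd ℂ) (b s) *
          (e (i * (θ r - θ s)) * (starRingEnd ℂ) (e (j * (θ r - θ s)))) := by
    intro r _ s _
    have : ((‖Dk L (θ r - θ s)‖ : ℂ)) ^ 2 = Dk L (θ r - θ s) * (starRingEnd ℂ) (Dk L (θ r - θ s)) := by
      rw [Complex.mul_conj, Complex.normSq_eq_norm_sq]; push_cast; rfl
    rw [this]
    unfold Dk
    rw [map_sum, sum_mul_sum, mul_sum, sum_comm]
    refine sum_congr rfl fun j _ => ?_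
    rw [mul_sum]
  rw [sum_congr rfl fun r hr => sum_congr rfl fun s hs => h2 r hr s hs]
  rw [sum_congr rfl fun j _ => sum_comm, sum_comm]
  refine sum_congr rfl fun r _ => ?_
  rw [sum_congr rfl fun j _ => sum_comm, sum_comm]

lemma fejer_bound {ι : Type*} [DecidableEq ι] (R : Finset ι) (θ : ι → ℝ) (δ : ℝ) (hδ : 0 < δ)
    (hsep : Sep R θ δ) (b : ι → ℂ) (L : ℕ) :
    ∑ j ∈ range L, ∑ i ∈ range L, ‖∑ r ∈ R, b r * e (((i:ℝ) - j) * θ r)‖ ^ 2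
      ≤ ((L:ℝ) ^ 2 + 9 / δ ^ 2) * ∑ r ∈ R, ‖b r‖ ^ 2 := by
  have h0 : ∑ j ∈ range L, ∑ i ∈ range L, ‖∑ r ∈ R, b r * e (((i:ℝ) - j) * θ r)‖ ^ 2
      ≤ ∑ r ∈ R, ∑ s ∈ R, ‖b r‖ * ‖b s‖ * ‖Dk L (θ r - θ s)‖ ^ 2 := by
    have h := fejer_identity R b θ L
    have hn := congrArg norm h
    rw [Complex.norm_real, Real.norm_of_nonneg (sum_nonneg fun _ _ => sum_nonneg fun _ _ => by positivity)] at hn
    rw [hn]
    refine (norm_sum_le _ _).trans (sum_le_sum fun r _ => (norm_sum_le _ _).trans (sum_le_sum fun s _ => ?_))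
    rw [norm_mul, norm_mul, RCLike.norm_conj, Complex.norm_real, Real.norm_of_nonneg (by positivity)]
  refine h0.trans ?_
  have hsymm : ∀ r s, ‖Dk L (θ r - θ s)‖ = ‖Dk L (θ s - θ r)‖ := by
    intro r s
    have : Dk L (θ s - θ r) = (starRingEnd ℂ) (Dk L (θ r - θ s)) := by
      unfold Dk
      rw [map_sum]
      refine sum_congr rfl fun j _ => ?_
      rw [← e_neg]; congr 1; ring
    rw [this, RCLike.norm_conj]
  calc ∑ r ∈ R, ∑ s ∈ R, ‖b r‖ * ‖b s‖ * ‖Dk L (θ r - θ s)‖ ^ 2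
      ≤ ∑ r ∈ R, ∑ s ∈ R, ((1/2) * (‖b r‖ ^ 2 * ‖Dk L (θ r - θ s)‖ ^ 2)
          + (1/2) * (‖b s‖ ^ 2 * ‖Dk L (θ r - θ s)‖ ^ 2)) := by
        refine sum_le_sum fun r _ => sum_le_sum fun s _ => ?_
        have : ‖b r‖ * ‖b s‖ ≤ (1/2) * ‖b r‖ ^ 2 + (1/2) * ‖b s‖ ^ 2 := by nlinarith [sq_nonneg (‖b r‖ - ‖b s‖)]
        have h2 : 0 ≤ ‖Dk L (θ r - θ s)‖ ^ 2 := by positivity
        nlinarith
    _ = (1/2) * (∑ r ∈ R, ‖b r‖ ^ 2 * ∑ s ∈ R, ‖Dk L (θ r - θ s)‖ ^ 2)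
          + (1/2) * (∑ s ∈ R, ‖b s‖ ^ 2 * ∑ r ∈ R, ‖Dk L (θ s - θ r)‖ ^ 2) := by
        simp only [sum_add_distrib]
        congr 1
        · rw [mul_sum]; refine sum_congr rfl fun r _ => ?_
          rw [mul_sum, mul_sum]
        · rw [sum_comm, mul_sum]; refine sum_congr rfl fun s _ => ?_
          rw [mul_sum, mul_sum]
          refine sum_congr rfl fun r _ => ?_
          rw [hsymm r s]
    _ = ∑ r ∈ R, ‖b r‖ ^ 2 * ∑ s ∈ R, ‖Dk L (θ r - θ s)‖ ^ 2 := by ring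
    _ ≤ ∑ r ∈ R, ‖b r‖ ^ 2 * ((L:ℝ) ^ 2 + 9 / δ ^ 2) := by
        refine sum_le_sum fun r hr => mul_le_mul_of_nonneg_left (row_bound R θ δ hδ hsep L r hr) (by positivity)
    _ = ((L:ℝ) ^ 2 + 9 / δ ^ 2) * ∑ r ∈ R, ‖b r‖ ^ 2 := by rw [← sum_mul]; ring

/-- Dual large sieve. -/
lemma dual_ls {ι : Type*} [DecidableEq ι] (R : Finset ι) (θ : ι → ℝ) (δ : ℝ) (hδ : 0 < δ) (hδ1 : δ ≤ 1)
    (hsep : Sep R θ δ) (b : ι → ℂ) (H : ℕ) :
    ∑ m ∈ range H, ‖∑ r ∈ R, b r * e (m * θ r)‖ ^ 2 ≤ 22 * (H + 1 / δ) * ∑ r ∈ R, ‖b r‖ ^ 2 := by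
  set S := ∑ r ∈ R, ‖b r‖ ^ 2 with hS
  have hS0 : 0 ≤ S := sum_nonneg fun _ _ => by positivity
  set D : ℕ := ⌈1 / δ⌉₊ with hD
  have hD1 : 1 / δ ≤ D := Nat.le_ceil _
  have hD2 : (D:ℝ) < 1 / δ + 1 := Nat.ceil_lt_add_one (by positivity)
  set L : ℕ := 2 * H + D with hL
  have hfe := fejer_bound R θ δ hδ hsep b L
  have hlow : ((H + D : ℕ) : ℝ) * ∑ m ∈ range H, ‖∑ r ∈ R, b r * e (m * θ r)‖ ^ 2
      ≤ ∑ j ∈ range L, ∑ i ∈ range L, ‖∑ r ∈ R, b r * e (((i:ℝ) - j) * θ r)‖ ^ 2 := by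
    calc ((H + D : ℕ) : ℝ) * ∑ m ∈ range H, ‖∑ r ∈ R, b r * e (m * θ r)‖ ^ 2
        = ∑ j ∈ range (H + D), ∑ m ∈ range H, ‖∑ r ∈ R, b r * e (m * θ r)‖ ^ 2 := by
          rw [sum_const, card_range, nsmul_eq_mul]
      _ ≤ ∑ j ∈ range (H + D), ∑ i ∈ range L, ‖∑ r ∈ R, b r * e (((i:ℝ) - j) * θ r)‖ ^ 2 := by
          refine sum_le_sum fun j hj => ?_
          rw [mem_range] at hj
          have himg : (range H).image (fun m => m + j) ⊆ range L := by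
            intro i hi
            rw [mem_image] at hi
            obtain ⟨m, hm, rfl⟩ := hi
            rw [mem_range] at hm ⊢
            omega
          refine le_trans (le_of_eq ?_) (sum_le_sum_of_subset_of_nonneg himg fun _ _ _ => by positivity)
          rw [sum_image (fun a _ b _ h => by simpa using h)]
          refine sum_congr rfl fun m _ => ?_
          congr 2
          refine sum_congr rfl fun r _ => ?_
          congr 2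
          push_cast; ring
      _ ≤ ∑ j ∈ range L, ∑ i ∈ range L, ‖∑ r ∈ R, b r * e (((i:ℝ) - j) * θ r)‖ ^ 2 := by
          refine sum_le_sum_of_subset_of_nonneg ?_ fun _ _ _ => sum_nonneg fun _ _ => by positivity
          intro i hi
          rw [mem_range] at hi ⊢
          omega
  set A := ∑ m ∈ range H, ‖∑ r ∈ R, b r * e (m * θ r)‖ ^ 2 with hA
  have hA0 : 0 ≤ A := sum_nonneg fun _ _ => by positivity
  have h1 : ((H:ℝ) + D) * A ≤ ((L:ℝ) ^ 2 + 9 / δ ^ 2) * S := by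
    have := hlow.trans hfe
    push_cast at this
    exact this
  have hH0 : (0:ℝ) ≤ H := Nat.cast_nonneg H
  have hd1 : 1 ≤ 1 / δ := by rw [le_div_iff₀ hδ]; linarith
  have hLr : (L:ℝ) = 2 * H + D := by rw [hL]; push_cast; ring
  have h2 : (L:ℝ) ^ 2 + 9 / δ ^ 2 ≤ ((H:ℝ) + D) * (22 * (H + 1 / δ)) := by
    rw [hLr]
    have h9 : 9 / δ ^ 2 = 9 * (1 / δ) * (1 / δ) := by field_simp
    rw [h9]
    set y := 1 / δ
    have e1 : (2 * (H:ℝ) + D) ^ 2 ≤ (H + D) * (2 * (2 * H + D)) := by nlinarith [Nat.cast_nonneg (α := ℝ) D]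
    have e2 : 9 * y * y ≤ (H + D) * (9 * y) := by nlinarith
    have e3 : ((H:ℝ) + D) * (2 * (2 * H + D)) + (H + D) * (9 * y) ≤ (H + D) * (22 * (H + y)) := by
      rw [← mul_add]
      refine mul_le_mul_of_nonneg_left ?_ (by positivity)
      nlinarith
    linarith
  have hpos : 0 < (H:ℝ) + D := by linarith
  have h3 : ((H:ℝ) + D) * A ≤ ((H:ℝ) + D) * (22 * (H + 1 / δ) * S) := by
    calc ((H:ℝ) + D) * A ≤ ((L:ℝ) ^ 2 + 9 / δ ^ 2) * S := h1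
      _ ≤ (((H:ℝ) + D) * (22 * (H + 1 / δ))) * S := mul_le_mul_of_nonneg_right h2 hS0
      _ = _ := by ring
  exact le_of_mul_le_mul_left h3 hpos

/-- Additive large sieve inequality. -/
theorem large_sieve {ι : Type*} [DecidableEq ι] (R : Finset ι) (θ : ι → ℝ) (δ : ℝ) (hδ : 0 < δ) (hδ1 : δ ≤ 1)
    (hsep : Sep R θ δ) (a : ℕ → ℂ) (H : ℕ) :
    ∑ r ∈ R, ‖∑ m ∈ range H, a m * e (m * θ r)‖ ^ 2 ≤ 22 * (H + 1 / δ) * ∑ m ∈ range H, ‖a m‖ ^ 2 := by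
  set T : ι → ℂ := fun r => ∑ m ∈ range H, a m * e (m * θ r) with hT
  set Q := ∑ r ∈ R, ‖T r‖ ^ 2 with hQ
  have hQ0 : 0 ≤ Q := sum_nonneg fun _ _ => by positivity
  set A2 := ∑ m ∈ range H, ‖a m‖ ^ 2 with hA2
  have hA20 : 0 ≤ A2 := sum_nonneg fun _ _ => by positivity
  have hΔ : 0 ≤ 22 * ((H:ℝ) + 1 / δ) := by positivity
  have h1 : Q ≤ ∑ m ∈ range H, ‖a m‖ * ‖∑ r ∈ R, (starRingEnd ℂ) (T r) * e (m * θ r)‖ := by
    have h2 : ((Q : ℝ) : ℂ) = ∑ m ∈ range H, a m * ∑ r ∈ R, (starRingEnd ℂ) (T r) * e (m * θ r) := by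
      have h3 : ((Q:ℝ):ℂ) = ∑ r ∈ R, (starRingEnd ℂ) (T r) * T r := by
        rw [hQ]; push_cast
        refine sum_congr rfl fun r _ => ?_
        rw [mul_comm, Complex.mul_conj, Complex.normSq_eq_norm_sq]; push_cast; rfl
      rw [h3]
      calc ∑ r ∈ R, (starRingEnd ℂ) (T r) * T r
          = ∑ r ∈ R, ∑ m ∈ range H, (starRingEnd ℂ) (T r) * (a m * e (m * θ r)) := by
            refine sum_congr rfl fun r _ => ?_
            rw [← mul_sum]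
        _ = ∑ m ∈ range H, ∑ r ∈ R, (starRingEnd ℂ) (T r) * (a m * e (m * θ r)) := sum_comm
        _ = _ := by
            refine sum_congr rfl fun m _ => ?_
            rw [mul_sum]
            refine sum_congr rfl fun r _ => by ring
    have h4 := congrArg norm h2
    rw [Complex.norm_real, Real.norm_of_nonneg hQ0] at h4
    rw [h4]
    refine (norm_sum_le _ _).trans (sum_le_sum fun m _ => ?_)
    rw [norm_mul]
  have h5 : (∑ m ∈ range H, ‖a m‖ * ‖∑ r ∈ R, (starRingEnd ℂ) (T r) * e (m * θ r)‖) ^ 2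
      ≤ A2 * ∑ m ∈ range H, ‖∑ r ∈ R, (starRingEnd ℂ) (T r) * e (m * θ r)‖ ^ 2 :=
    Finset.sum_mul_sq_le_sq_mul_sq _ _ _
  have h6 := dual_ls R θ δ hδ hδ1 hsep (fun r => (starRingEnd ℂ) (T r)) H
  have h7 : ∑ r ∈ R, ‖(starRingEnd ℂ) (T r)‖ ^ 2 = Q := by
    rw [hQ]; refine sum_congr rfl fun r _ => by rw [RCLike.norm_conj]
  rw [h7] at h6
  have h8 : Q ^ 2 ≤ A2 * (22 * ((H:ℝ) + 1 / δ) * Q) := by
    calc Q ^ 2 ≤ (∑ m ∈ range H, ‖a m‖ * ‖∑ r ∈ R, (starRingEnd ℂ) (T r) * e (m * θ r)‖) ^ 2 :=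
          pow_le_pow_left₀ hQ0 h1 2
      _ ≤ _ := h5
      _ ≤ _ := mul_le_mul_of_nonneg_left h6 hA20
  rcases eq_or_lt_of_le hQ0 with h | h
  · rw [← h]; positivity
  · have h9 : Q * Q ≤ Q * (22 * ((H:ℝ) + 1 / δ) * A2) := by nlinarith
    exact le_of_mul_le_mul_left h9 h

end Pool.Agent.Var35
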