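import Pool.Agent.Lib_helper35.Var.MV

/-! Elementary facts: prime factors, totients, Ramanujan sums -/

set_option autoImplicit false

namespace Pool.Agent.Var35

open Finset Complex
open scoped ArithmeticFunction ArithmeticFunction.Moebius ArithmeticFunction.zeta

lemma omega_le (m : ℕ) (hm : 1 ≤ m) : (m.primeFactors.card : ℝ) ≤ 2 * Real.log m := by
  have h1 : 2 ^ m.primeFactors.card ≤ m := by
    refine le_trans ?_ (Nat.le_of_dvd hm (Nat.prod_primeFactors_dvd m))
    exact Finset.pow_card_le_prod _ _ _ (fun p hp => (Nat.prime_of_mem_primeFactors hp).two_le)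
  have h2 : (m.primeFactors.card : ℝ) * Real.log 2 ≤ Real.log m := by
    rw [← Real.log_pow]
    refine Real.log_le_log (by positivity) ?_
    exact_mod_cast h1
  have h3 : (0.5:ℝ) ≤ Real.log 2 := by
    have := Real.log_two_gt_d9; linarith
  nlinarith [Nat.cast_nonneg (α := ℝ) m.primeFactors.card]

/-- the sum of `Λ` over integers not coprime to `m` -/
noncomputable def E0 (N m : ℕ) : ℝ := ∑ n ∈ (Finset.Icc 1 N).filter (fun n => ¬ Nat.Coprime n m), Λ n

lemma E0_nonneg (N m : ℕ) : 0 ≤ E0 N m := sum_nonneg fun _ _ => ArithmeticFunction.vonMangoldt_nonneg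

open scoped Classical in
lemma sum_prime_powers (N r : ℕ) (hr : r.Prime) :
    ∑ n ∈ (Finset.Icc 1 N).filter (fun n => ∃ k, 1 ≤ k ∧ n = r ^ k), Λ n ≤ Real.log N := by
  rcases Nat.eq_zero_or_pos N with h0 | h0
  · subst h0; simp
  have h1 : (Finset.Icc 1 N).filter (fun n => ∃ k, 1 ≤ k ∧ n = r ^ k) ⊆ (Finset.Icc 1 (Nat.log r N)).image (fun k => r ^ k) := by
    intro n hn
    rw [mem_filter, Finset.mem_Icc] at hn
    obtain ⟨⟨h2, h3⟩, k, hk, rfl⟩ := hn
    rw [mem_image]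
    refine ⟨k, ?_, rfl⟩
    rw [Finset.mem_Icc]
    exact ⟨hk, Nat.le_log_of_pow_le hr.one_lt h3⟩
  refine (sum_le_sum_of_subset_of_nonneg h1 fun _ _ _ => ArithmeticFunction.vonMangoldt_nonneg).trans ?_
  rw [sum_image (fun a _ b _ h => Nat.pow_right_injective hr.two_le h)]
  have h2 : ∀ k ∈ Finset.Icc 1 (Nat.log r N), Λ (r ^ k) = Real.log r := by
    intro k hk
    rw [Finset.mem_Icc] at hk
    rw [ArithmeticFunction.vonMangoldt_apply_pow (by omega), ArithmeticFunction.vonMangoldt_apply_prime hr]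
  rw [sum_congr rfl h2, sum_const, Nat.card_Icc, Nat.add_sub_cancel, nsmul_eq_mul, ← Real.log_pow]
  refine Real.log_le_log (by have := hr.pos; positivity) ?_
  exact_mod_cast Nat.pow_log_le_self r h0.ne'

lemma E0_le (N m : ℕ) (hm : 1 ≤ m) : E0 N m ≤ 2 * Real.log m * Real.log N := by
  classical
  have hlN : 0 ≤ Real.log N := Real.log_natCast_nonneg N
  have h1 : E0 N m ≤ ∑ r ∈ m.primeFactors, ∑ n ∈ (Finset.Icc 1 N).filter (fun n => ∃ k, 1 ≤ k ∧ n = r ^ k), Λ n := by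
    unfold E0
    rw [sum_filter]
    simp_rw [sum_filter]
    rw [sum_comm]
    refine sum_le_sum fun n hn => ?_
    have hnn : ∀ r ∈ m.primeFactors, (0:ℝ) ≤ if ∃ k, 1 ≤ k ∧ n = r ^ k then Λ n else 0 := by
      intro r _; split_ifs
      · exact ArithmeticFunction.vonMangoldt_nonneg
      · exact le_rfl
    by_cases hc : Nat.Coprime n m
    · rw [if_neg (not_not.mpr hc)]
      exact sum_nonneg hnn
    · rw [if_pos hc]
      by_cases hpp : IsPrimePow n
      · rw [isPrimePow_nat_iff] at hpp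
        obtain ⟨r, k, hr, hk, rfl⟩ := hpp
        have hrm : r ∣ m := by
          by_contra h
          exact hc (Nat.Coprime.pow_left k ((Nat.Prime.coprime_iff_not_dvd hr).mpr h))
        have hmem : r ∈ m.primeFactors := Nat.mem_primeFactors.mpr ⟨hr, hrm, by omega⟩
        refine le_trans ?_ (single_le_sum hnn hmem)
        rw [if_pos ⟨k, hk, rfl⟩]
      · rw [ArithmeticFunction.vonMangoldt_eq_zero_iff.mpr hpp]
        exact sum_nonneg fun r _ => by split_ifs <;> exact le_rfl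
  refine h1.trans ?_
  calc ∑ r ∈ m.primeFactors, ∑ n ∈ (Finset.Icc 1 N).filter (fun n => ∃ k, 1 ≤ k ∧ n = r ^ k), Λ n
      ≤ ∑ r ∈ m.primeFactors, Real.log N := sum_le_sum fun r hr => sum_prime_powers N r (Nat.prime_of_mem_primeFactors hr)
    _ = m.primeFactors.card * Real.log N := by rw [sum_const, nsmul_eq_mul]
    _ ≤ 2 * Real.log m * Real.log N := mul_le_mul_of_nonneg_right (omega_le m hm) hlN

lemma prod_pred_bound (T : Finset ℕ) (hT : ∀ t ∈ T, 2 ≤ t) : ∏ t ∈ T, t ≤ (T.card + 1) * ∏ t ∈ T, (t - 1) := by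
  induction T using Finset.induction_on_max with
  | empty => simp
  | insert a T hlt ih =>
      have ha : a ∉ T := fun h => lt_irrefl _ (hlt a h)
      rw [prod_insert ha, prod_insert ha, card_insert_of_notMem ha]
      have ih' := ih (fun t ht => hT t (mem_insert_of_mem ht))
      have ha2 : 2 ≤ a := hT a (mem_insert_self a T)
      have hcard : T.card + 2 ≤ a := by
        have hsub : T ⊆ Finset.Ico 2 a := by
          intro t ht
          rw [Finset.mem_Ico]
          exact ⟨hT t (mem_insert_of_mem ht), hlt t ht⟩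
        have := card_le_card hsub
        rw [Nat.card_Ico] at this
        omega
      obtain ⟨b, rfl⟩ : ∃ b, a = b + 1 := ⟨a - 1, by omega⟩
      rw [Nat.add_sub_cancel]
      calc (b + 1) * ∏ t ∈ T, t ≤ (b + 1) * ((T.card + 1) * ∏ t ∈ T, (t - 1)) := Nat.mul_le_mul_left _ ih'
        _ = ((b + 1) * (T.card + 1)) * ∏ t ∈ T, (t - 1) := by ring
        _ ≤ ((T.card + 1 + 1) * b) * ∏ t ∈ T, (t - 1) := by
            refine Nat.mul_le_mul_right _ ?_
            nlinarith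
        _ = _ := by ring

lemma totient_ge (q : ℕ) (hq : 1 ≤ q) : (q:ℝ) ≤ (2 * Real.log q + 1) * (Nat.totient q : ℝ) := by
  have h1 := Nat.totient_mul_prod_primeFactors q
  have h2 := prod_pred_bound q.primeFactors (fun p hp => (Nat.prime_of_mem_primeFactors hp).two_le)
  have hpos : 0 < ∏ p ∈ q.primeFactors, (p - 1) := by
    refine Finset.prod_pos fun p hp => ?_
    have := (Nat.prime_of_mem_primeFactors hp).two_le
    omega
  have h3 : q * ∏ p ∈ q.primeFactors, (p - 1) ≤ ((q.primeFactors.card + 1) * Nat.totient q) * ∏ p ∈ q.primeFactors, (p - 1) := by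
    rw [← h1]
    calc Nat.totient q * ∏ p ∈ q.primeFactors, p
        ≤ Nat.totient q * ((q.primeFactors.card + 1) * ∏ p ∈ q.primeFactors, (p - 1)) := Nat.mul_le_mul_left _ h2
      _ = _ := by ring
  have h4 : q ≤ (q.primeFactors.card + 1) * Nat.totient q := Nat.le_of_mul_le_mul_right h3 hpos
  have h5 : (q:ℝ) ≤ ((q.primeFactors.card : ℝ) + 1) * (Nat.totient q : ℝ) := by exact_mod_cast h4
  have h6 := omega_le q hq
  refine h5.trans (mul_le_mul_of_nonneg_right (by linarith) (by positivity))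

/-! ### Ramanujan sums -/

noncomputable def ram (q : ℕ) (b : ℤ) : ℂ :=
  ∑ a ∈ (range q).filter (fun a => Nat.Coprime a q), e (a * (b / q))

lemma coprime_indicator (a q : ℕ) (hq : 1 ≤ q) :
    (if Nat.Coprime a q then (1:ℂ) else 0) = ∑ d ∈ q.divisors, (if d ∣ a then ((μ d : ℤ) : ℂ) else 0) := by
  have h1 : ∑ d ∈ q.divisors, (if d ∣ a then ((μ d : ℤ) : ℂ) else 0) = ∑ d ∈ (Nat.gcd a q).divisors, ((μ d : ℤ) : ℂ) := by
    rw [← sum_filter]
    refine sum_congr ?_ fun _ _ => rfl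
    ext d
    rw [mem_filter, Nat.mem_divisors, Nat.mem_divisors]
    constructor
    · rintro ⟨⟨h2, h3⟩, h4⟩
      exact ⟨Nat.dvd_gcd h4 h2, Nat.gcd_ne_zero_right (by omega)⟩
    · rintro ⟨h2, _⟩
      exact ⟨⟨h2.trans (Nat.gcd_dvd_right a q), by omega⟩, h2.trans (Nat.gcd_dvd_left a q)⟩
  rw [h1]
  have h2 : (∑ d ∈ (Nat.gcd a q).divisors, ((μ d : ℤ) : ℂ)) = (((μ * (ζ : ArithmeticFunction ℤ)) (Nat.gcd a q) : ℤ) : ℂ) := by
    rw [ArithmeticFunction.coe_mul_zeta_apply]; push_cast; rfl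
  rw [h2, ArithmeticFunction.moebius_mul_coe_zeta, ArithmeticFunction.one_apply]
  unfold Nat.Coprime
  split_ifs <;> simp

lemma ram_eq (q : ℕ) (hq : 1 ≤ q) (b : ℤ) :
    ram q b = ∑ d ∈ q.divisors, ((μ d : ℤ) : ℂ) * (if ((q / d : ℕ) : ℤ) ∣ b then ((q / d : ℕ) : ℂ) else 0) := by
  unfold ram
  rw [sum_filter]
  have h1 : ∀ a ∈ range q, (if Nat.Coprime a q then e (a * (b / q)) else 0)
      = ∑ d ∈ q.divisors, (if d ∣ a then ((μ d : ℤ) : ℂ) * e (a * (b / q)) else 0) := by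
    intro a _
    have h2 := coprime_indicator a q hq
    calc (if Nat.Coprime a q then e (a * (b / q)) else 0)
        = (if Nat.Coprime a q then (1:ℂ) else 0) * e (a * (b / q)) := by split_ifs <;> simp
      _ = (∑ d ∈ q.divisors, (if d ∣ a then ((μ d : ℤ) : ℂ) else 0)) * e (a * (b / q)) := by rw [h2]
      _ = _ := by
          rw [sum_mul]; refine sum_congr rfl fun d _ => ?_
          split_ifs <;> simp
  rw [sum_congr rfl h1, sum_comm]
  refine sum_congr rfl fun d hd => ?_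
  rw [Nat.mem_divisors] at hd
  obtain ⟨⟨c, hc⟩, hq0⟩ := hd
  have hd0 : 0 < d := by
    rcases Nat.eq_zero_or_pos d with h | h
    · rw [h, zero_mul] at hc; omega
    · exact h
  have hc0 : 0 < c := by
    rcases Nat.eq_zero_or_pos c with h | h
    · rw [h, mul_zero] at hc; omega
    · exact h
  have hqd : q / d = c := by rw [hc]; exact Nat.mul_div_cancel_left c hd0
  rw [hqd, ← sum_roots c hc0 b, ← sum_filter, mul_sum]
  have hset : (range q).filter (fun a => d ∣ a) = (range c).image (fun j => d * j) := by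
    ext a
    rw [mem_filter, mem_range, mem_image]
    constructor
    · rintro ⟨h2, j, rfl⟩
      refine ⟨j, ?_, rfl⟩
      rw [mem_range]
      rw [hc] at h2
      exact lt_of_mul_lt_mul_left h2 (Nat.zero_le d)
    · rintro ⟨j, hj, rfl⟩
      rw [mem_range] at hj
      refine ⟨?_, Dvd.intro j rfl⟩
      rw [hc]
      exact Nat.mul_lt_mul_of_pos_left hj hd0
  rw [hset, sum_image (fun x _ y _ h => Nat.eq_of_mul_eq_mul_left hd0 h)]
  refine sum_congr rfl fun j _ => ?_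
  congr 2
  have hdr : (d:ℝ) ≠ 0 := by positivity
  have hcr : (c:ℝ) ≠ 0 := by positivity
  rw [hc]; push_cast; field_simp

lemma ram_coprime (q : ℕ) (hq : 1 ≤ q) (b : ℤ) (hb : IsCoprime b (q:ℤ)) : ram q b = ((μ q : ℤ) : ℂ) := by
  rw [ram_eq q hq b, sum_eq_single q]
  · rw [Nat.div_self hq]; simp
  · intro d hd hdq
    rw [Nat.mem_divisors] at hd
    obtain ⟨⟨c, hc⟩, hq0⟩ := hd
    have hd0 : 0 < d := by
      rcases Nat.eq_zero_or_pos d with h | h
      · rw [h, zero_mul] at hc; omega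
      · exact h
    have hqd : q / d = c := by rw [hc]; exact Nat.mul_div_cancel_left c hd0
    rw [hqd, if_neg, mul_zero]
    intro h
    have h2 : (c:ℤ) ∣ (q:ℤ) := by rw [hc]; push_cast; exact Dvd.intro_left _ rfl
    have h3 : IsUnit (c:ℤ) := hb.isUnit_of_dvd' h h2
    rw [Int.isUnit_iff] at h3
    have h4 : c = 1 := by
      rcases h3 with h3 | h3 <;> omega
    apply hdq
    rw [hc, h4, mul_one]
  · intro h
    exact absurd (Nat.mem_divisors_self q (by omega)) h

lemma ram_norm_le (q : ℕ) (hq : 1 ≤ q) (b : ℤ) (g : ℕ) (hg : ∀ c : ℕ, c ∣ q → (c:ℤ) ∣ b → c ≤ g) :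
    ‖ram q b‖ ≤ (g:ℝ) ^ 2 := by
  rw [ram_eq q hq b]
  refine (norm_sum_le _ _).trans ?_
  have h1 : ∑ d ∈ q.divisors, ‖((μ d : ℤ) : ℂ) * (if ((q / d : ℕ) : ℤ) ∣ b then ((q / d : ℕ) : ℂ) else 0)‖
      ≤ ∑ d ∈ q.divisors, (if ((q / d : ℕ) : ℤ) ∣ b then ((q / d : ℕ) : ℝ) else 0) := by
    refine sum_le_sum fun d _ => ?_
    rw [norm_mul]
    have h2 : ‖((μ d : ℤ) : ℂ)‖ ≤ 1 := by
      rw [Complex.norm_intCast]
      exact_mod_cast ArithmeticFunction.abs_moebius_le_one (n := d)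
    split_ifs
    · rw [Complex.norm_natCast]
      nlinarith [Nat.cast_nonneg (α := ℝ) (q / d)]
    · simp
  refine h1.trans ?_
  rw [Nat.sum_div_divisors q (fun c => if ((c : ℕ) : ℤ) ∣ b then ((c : ℕ) : ℝ) else 0), ← sum_filter]
  calc ∑ c ∈ q.divisors.filter (fun c => ((c : ℕ) : ℤ) ∣ b), ((c : ℕ) : ℝ)
      ≤ ∑ c ∈ q.divisors.filter (fun c => ((c : ℕ) : ℤ) ∣ b), (g:ℝ) := by
        refine sum_le_sum fun c hc => ?_
        rw [mem_filter, Nat.mem_divisors] at hc
        exact_mod_cast hg c hc.1.1 hc.2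
    _ = ((q.divisors.filter (fun c => ((c : ℕ) : ℤ) ∣ b)).card : ℝ) * g := by rw [sum_const, nsmul_eq_mul]
    _ ≤ g * g := by
        refine mul_le_mul_of_nonneg_right ?_ (by positivity)
        have hsub : q.divisors.filter (fun c => ((c : ℕ) : ℤ) ∣ b) ⊆ Finset.Icc 1 g := by
          intro c hc
          rw [mem_filter, Nat.mem_divisors] at hc
          rw [Finset.mem_Icc]
          exact ⟨Nat.pos_of_dvd_of_pos hc.1.1 (by omega), hg c hc.1.1 hc.2⟩
        have := card_le_card hsub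
        rw [Nat.card_Icc, Nat.add_sub_cancel] at this
        exact_mod_cast this
    _ = (g:ℝ) ^ 2 := by ring

/-! ### sums over squarefree numbers and primes -/

lemma sum_sqfree (S : ℕ) (hS : 1 ≤ S) :
    (1/2) * Real.log S ≤ ∑ s ∈ (Finset.Icc 1 S).filter Squarefree, 1 / (Nat.totient s : ℝ) := by
  have hex : ∀ n : ℕ, ∃ x : ℕ × ℕ, 1 ≤ n → (x.1 ^ 2 * x.2 = n ∧ Squarefree x.2 ∧ 0 < x.1 ∧ 0 < x.2) := by
    intro n
    by_cases hn : 1 ≤ n
    · obtain ⟨a, b, ha, hb, h1, h2⟩ := Nat.sq_mul_squarefree_of_pos hn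
      exact ⟨(b, a), fun _ => ⟨h1, h2, hb, ha⟩⟩
    · exact ⟨(0, 0), fun h => absurd h hn⟩
  choose f hf using hex
  have h1 : Real.log S ≤ ∑ n ∈ Finset.Icc 1 S, 1 / (n:ℝ) := by
    have h2 := log_add_one_le_harmonic S
    rw [harmonic_eq_sum_Icc] at h2
    push_cast at h2
    have h3 : Real.log S ≤ Real.log (S + 1) := Real.log_le_log (by exact_mod_cast hS) (by linarith)
    refine h3.trans (h2.trans (le_of_eq ?_))
    refine sum_congr rfl fun n _ => by rw [one_div]
  have h2 : ∑ n ∈ Finset.Icc 1 S, 1 / (n:ℝ)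
      ≤ ∑ x ∈ (Finset.Icc 1 S) ×ˢ ((Finset.Icc 1 S).filter Squarefree), 1 / (x.1:ℝ) ^ 2 * (1 / (x.2:ℝ)) := by
    have hinj : Set.InjOn f ((Finset.Icc 1 S : Finset ℕ) : Set ℕ) := by
      intro m hm n hn hmn
      simp only [coe_Icc, Set.mem_Icc] at hm hn
      rw [← (hf m hm.1).1, ← (hf n hn.1).1, hmn]
    have h3 : ∑ n ∈ Finset.Icc 1 S, 1 / (n:ℝ) = ∑ x ∈ (Finset.Icc 1 S).image f, 1 / (x.1:ℝ) ^ 2 * (1 / (x.2:ℝ)) := by
      rw [sum_image hinj]
      refine sum_congr rfl fun n hn => ?_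
      rw [Finset.mem_Icc] at hn
      obtain ⟨h4, _, h5, h6⟩ := hf n hn.1
      have : (n:ℝ) = ((f n).1:ℝ) ^ 2 * ((f n).2:ℝ) := by exact_mod_cast h4.symm
      rw [this, one_div_mul_one_div]
    rw [h3]
    refine sum_le_sum_of_subset_of_nonneg ?_ fun _ _ _ => by positivity
    intro x hx
    rw [mem_image] at hx
    obtain ⟨n, hn, rfl⟩ := hx
    rw [Finset.mem_Icc] at hn
    obtain ⟨h4, h5, h6, h7⟩ := hf n hn.1
    rw [mem_product, mem_filter, Finset.mem_Icc, Finset.mem_Icc]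
    have h8 : (f n).1 ≤ n := by
      calc (f n).1 ≤ (f n).1 ^ 2 := Nat.le_self_pow (by norm_num) _
        _ = (f n).1 ^ 2 * 1 := (mul_one _).symm
        _ ≤ (f n).1 ^ 2 * (f n).2 := Nat.mul_le_mul_left _ h7
        _ = n := h4
    have h9 : (f n).2 ≤ n := by
      calc (f n).2 = 1 * (f n).2 := (one_mul _).symm
        _ ≤ (f n).1 ^ 2 * (f n).2 := Nat.mul_le_mul_right _ (Nat.one_le_pow _ _ h6)
        _ = n := h4
    exact ⟨⟨h6, h8.trans hn.2⟩, ⟨h7, h9.trans hn.2⟩, h5⟩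
  rw [sum_product] at h2
  have h3 : ∑ x ∈ Finset.Icc 1 S, ∑ y ∈ (Finset.Icc 1 S).filter Squarefree, 1 / (x:ℝ) ^ 2 * (1 / (y:ℝ))
      = (∑ x ∈ Finset.Icc 1 S, 1 / (x:ℝ) ^ 2) * ∑ y ∈ (Finset.Icc 1 S).filter Squarefree, 1 / (y:ℝ) := by
    rw [sum_mul_sum]
  simp only at h2
  rw [h3] at h2
  have h4 : ∑ x ∈ Finset.Icc 1 S, 1 / (x:ℝ) ^ 2 ≤ 2 := by
    have h5 := sum_inv_sq_nat (range S)
    refine le_trans (le_of_eq ?_) h5
    have : Finset.Icc 1 S = (range S).image (fun j => j + 1) := by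
      ext m
      simp only [Finset.mem_Icc, mem_image, mem_range]
      constructor
      · intro h; exact ⟨m - 1, by omega, by omega⟩
      · rintro ⟨i, hi, rfl⟩; omega
    rw [this, sum_image (fun a _ b _ h => by simpa using h)]
    refine sum_congr rfl fun j _ => by push_cast; rfl
  have h5 : ∑ y ∈ (Finset.Icc 1 S).filter Squarefree, 1 / (y:ℝ) ≤ ∑ s ∈ (Finset.Icc 1 S).filter Squarefree, 1 / (Nat.totient s : ℝ) := by
    refine sum_le_sum fun s hs => ?_
    rw [mem_filter, Finset.mem_Icc] at hs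
    have h6 : 0 < Nat.totient s := Nat.totient_pos.mpr hs.1.1
    refine one_div_le_one_div_of_le (by exact_mod_cast h6) (by exact_mod_cast Nat.totient_le s)
  have h6 : 0 ≤ ∑ y ∈ (Finset.Icc 1 S).filter Squarefree, 1 / (y:ℝ) := sum_nonneg fun _ _ => by positivity
  nlinarith

end Pool.Agent.Var35
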