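import Pool.Agent.Lib_helper35.Var.Vaughan

/-! The mean value theorem for primes in nonprincipal characters to prime moduli -/

set_option autoImplicit false

namespace Pool.Agent.Var35

open Finset Complex
open scoped ArithmeticFunction ArithmeticFunction.Moebius ArithmeticFunction.zeta

lemma norm_hx_le (x : Σ p : ℕ, DirichletCharacter ℂ p) (a : ℤ) (s n : ℕ) : ‖hx x a s n‖ ≤ 1 := by
  unfold hx
  rw [norm_mul, norm_e, mul_one]
  exact norm_ev_le x n

lemma abs_Ml_le (U n : ℕ) : |Ml U n| ≤ 1 := by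
  rw [Ml_apply]
  split_ifs
  · have := ArithmeticFunction.abs_moebius_le_one (n := n)
    exact_mod_cast this
  · simp

lemma abs_mu_sub_Ml_le (U n : ℕ) : |((μ : ArithmeticFunction ℝ) - Ml U) n| ≤ 1 := by
  have h : ((μ : ArithmeticFunction ℝ) - Ml U) n = ((μ n : ℤ) : ℝ) - Ml U n := rfl
  rw [h, Ml_apply]
  split_ifs
  · simp
  · rw [sub_zero]
    have := ArithmeticFunction.abs_moebius_le_one (n := n)
    exact_mod_cast this

lemma mu_sub_Ml_zero (U n : ℕ) (hn : n ≤ U) : ((μ : ArithmeticFunction ℝ) - Ml U) n = 0 := by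
  have h : ((μ : ArithmeticFunction ℝ) - Ml U) n = ((μ n : ℤ) : ℝ) - Ml U n := rfl
  rw [h, Ml_apply, if_pos hn, sub_self]

lemma lam_le (U n : ℕ) : |(Ml U * Ll U) n| ≤ Real.log n := by
  rw [ArithmeticFunction.mul_apply, ← ArithmeticFunction.vonMangoldt_sum]
  refine (abs_sum_le_sum_abs _ _).trans ?_
  have h1 : ∀ x ∈ n.divisorsAntidiagonal, |Ml U x.1 * Ll U x.2| ≤ Λ x.2 := by
    intro x _
    rw [abs_mul]
    have h2 := abs_Ml_le U x.1
    have h3 : |Ll U x.2| ≤ Λ x.2 := by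
      rw [Ll_apply]
      split_ifs
      · rw [abs_of_nonneg ArithmeticFunction.vonMangoldt_nonneg]
      · simp [ArithmeticFunction.vonMangoldt_nonneg]
    calc |Ml U x.1| * |Ll U x.2| ≤ 1 * Λ x.2 := mul_le_mul h2 h3 (abs_nonneg _) zero_le_one
      _ = Λ x.2 := one_mul _
  refine (sum_le_sum h1).trans (le_of_eq ?_)
  exact Nat.sum_divisorsAntidiagonal' (fun _ j => Λ j)

lemma lam_zero (U n : ℕ) (hn : U * U < n) : (Ml U * Ll U) n = 0 := by
  rw [ArithmeticFunction.mul_apply]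
  refine sum_eq_zero fun x hx => ?_
  rw [Nat.mem_divisorsAntidiagonal] at hx
  rw [Ml_apply, Ll_apply]
  by_cases h1 : x.1 ≤ U
  · by_cases h2 : x.2 ≤ U
    · exfalso
      have := Nat.mul_le_mul h1 h2
      omega
    · rw [if_neg h2, mul_zero]
  · rw [if_neg h1, zero_mul]

lemma beta_eq (U n : ℕ) : ((Λ - Ll U) * (ζ : ArithmeticFunction ℝ)) n
    = ∑ d ∈ n.divisors, (if d ≤ U then 0 else Λ d) := by
  rw [mul_comm, ArithmeticFunction.coe_zeta_mul_apply]
  refine sum_congr rfl fun d _ => ?_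
  have h : (Λ - Ll U : ArithmeticFunction ℝ) d = Λ d - Ll U d := rfl
  rw [h, Ll_apply]
  split_ifs <;> simp

lemma beta_le (U n : ℕ) : |((Λ - Ll U) * (ζ : ArithmeticFunction ℝ)) n| ≤ Real.log n := by
  rw [beta_eq, abs_of_nonneg, ← ArithmeticFunction.vonMangoldt_sum]
  · refine sum_le_sum fun d _ => ?_
    split_ifs
    · exact ArithmeticFunction.vonMangoldt_nonneg
    · exact le_rfl
  · refine sum_nonneg fun d _ => ?_
    split_ifs
    · exact le_rfl
    · exact ArithmeticFunction.vonMangoldt_nonneg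

lemma beta_zero (U n : ℕ) (hn : n ≤ U) : ((Λ - Ll U) * (ζ : ArithmeticFunction ℝ)) n = 0 := by
  rw [beta_eq]
  refine sum_eq_zero fun d hd => ?_
  have := Nat.divisor_le hd
  rw [if_pos (this.trans hn)]

theorem mv (PP : Finset ℕ) (P : ℕ) (hP : ∀ p ∈ PP, p.Prime ∧ p ≤ P) (hP1 : 1 ≤ P)
    (s : ℕ) (hs : 1 ≤ s) (hps : ∀ p ∈ PP, ¬ p ∣ s) (a : ℤ) (U u N : ℕ) (hU : 1 ≤ U) (hu : u ≤ N) (hN : 1 ≤ N) :
    ∑ x ∈ R PP, ‖∑ n ∈ Finset.Icc 1 u, ((Λ n : ℝ) : ℂ) * hx x a s n‖
      ≤ 132 * s * (2 + Real.log N) ^ 3 *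
        (N + N * P / Real.sqrt U + Real.sqrt N * (P:ℝ) ^ 2 + Real.sqrt N * P * U + U * (P:ℝ) ^ 2 * Real.sqrt P) := by
  have hlN : 0 ≤ Real.log N := Real.log_natCast_nonneg N
  set Lg := 2 + Real.log N with hLg
  have hLg1 : 1 ≤ Lg := by linarith
  have hsr : (1:ℝ) ≤ s := by exact_mod_cast hs
  have hPr : (1:ℝ) ≤ P := by exact_mod_cast hP1
  have hsqP : 1 ≤ Real.sqrt P := by rw [← Real.sqrt_one]; exact Real.sqrt_le_sqrt hPr
  have hUr : (1:ℝ) ≤ U := by exact_mod_cast hU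
  have hNr : (1:ℝ) ≤ N := by exact_mod_cast hN
  have hsqU : 0 < Real.sqrt U := Real.sqrt_pos.mpr (by linarith)
  -- decomposition
  have hdec : ∀ x, ∑ n ∈ Finset.Icc 1 u, ((Λ n : ℝ) : ℂ) * hx x a s n
      = ∑ n ∈ Finset.Icc 1 u, ((Ll U n : ℝ) : ℂ) * hx x a s n
        + ∑ m ∈ Finset.Icc 1 u, ∑ k ∈ Finset.Icc 1 (u / m), ((Ml U m : ℝ) : ℂ) * ((Real.log k : ℝ) : ℂ) * hx x a s (m * k)
        - ∑ m ∈ Finset.Icc 1 u, ∑ k ∈ Finset.Icc 1 (u / m), (((Ml U * Ll U) m : ℝ) : ℂ) * ((1 : ℝ) : ℂ) * hx x a s (m * k)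
        + ∑ m ∈ Finset.Icc 1 u, ∑ k ∈ Finset.Icc 1 (u / m),
          ((((μ : ArithmeticFunction ℝ) - Ml U) m : ℝ) : ℂ) * ((((Λ - Ll U) * (ζ : ArithmeticFunction ℝ)) k : ℝ) : ℂ) * hx x a s (m * k) := by
    intro x
    have h1 : ∑ n ∈ Finset.Icc 1 u, ((Λ n : ℝ) : ℂ) * hx x a s n
        = ∑ n ∈ Finset.Icc 1 u, ((Ll U n : ℝ) : ℂ) * hx x a s n
          + ∑ n ∈ Finset.Icc 1 u, (((Ml U * ArithmeticFunction.log) n : ℝ) : ℂ) * hx x a s n
          - ∑ n ∈ Finset.Icc 1 u, ((((Ml U * Ll U) * (ζ : ArithmeticFunction ℝ)) n : ℝ) : ℂ) * hx x a s n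
          + ∑ n ∈ Finset.Icc 1 u, (((((μ : ArithmeticFunction ℝ) - Ml U) * ((Λ - Ll U) * (ζ : ArithmeticFunction ℝ))) n : ℝ) : ℂ) * hx x a s n := by
      rw [← sum_add_distrib, ← sum_sub_distrib, ← sum_add_distrib]
      refine sum_congr rfl fun n _ => ?_
      have h2 := congrArg (fun F : ArithmeticFunction ℝ => F n) (vaughan U)
      have hsub : ∀ (F G : ArithmeticFunction ℝ) (n : ℕ), (F - G) n = F n - G n := fun _ _ _ => rfl
      simp only [ArithmeticFunction.add_apply] at h2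
      rw [hsub (Ll U + Ml U * ArithmeticFunction.log) (Ml U * Ll U * (ζ : ArithmeticFunction ℝ)),
        ArithmeticFunction.add_apply] at h2
      rw [h2]
      push_cast
      ring
    rw [h1, conv_sum, conv_sum, conv_sum]
    have h3 : ∑ m ∈ Finset.Icc 1 u, ∑ k ∈ Finset.Icc 1 (u / m),
          (((Ml U * Ll U) m : ℝ) : ℂ) * ((((ζ : ArithmeticFunction ℝ)) k : ℝ) : ℂ) * hx x a s (m * k)
        = ∑ m ∈ Finset.Icc 1 u, ∑ k ∈ Finset.Icc 1 (u / m),
          (((Ml U * Ll U) m : ℝ) : ℂ) * ((1 : ℝ) : ℂ) * hx x a s (m * k) := by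
      refine sum_congr rfl fun m _ => sum_congr rfl fun k hk => ?_
      rw [Finset.mem_Icc] at hk
      have : ((ζ : ArithmeticFunction ℝ)) k = 1 := by
        rw [ArithmeticFunction.natCoe_apply, ArithmeticFunction.zeta_apply, if_neg (by omega)]
        simp
      rw [this]
    rw [h3]
    rfl
  -- S1
  have hS1 : ∑ x ∈ R PP, ‖∑ n ∈ Finset.Icc 1 u, ((Ll U n : ℝ) : ℂ) * hx x a s n‖ ≤ (P:ℝ) ^ 2 * (U * Lg) := by
    have h1 : ∀ x ∈ R PP, ‖∑ n ∈ Finset.Icc 1 u, ((Ll U n : ℝ) : ℂ) * hx x a s n‖ ≤ U * Lg := by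
      intro x _
      have h2 : ∑ n ∈ Finset.Icc 1 u, ((Ll U n : ℝ) : ℂ) * hx x a s n
          = ∑ n ∈ (Finset.Icc 1 u).filter (fun n => n ≤ U), ((Ll U n : ℝ) : ℂ) * hx x a s n := by
        rw [sum_filter]
        refine sum_congr rfl fun n _ => ?_
        split_ifs with h
        · rfl
        · rw [Ll_apply, if_neg h]; simp
      rw [h2]
      refine (norm_sum_le _ _).trans ?_
      calc ∑ n ∈ (Finset.Icc 1 u).filter (fun n => n ≤ U), ‖((Ll U n : ℝ) : ℂ) * hx x a s n‖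
          ≤ ∑ n ∈ (Finset.Icc 1 u).filter (fun n => n ≤ U), Lg := by
            refine sum_le_sum fun n hn => ?_
            rw [mem_filter, Finset.mem_Icc] at hn
            rw [norm_mul, Complex.norm_real, Real.norm_eq_abs, Ll_apply, if_pos hn.2,
              abs_of_nonneg ArithmeticFunction.vonMangoldt_nonneg]
            have h3 : Λ n ≤ Real.log n := ArithmeticFunction.vonMangoldt_le_log
            have h4 : Real.log n ≤ Real.log N :=
              Real.log_le_log (by exact_mod_cast hn.1.1) (by exact_mod_cast hn.1.2.trans hu)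
            have h5 := norm_hx_le x a s n
            have h6 : (0:ℝ) ≤ Λ n := ArithmeticFunction.vonMangoldt_nonneg
            nlinarith [norm_nonneg (hx x a s n)]
        _ = (((Finset.Icc 1 u).filter (fun n => n ≤ U)).card : ℝ) * Lg := by rw [sum_const, nsmul_eq_mul]
        _ ≤ U * Lg := by
            refine mul_le_mul_of_nonneg_right ?_ (by linarith)
            have h7 : (Finset.Icc 1 u).filter (fun n => n ≤ U) ⊆ Finset.Icc 1 U := by
              intro n hn; rw [mem_filter, Finset.mem_Icc] at hn; rw [Finset.mem_Icc]; omega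
            have := card_le_card h7
            rw [Nat.card_Icc, Nat.add_sub_cancel] at this
            exact_mod_cast this
    refine (sum_le_sum h1).trans ?_
    rw [sum_const, nsmul_eq_mul]
    exact mul_le_mul_of_nonneg_right (card_R_le PP P hP) (by positivity)
  -- generic type I handler
  have hcard : (((Finset.Icc 1 u).filter (fun n => n ≤ U)).card : ℝ) ≤ U := by
    have h7 : (Finset.Icc 1 u).filter (fun n => n ≤ U) ⊆ Finset.Icc 1 U := by
      intro n hn; rw [mem_filter, Finset.mem_Icc] at hn; rw [Finset.mem_Icc]; omega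
    have := card_le_card h7
    rw [Nat.card_Icc, Nat.add_sub_cancel] at this
    exact_mod_cast this
  have hS2 : ∑ x ∈ R PP, ‖∑ m ∈ Finset.Icc 1 u, ∑ k ∈ Finset.Icc 1 (u / m),
      ((Ml U m : ℝ) : ℂ) * ((Real.log k : ℝ) : ℂ) * hx x a s (m * k)‖ ≤ U * (2 * Lg * ((P:ℝ) ^ 2 * Real.sqrt P * s)) := by
    have h1 : ∀ x ∈ R PP, ‖∑ m ∈ Finset.Icc 1 u, ∑ k ∈ Finset.Icc 1 (u / m),
        ((Ml U m : ℝ) : ℂ) * ((Real.log k : ℝ) : ℂ) * hx x a s (m * k)‖
        ≤ ∑ m ∈ (Finset.Icc 1 u).filter (fun n => n ≤ U), ‖∑ k ∈ Finset.Icc 1 (u / m), ((Real.log k : ℝ) : ℂ) * hx x a s (m * k)‖ := by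
      intro x _
      have h2 : ∑ m ∈ Finset.Icc 1 u, ∑ k ∈ Finset.Icc 1 (u / m), ((Ml U m : ℝ) : ℂ) * ((Real.log k : ℝ) : ℂ) * hx x a s (m * k)
          = ∑ m ∈ (Finset.Icc 1 u).filter (fun n => n ≤ U), ((Ml U m : ℝ) : ℂ) * ∑ k ∈ Finset.Icc 1 (u / m), ((Real.log k : ℝ) : ℂ) * hx x a s (m * k) := by
        rw [sum_filter]
        refine sum_congr rfl fun m _ => ?_
        split_ifs with h
        · rw [mul_sum]; refine sum_congr rfl fun k _ => by ring
        · rw [Ml_apply, if_neg h]; simp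
      rw [h2]
      refine (norm_sum_le _ _).trans (sum_le_sum fun m _ => ?_)
      rw [norm_mul, Complex.norm_real, Real.norm_eq_abs]
      have := abs_Ml_le U m
      nlinarith [norm_nonneg (∑ k ∈ Finset.Icc 1 (u / m), ((Real.log k : ℝ) : ℂ) * hx x a s (m * k))]
    refine (sum_le_sum h1).trans ?_
    rw [sum_comm]
    have h3 : ∀ m ∈ (Finset.Icc 1 u).filter (fun n => n ≤ U),
        ∑ x ∈ R PP, ‖∑ k ∈ Finset.Icc 1 (u / m), ((Real.log k : ℝ) : ℂ) * hx x a s (m * k)‖
          ≤ 2 * Lg * ((P:ℝ) ^ 2 * Real.sqrt P * s) := by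
      intro m hm
      rw [mem_filter, Finset.mem_Icc] at hm
      refine (type1_log PP P hP s hs hps a m (u / m)).trans ?_
      refine mul_le_mul_of_nonneg_right ?_ (by positivity)
      have h4 : 1 ≤ u / m := by rw [Nat.one_le_div_iff (by omega)]; exact hm.1.2
      have h5 : Real.log (u / m : ℕ) ≤ Real.log N :=
        Real.log_le_log (by exact_mod_cast h4) (by exact_mod_cast (Nat.div_le_self u m).trans hu)
      linarith
    refine (sum_le_sum h3).trans ?_
    rw [sum_const, nsmul_eq_mul]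
    exact mul_le_mul_of_nonneg_right hcard (by positivity)
  -- S3
  have hS3 : ∑ x ∈ R PP, ‖∑ m ∈ Finset.Icc 1 u, ∑ k ∈ Finset.Icc 1 (u / m),
      (((Ml U * Ll U) m : ℝ) : ℂ) * ((1 : ℝ) : ℂ) * hx x a s (m * k)‖
      ≤ U * (Lg * ((P:ℝ) ^ 2 * Real.sqrt P * s))
        + 44 * s * Lg ^ 2 * Lg * 1 * (N + Real.sqrt N * P * U + N * P / Real.sqrt U + Real.sqrt N * (P:ℝ) ^ 2) := by
    set lam2 : ℕ → ℝ := fun m => if m ≤ U then 0 else (Ml U * Ll U) m with hlam2
    have h1 : ∀ x ∈ R PP, ‖∑ m ∈ Finset.Icc 1 u, ∑ k ∈ Finset.Icc 1 (u / m),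
        (((Ml U * Ll U) m : ℝ) : ℂ) * ((1 : ℝ) : ℂ) * hx x a s (m * k)‖
        ≤ (∑ m ∈ (Finset.Icc 1 u).filter (fun n => n ≤ U), Lg * ‖∑ k ∈ Finset.Icc 1 (u / m), hx x a s (m * k)‖)
          + ‖∑ m ∈ Finset.Icc 1 u, ∑ k ∈ Finset.Icc 1 (u / m), (lam2 m : ℂ) * (((fun _ => 1 : ℕ → ℝ) k : ℝ) : ℂ) * hx x a s (m * k)‖ := by
      intro x _
      have h2 : ∑ m ∈ Finset.Icc 1 u, ∑ k ∈ Finset.Icc 1 (u / m),
          (((Ml U * Ll U) m : ℝ) : ℂ) * ((1 : ℝ) : ℂ) * hx x a s (m * k)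
          = ∑ m ∈ (Finset.Icc 1 u).filter (fun n => n ≤ U), (((Ml U * Ll U) m : ℝ) : ℂ) * ∑ k ∈ Finset.Icc 1 (u / m), hx x a s (m * k)
          + ∑ m ∈ Finset.Icc 1 u, ∑ k ∈ Finset.Icc 1 (u / m), (lam2 m : ℂ) * (((fun _ => 1 : ℕ → ℝ) k : ℝ) : ℂ) * hx x a s (m * k) := by
        rw [sum_filter, ← sum_add_distrib]
        refine sum_congr rfl fun m _ => ?_
        simp only [hlam2]
        split_ifs with h
        · simp only [Complex.ofReal_zero, zero_mul, sum_const_zero, add_zero]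
          rw [mul_sum]; refine sum_congr rfl fun k _ => by simp
        · rw [zero_add]
      rw [h2]
      refine (norm_add_le _ _).trans (add_le_add ?_ le_rfl)
      refine (norm_sum_le _ _).trans (sum_le_sum fun m hm => ?_)
      rw [mem_filter, Finset.mem_Icc] at hm
      rw [norm_mul, Complex.norm_real, Real.norm_eq_abs]
      refine mul_le_mul_of_nonneg_right ?_ (norm_nonneg _)
      have h3 := lam_le U m
      have h4 : Real.log m ≤ Real.log N :=
        Real.log_le_log (by exact_mod_cast hm.1.1) (by exact_mod_cast hm.1.2.trans hu)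
      linarith
    refine (sum_le_sum h1).trans ?_
    rw [sum_add_distrib]
    refine add_le_add ?_ ?_
    · rw [sum_comm]
      have h3 : ∀ m ∈ (Finset.Icc 1 u).filter (fun n => n ≤ U),
          ∑ x ∈ R PP, Lg * ‖∑ k ∈ Finset.Icc 1 (u / m), hx x a s (m * k)‖ ≤ Lg * ((P:ℝ) ^ 2 * Real.sqrt P * s) := by
        intro m _
        rw [← mul_sum]
        exact mul_le_mul_of_nonneg_left (type1 PP P hP s hs hps a m (u / m)) (by linarith)
      refine (sum_le_sum h3).trans ?_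
      rw [sum_const, nsmul_eq_mul]
      exact mul_le_mul_of_nonneg_right hcard (by positivity)
    · refine type2 PP P hP hP1 s hs a U u N hU hu hN lam2 (fun _ => 1) Lg 1
        (N + Real.sqrt N * P * U + N * P / Real.sqrt U + Real.sqrt N * (P:ℝ) ^ 2) (by linarith) zero_le_one ?_ ?_ ?_ ?_ (by positivity)
      · intro m hm; simp only [hlam2]; rw [if_pos hm]
      · intro m hm
        simp only [hlam2]
        split_ifs with h
        · simp; linarith
        · refine (lam_le U m).trans ?_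
          have hm1 : 0 < m := by omega
          calc Real.log m ≤ Real.log (2 * N) := Real.log_le_log (by exact_mod_cast hm1) (by exact_mod_cast hm)
            _ = Real.log 2 + Real.log N := Real.log_mul (by norm_num) (by positivity)
            _ ≤ Lg := by
                have := Real.log_two_lt_d9
                linarith
      · intro k _ _; simp
      · intro M hUM hMN hc1 _
        obtain ⟨m, hm1, hm2, hm3⟩ := hc1
        have hMU : M ≤ U * U := by
          by_contra h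
          push Not at h
          apply hm3
          simp only [hlam2]
          split_ifs with h'
          · rfl
          · exact lam_zero U m (by omega)
        have h5 : Real.sqrt M ≤ U := by
          rw [Real.sqrt_le_left (by positivity)]
          rw [sq]; exact_mod_cast hMU
        have h6 : Real.sqrt ((u / M : ℕ):ℝ) ≤ Real.sqrt N / Real.sqrt U := by
          rw [← Real.sqrt_div (by positivity)]
          refine Real.sqrt_le_sqrt ?_
          have h7 : ((u / M : ℕ):ℝ) ≤ (u:ℝ) / M := Nat.cast_div_le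
          have hMr : (U:ℝ) ≤ M := by exact_mod_cast hUM
          have hur : (u:ℝ) ≤ N := by exact_mod_cast hu
          refine h7.trans ?_
          exact div_le_div₀ (by linarith) hur (by linarith) hMr
        have h8 : Real.sqrt N * P * Real.sqrt ((u / M : ℕ):ℝ) ≤ N * P / Real.sqrt U := by
          calc Real.sqrt N * P * Real.sqrt ((u / M : ℕ):ℝ) ≤ Real.sqrt N * P * (Real.sqrt N / Real.sqrt U) :=
                mul_le_mul_of_nonneg_left h6 (by positivity)
            _ = (Real.sqrt N * Real.sqrt N) * P / Real.sqrt U := by ring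
            _ = N * P / Real.sqrt U := by rw [Real.mul_self_sqrt (by positivity)]
        have h9 : Real.sqrt N * P * Real.sqrt M ≤ Real.sqrt N * P * U := mul_le_mul_of_nonneg_left h5 (by positivity)
        linarith
  -- S4
  have hS4 : ∑ x ∈ R PP, ‖∑ m ∈ Finset.Icc 1 u, ∑ k ∈ Finset.Icc 1 (u / m),
      ((((μ : ArithmeticFunction ℝ) - Ml U) m : ℝ) : ℂ) * ((((Λ - Ll U) * (ζ : ArithmeticFunction ℝ)) k : ℝ) : ℂ) * hx x a s (m * k)‖
      ≤ 44 * s * Lg ^ 2 * 1 * Lg * (N + 2 * (N * P / Real.sqrt U) + Real.sqrt N * (P:ℝ) ^ 2) := by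
    refine type2 PP P hP hP1 s hs a U u N hU hu hN (fun m => ((μ : ArithmeticFunction ℝ) - Ml U) m)
      (fun k => ((Λ - Ll U) * (ζ : ArithmeticFunction ℝ)) k) 1 Lg
      (N + 2 * (N * P / Real.sqrt U) + Real.sqrt N * (P:ℝ) ^ 2) zero_le_one (by linarith) ?_ ?_ ?_ ?_ (by positivity)
    · intro m hm; exact mu_sub_Ml_zero U m hm
    · intro m _; exact abs_mu_sub_Ml_le U m
    · intro k hk1 hk2
      refine (beta_le U k).trans ?_
      have : Real.log k ≤ Real.log N := Real.log_le_log (by exact_mod_cast hk1) (by exact_mod_cast hk2)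
      linarith
    · intro M hUM hMN _ hc2
      obtain ⟨k, hk1, hk2, hk3⟩ := hc2
      have hkU : U < k := by
        by_contra h
        push Not at h
        exact hk3 (beta_zero U k h)
      have hMr : (U:ℝ) ≤ M := by exact_mod_cast hUM
      have hur : (u:ℝ) ≤ N := by exact_mod_cast hu
      have h6 : Real.sqrt ((u / M : ℕ):ℝ) ≤ Real.sqrt N / Real.sqrt U := by
        rw [← Real.sqrt_div (by positivity)]
        refine Real.sqrt_le_sqrt ?_
        have h7 : ((u / M : ℕ):ℝ) ≤ (u:ℝ) / M := Nat.cast_div_le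
        refine h7.trans ?_
        exact div_le_div₀ (by linarith) hur (by linarith) hMr
      have h5 : Real.sqrt M ≤ Real.sqrt N / Real.sqrt U := by
        rw [← Real.sqrt_div (by positivity)]
        refine Real.sqrt_le_sqrt ?_
        rw [le_div_iff₀ (by linarith)]
        have h7 : M * (u / M) ≤ u := Nat.mul_div_le u M
        have h8 : M * U ≤ M * (u / M) := Nat.mul_le_mul_left M (hkU.le.trans hk2)
        have h9 : M * U ≤ N := (h8.trans h7).trans hu
        exact_mod_cast h9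
      have h8 : Real.sqrt N * P * Real.sqrt ((u / M : ℕ):ℝ) ≤ N * P / Real.sqrt U := by
        calc Real.sqrt N * P * Real.sqrt ((u / M : ℕ):ℝ) ≤ Real.sqrt N * P * (Real.sqrt N / Real.sqrt U) :=
              mul_le_mul_of_nonneg_left h6 (by positivity)
          _ = (Real.sqrt N * Real.sqrt N) * P / Real.sqrt U := by ring
          _ = N * P / Real.sqrt U := by rw [Real.mul_self_sqrt (by positivity)]
      have h9 : Real.sqrt N * P * Real.sqrt M ≤ N * P / Real.sqrt U := by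
        calc Real.sqrt N * P * Real.sqrt M ≤ Real.sqrt N * P * (Real.sqrt N / Real.sqrt U) :=
              mul_le_mul_of_nonneg_left h5 (by positivity)
          _ = (Real.sqrt N * Real.sqrt N) * P / Real.sqrt U := by ring
          _ = N * P / Real.sqrt U := by rw [Real.mul_self_sqrt (by positivity)]
      linarith
  -- assembly
  have hsum : ∑ x ∈ R PP, ‖∑ n ∈ Finset.Icc 1 u, ((Λ n : ℝ) : ℂ) * hx x a s n‖
      ≤ (P:ℝ) ^ 2 * (U * Lg) + U * (2 * Lg * ((P:ℝ) ^ 2 * Real.sqrt P * s))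
        + (U * (Lg * ((P:ℝ) ^ 2 * Real.sqrt P * s))
        + 44 * s * Lg ^ 2 * Lg * 1 * (N + Real.sqrt N * P * U + N * P / Real.sqrt U + Real.sqrt N * (P:ℝ) ^ 2))
        + 44 * s * Lg ^ 2 * 1 * Lg * (N + 2 * (N * P / Real.sqrt U) + Real.sqrt N * (P:ℝ) ^ 2) := by
    refine le_trans ?_ (add_le_add (add_le_add (add_le_add hS1 hS2) hS3) hS4)
    rw [← sum_add_distrib, ← sum_add_distrib, ← sum_add_distrib]
    refine sum_le_sum fun x _ => ?_
    rw [hdec x]
    refine (norm_add_le _ _).trans (add_le_add ?_ le_rfl)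
    refine (norm_sub_le _ _).trans (add_le_add ?_ le_rfl)
    exact norm_add_le _ _
  refine hsum.trans ?_
  have hLg3 : Lg ≤ Lg ^ 3 := by
    have : Lg ^ 1 ≤ Lg ^ 3 := pow_le_pow_right₀ hLg1 (by norm_num)
    simpa using this
  set W := U * (P:ℝ) ^ 2 * Real.sqrt P with hW
  have hW0 : 0 ≤ W := by positivity
  have e1 : (P:ℝ) ^ 2 * (U * Lg) ≤ s * Lg ^ 3 * W := by
    have : (P:ℝ) ^ 2 * (U * Lg) = 1 * Lg * (U * (P:ℝ) ^ 2 * 1) := by ring
    rw [this]
    refine mul_le_mul ?_ ?_ (by positivity) (by positivity)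
    · exact mul_le_mul hsr hLg3 (by linarith) (by linarith)
    · exact mul_le_mul_of_nonneg_left hsqP (by positivity)
  have e2 : U * (2 * Lg * ((P:ℝ) ^ 2 * Real.sqrt P * s)) ≤ 2 * (s * Lg ^ 3 * W) := by
    have : U * (2 * Lg * ((P:ℝ) ^ 2 * Real.sqrt P * s)) = 2 * (s * Lg * W) := by rw [hW]; ring
    rw [this]
    have : s * Lg * W ≤ s * Lg ^ 3 * W := by
      refine mul_le_mul_of_nonneg_right ?_ hW0
      exact mul_le_mul_of_nonneg_left hLg3 (by linarith)
    linarith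
  have e3 : U * (Lg * ((P:ℝ) ^ 2 * Real.sqrt P * s)) ≤ s * Lg ^ 3 * W := by
    have : U * (Lg * ((P:ℝ) ^ 2 * Real.sqrt P * s)) = s * Lg * W := by rw [hW]; ring
    rw [this]
    refine mul_le_mul_of_nonneg_right ?_ hW0
    exact mul_le_mul_of_nonneg_left hLg3 (by linarith)
  have hpos : 0 ≤ s * Lg ^ 3 := by positivity
  have p1 : 0 ≤ s * Lg ^ 3 * (N:ℝ) := by positivity
  have p2 : 0 ≤ s * Lg ^ 3 * (N * P / Real.sqrt U) := by positivity
  have p3 : 0 ≤ s * Lg ^ 3 * (Real.sqrt N * (P:ℝ) ^ 2) := by positivity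
  have p4 : 0 ≤ s * Lg ^ 3 * (Real.sqrt N * P * U) := by positivity
  have p5 : 0 ≤ s * Lg ^ 3 * W := by positivity
  nlinarith [e1, e2, e3, p1, p2, p3, p4, p5]

end Pool.Agent.Var35
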