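import Pool.Agent.Lib_helper35.Var.Bilin

/-! Vaughan's identity and the mean value theorem for primes in characters to prime moduli -/

set_option autoImplicit false

namespace Pool.Agent.Var35

open Finset Complex
open scoped ArithmeticFunction ArithmeticFunction.Moebius ArithmeticFunction.zeta

/-- truncated Moebius function -/
noncomputable def Ml (U : ℕ) : ArithmeticFunction ℝ := ⟨fun n => if n ≤ U then ((μ n : ℤ) : ℝ) else 0, by simp⟩

/-- truncated von Mangoldt function -/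
noncomputable def Ll (U : ℕ) : ArithmeticFunction ℝ := ⟨fun n => if n ≤ U then Λ n else 0, by simp⟩

lemma Ml_apply (U n : ℕ) : Ml U n = if n ≤ U then ((μ n : ℤ) : ℝ) else 0 := rfl
lemma Ll_apply (U n : ℕ) : Ll U n = if n ≤ U then Λ n else 0 := rfl

lemma vaughan (U : ℕ) : (Λ : ArithmeticFunction ℝ)
    = Ll U + Ml U * ArithmeticFunction.log - (Ml U * Ll U) * (ζ : ArithmeticFunction ℝ)
      + ((μ : ArithmeticFunction ℝ) - Ml U) * ((Λ - Ll U) * (ζ : ArithmeticFunction ℝ)) := by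
  have h1 : ((μ : ArithmeticFunction ℝ)) * (ζ : ArithmeticFunction ℝ) = 1 :=
    ArithmeticFunction.coe_moebius_mul_coe_zeta
  have h2 : (Λ : ArithmeticFunction ℝ) * (ζ : ArithmeticFunction ℝ) = ArithmeticFunction.log :=
    ArithmeticFunction.vonMangoldt_mul_zeta
  linear_combination (-(Λ - Ll U)) * h1 + Ml U * h2

/-- sums of convolutions -/
lemma conv_sum (F G : ArithmeticFunction ℝ) (g : ℕ → ℂ) (u : ℕ) :
    ∑ n ∈ Finset.Icc 1 u, (((F * G) n : ℝ) : ℂ) * g n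
      = ∑ m ∈ Finset.Icc 1 u, ∑ k ∈ Finset.Icc 1 (u / m), ((F m : ℝ) : ℂ) * ((G k : ℝ) : ℂ) * g (m * k) := by
  have h1 : ∀ n ∈ Finset.Icc 1 u, (((F * G) n : ℝ) : ℂ) * g n
      = ∑ x ∈ (Finset.Ioc 0 u ×ˢ Finset.Ioc 0 u).filter (fun x => x.1 * x.2 = n),
          ((F x.1 : ℝ) : ℂ) * ((G x.2 : ℝ) : ℂ) * g (x.1 * x.2) := by
    intro n hn
    rw [Finset.mem_Icc] at hn
    rw [ArithmeticFunction.mul_apply, Nat.divisorsAntidiagonal_eq_prod_filter_of_le (by omega) hn.2]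
    push_cast
    rw [sum_mul]
    refine sum_congr rfl fun x hx => ?_
    rw [mem_filter] at hx
    rw [hx.2]
  rw [sum_congr rfl h1]
  simp_rw [sum_filter]
  rw [sum_comm]
  rw [sum_product]
  have hI : Finset.Icc 1 u = Finset.Ioc 0 u := by ext k; simp only [Finset.mem_Ioc, Finset.mem_Icc]; omega
  rw [hI]
  refine sum_congr rfl fun m hm => ?_
  rw [Finset.mem_Ioc] at hm
  have h2 : ∀ k ∈ Finset.Ioc 0 u, (∑ n ∈ Finset.Ioc 0 u, if m * k = n then ((F m : ℝ) : ℂ) * ((G k : ℝ) : ℂ) * g (m * k) else 0)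
      = if m * k ≤ u then ((F m : ℝ) : ℂ) * ((G k : ℝ) : ℂ) * g (m * k) else 0 := by
    intro k hk
    rw [Finset.mem_Ioc] at hk
    rw [Finset.sum_ite_eq]
    have : 0 < m * k := Nat.mul_pos hm.1 hk.1
    simp only [Finset.mem_Ioc, this, true_and]
  rw [sum_congr rfl h2, ← sum_filter]
  refine sum_congr ?_ fun _ _ => rfl
  ext k
  simp only [mem_filter, Finset.mem_Ioc, Finset.mem_Icc]
  rw [Nat.le_div_iff_mul_le hm.1]
  constructor
  · rintro ⟨⟨h3, h4⟩, h5⟩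
    exact ⟨h3, by rw [mul_comm]; exact h5⟩
  · rintro ⟨h3, h4⟩
    refine ⟨⟨h3, ?_⟩, by rw [mul_comm]; exact h4⟩
    calc k = k * 1 := (mul_one k).symm
      _ ≤ k * m := Nat.mul_le_mul_left k hm.1
      _ ≤ u := h4

lemma dyadic_split {E : Type*} [AddCommMonoid E] (F : ℕ → E) (U : ℕ) (J : ℕ) :
    ∑ m ∈ Finset.Ioc U (2 ^ J * U), F m
      = ∑ i ∈ range J, ∑ m ∈ Finset.Ioc (2 ^ i * U) (2 ^ i * U + 2 ^ i * U), F m := by
  induction J with
  | zero => simp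
  | succ J ih =>
      rw [sum_range_succ, ← ih]
      have h1 : 2 ^ (J + 1) * U = 2 ^ J * U + 2 ^ J * U := by ring
      rw [h1]
      symm
      refine Finset.sum_Ioc_consecutive F ?_ (by omega)
      calc U = 1 * U := (one_mul U).symm
        _ ≤ 2 ^ J * U := Nat.mul_le_mul_right U (Nat.one_le_two_pow)

lemma num_bound (M T P N : ℝ) (hM : 0 ≤ M) (hT : 0 ≤ T) (hP : 0 ≤ P) (hMT : M * T ≤ N) :
    Real.sqrt ((M + P ^ 2) * M) * Real.sqrt ((T + P ^ 2) * T)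
      ≤ N + Real.sqrt N * P * Real.sqrt M + Real.sqrt N * P * Real.sqrt T + Real.sqrt N * P ^ 2 := by
  have hN : 0 ≤ N := le_trans (by positivity) hMT
  set a := Real.sqrt N
  set b := Real.sqrt M with hb
  set c := Real.sqrt T with hc
  have ha2 : a ^ 2 = N := Real.sq_sqrt hN
  have hb2 : b ^ 2 = M := Real.sq_sqrt hM
  have hc2 : c ^ 2 = T := Real.sq_sqrt hT
  have ha0 : 0 ≤ a := Real.sqrt_nonneg _
  have hb0 : 0 ≤ b := Real.sqrt_nonneg _
  have hc0 : 0 ≤ c := Real.sqrt_nonneg _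
  rw [← Real.sqrt_mul (by positivity)]
  have h1 : (M + P ^ 2) * M * ((T + P ^ 2) * T) ≤ (a * (a + P * b + P * c + P ^ 2)) ^ 2 := by
    have h2 : (M + P ^ 2) * M * ((T + P ^ 2) * T) = (M * T) * (M * T + P ^ 2 * M + P ^ 2 * T + P ^ 4) := by ring
    rw [h2, mul_pow, ha2]
    refine mul_le_mul hMT ?_ (by positivity) hN
    have h3 : (a + P * b + P * c + P ^ 2) ^ 2 = a ^ 2 + P ^ 2 * b ^ 2 + P ^ 2 * c ^ 2 + P ^ 4
        + 2 * (a * (P * b) + a * (P * c) + a * P ^ 2 + (P * b) * (P * c) + (P * b) * P ^ 2 + (P * c) * P ^ 2) := by ring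
    rw [h3, ha2, hb2, hc2]
    have h4 : 0 ≤ 2 * (a * (P * b) + a * (P * c) + a * P ^ 2 + (P * b) * (P * c) + (P * b) * P ^ 2 + (P * c) * P ^ 2) := by
      positivity
    linarith
  refine (Real.sqrt_le_sqrt h1).trans ?_
  rw [Real.sqrt_sq (by positivity)]
  have : a * (a + P * b + P * c + P ^ 2) = a ^ 2 + a * P * b + a * P * c + a * P ^ 2 := by ring
  rw [this, ha2]

/-- the twisted character -/
noncomputable def hx (x : Σ p : ℕ, DirichletCharacter ℂ p) (a : ℤ) (s : ℕ) (n : ℕ) : ℂ :=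
  ev x n * e (a * (n : ℕ) / s)

lemma card_R_le (PP : Finset ℕ) (P : ℕ) (hP : ∀ p ∈ PP, p.Prime ∧ p ≤ P) : ((R PP).card : ℝ) ≤ (P:ℝ) ^ 2 := by
  unfold R
  rw [card_sigma]
  push_cast
  have h1 : ∑ p ∈ PP, ((X p).card : ℝ) ≤ ∑ p ∈ PP, (P:ℝ) := by
    refine sum_le_sum fun p hp => ?_
    have : Fact p.Prime := ⟨(hP p hp).1⟩
    exact (card_X_le p).trans (by exact_mod_cast (hP p hp).2)
  refine h1.trans ?_
  rw [sum_const, nsmul_eq_mul, sq]
  refine mul_le_mul_of_nonneg_right ?_ (by positivity)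
  have h2 : PP ⊆ Finset.Icc 1 P := by
    intro p hp
    rw [Finset.mem_Icc]
    exact ⟨(hP p hp).1.one_le, (hP p hp).2⟩
  have := card_le_card h2
  rw [Nat.card_Icc, Nat.add_sub_cancel] at this
  exact_mod_cast this

lemma card_PP_le (PP : Finset ℕ) (P : ℕ) (hP : ∀ p ∈ PP, p.Prime ∧ p ≤ P) : (PP.card : ℝ) ≤ (P:ℝ) := by
  have h2 : PP ⊆ Finset.Icc 1 P := by
    intro p hp
    rw [Finset.mem_Icc]
    exact ⟨(hP p hp).1.one_le, (hP p hp).2⟩
  have := card_le_card h2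
  rw [Nat.card_Icc, Nat.add_sub_cancel] at this
  exact_mod_cast this

/-- type I estimate without weights -/
lemma type1 (PP : Finset ℕ) (P : ℕ) (hP : ∀ p ∈ PP, p.Prime ∧ p ≤ P)
    (s : ℕ) (hs : 1 ≤ s) (hps : ∀ p ∈ PP, ¬ p ∣ s) (a : ℤ) (m y : ℕ) :
    ∑ x ∈ R PP, ‖∑ k ∈ Finset.Icc 1 y, hx x a s (m * k)‖ ≤ (P:ℝ) ^ 2 * Real.sqrt P * s := by
  unfold R
  rw [sum_sigma]
  have h1 : ∀ p ∈ PP, ∑ χ ∈ X p, ‖∑ k ∈ Finset.Icc 1 y, hx ⟨p, χ⟩ a s (m * k)‖ ≤ P * Real.sqrt P * s := by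
    intro p hp
    have hpp : Fact p.Prime := ⟨(hP p hp).1⟩
    have h2 : ∀ χ ∈ X p, ‖∑ k ∈ Finset.Icc 1 y, hx ⟨p, χ⟩ a s (m * k)‖
        ≤ ‖∑ k ∈ range (y + 1), χ (k : ZMod p) * e ((a * m : ℤ) * k / s)‖ := by
      intro χ _
      have h3 : ∑ k ∈ Finset.Icc 1 y, hx ⟨p, χ⟩ a s (m * k)
          = ev ⟨p, χ⟩ m * ∑ k ∈ range (y + 1), χ (k : ZMod p) * e ((a * m : ℤ) * k / s) := by
        rw [mul_sum, sum_range_eq_add_Ico _ (Nat.succ_pos y)]
        have h4 : ev ⟨p, χ⟩ m * (χ ((0:ℕ) : ZMod p) * e ((a * m : ℤ) * (0:ℕ) / s)) = 0 := by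
          rw [Nat.cast_zero, MulChar.map_zero]; ring
        rw [h4, zero_add]
        have : Finset.Ico 1 (y + 1) = Finset.Icc 1 y := by ext k; simp only [Finset.mem_Ico, Finset.mem_Icc]; omega
        rw [this]
        refine sum_congr rfl fun k _ => ?_
        unfold hx
        rw [ev_mul]
        have h5 : (a:ℝ) * (m * k : ℕ) / s = (a * m : ℤ) * k / s := by push_cast; ring
        rw [h5]
        unfold ev
        simp only
        ring
      rw [h3, norm_mul]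
      have := norm_ev_le ⟨p, χ⟩ m
      nlinarith [norm_nonneg (∑ k ∈ range (y + 1), χ (k : ZMod p) * e ((a * m : ℤ) * k / s))]
    refine (sum_le_sum h2).trans ((pv_avg p s hs (hps p hp) (a * m) (y + 1)).trans ?_)
    have hpP : (p:ℝ) ≤ P := by exact_mod_cast (hP p hp).2
    have h6 := Real.sqrt_le_sqrt hpP
    refine mul_le_mul_of_nonneg_right ?_ (by positivity)
    exact mul_le_mul hpP h6 (Real.sqrt_nonneg _) (by positivity)
  refine (sum_le_sum h1).trans ?_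
  rw [sum_const, nsmul_eq_mul]
  calc (PP.card : ℝ) * (P * Real.sqrt P * s) ≤ P * (P * Real.sqrt P * s) :=
        mul_le_mul_of_nonneg_right (card_PP_le PP P hP) (by positivity)
    _ = _ := by ring

/-- type I estimate with logarithmic weight -/
lemma type1_log (PP : Finset ℕ) (P : ℕ) (hP : ∀ p ∈ PP, p.Prime ∧ p ≤ P)
    (s : ℕ) (hs : 1 ≤ s) (hps : ∀ p ∈ PP, ¬ p ∣ s) (a : ℤ) (m y : ℕ) :
    ∑ x ∈ R PP, ‖∑ k ∈ Finset.Icc 1 y, (Real.log k : ℂ) * hx x a s (m * k)‖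
      ≤ 2 * Real.log y * ((P:ℝ) ^ 2 * Real.sqrt P * s) := by
  unfold R
  rw [sum_sigma]
  have hly : 0 ≤ Real.log y := Real.log_natCast_nonneg y
  have h1 : ∀ p ∈ PP, ∑ χ ∈ X p, ‖∑ k ∈ Finset.Icc 1 y, (Real.log k : ℂ) * hx ⟨p, χ⟩ a s (m * k)‖
      ≤ 2 * Real.log y * (P * Real.sqrt P * s) := by
    intro p hp
    have hpp : Fact p.Prime := ⟨(hP p hp).1⟩
    have h2 : ∀ χ ∈ X p, ‖∑ k ∈ Finset.Icc 1 y, (Real.log k : ℂ) * hx ⟨p, χ⟩ a s (m * k)‖
        ≤ ‖∑ k ∈ range (y + 1), (Real.log k : ℂ) * (χ (k : ZMod p) * e ((a * m : ℤ) * k / s))‖ := by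
      intro χ _
      have h3 : ∑ k ∈ Finset.Icc 1 y, (Real.log k : ℂ) * hx ⟨p, χ⟩ a s (m * k)
          = ev ⟨p, χ⟩ m * ∑ k ∈ range (y + 1), (Real.log k : ℂ) * (χ (k : ZMod p) * e ((a * m : ℤ) * k / s)) := by
        rw [mul_sum, sum_range_eq_add_Ico _ (Nat.succ_pos y)]
        have h4 : ev ⟨p, χ⟩ m * ((Real.log (0:ℕ) : ℂ) * (χ ((0:ℕ) : ZMod p) * e ((a * m : ℤ) * (0:ℕ) / s))) = 0 := by
          simp
        rw [h4, zero_add]
        have : Finset.Ico 1 (y + 1) = Finset.Icc 1 y := by ext k; simp only [Finset.mem_Ico, Finset.mem_Icc]; omega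
        rw [this]
        refine sum_congr rfl fun k _ => ?_
        unfold hx
        rw [ev_mul]
        have h5 : (a:ℝ) * (m * k : ℕ) / s = (a * m : ℤ) * k / s := by push_cast; ring
        rw [h5]
        unfold ev
        simp only
        ring
      rw [h3, norm_mul]
      have := norm_ev_le ⟨p, χ⟩ m
      nlinarith [norm_nonneg (∑ k ∈ range (y + 1), (Real.log k : ℂ) * (χ (k : ZMod p) * e ((a * m : ℤ) * k / s)))]
    refine (sum_le_sum h2).trans ((pv_avg_log p s hs (hps p hp) (a * m) y).trans ?_)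
    have hpP : (p:ℝ) ≤ P := by exact_mod_cast (hP p hp).2
    have h6 := Real.sqrt_le_sqrt hpP
    refine mul_le_mul_of_nonneg_left ?_ (by positivity)
    refine mul_le_mul_of_nonneg_right ?_ (by positivity)
    exact mul_le_mul hpP h6 (Real.sqrt_nonneg _) (by positivity)
  refine (sum_le_sum h1).trans ?_
  rw [sum_const, nsmul_eq_mul]
  calc (PP.card : ℝ) * (2 * Real.log y * (P * Real.sqrt P * s)) ≤ P * (2 * Real.log y * (P * Real.sqrt P * s)) :=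
        mul_le_mul_of_nonneg_right (card_PP_le PP P hP) (by positivity)
    _ = _ := by ring

/-- Type II estimate: sum over `m > U`. -/
lemma type2 (PP : Finset ℕ) (P : ℕ) (hP : ∀ p ∈ PP, p.Prime ∧ p ≤ P) (hP1 : 1 ≤ P)
    (s : ℕ) (hs : 1 ≤ s) (a : ℤ) (U u N : ℕ) (hU : 1 ≤ U) (hu : u ≤ N) (hN : 1 ≤ N)
    (α β : ℕ → ℝ) (A B E : ℝ) (hA : 0 ≤ A) (hB : 0 ≤ B)
    (hα0 : ∀ m, m ≤ U → α m = 0)
    (hα : ∀ m, m ≤ 2 * N → |α m| ≤ A) (hβ : ∀ k, 1 ≤ k → k ≤ N → |β k| ≤ B)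
    (hE : ∀ M, U ≤ M → M ≤ N → (∃ m, M < m ∧ m ≤ 2 * M ∧ α m ≠ 0) → (∃ k, 1 ≤ k ∧ k ≤ u / M ∧ β k ≠ 0) →
      (N:ℝ) + Real.sqrt N * P * Real.sqrt M + Real.sqrt N * P * Real.sqrt ((u / M : ℕ):ℝ) + Real.sqrt N * (P:ℝ) ^ 2 ≤ E)
    (hE0 : 0 ≤ E) :
    ∑ x ∈ R PP, ‖∑ m ∈ Finset.Icc 1 u, ∑ k ∈ Finset.Icc 1 (u / m), (α m : ℂ) * (β k : ℂ) * hx x a s (m * k)‖
      ≤ 44 * s * (2 + Real.log N) ^ 2 * A * B * E := by
  have hlN : 0 ≤ Real.log N := Real.log_natCast_nonneg N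
  set J : ℕ := Nat.log 2 u + 1 with hJ
  have hJu : u ≤ 2 ^ J * U := by
    have h1 : u < 2 ^ J := Nat.lt_pow_succ_log_self (by norm_num) u
    calc u ≤ 2 ^ J * 1 := by omega
      _ ≤ 2 ^ J * U := Nat.mul_le_mul_left _ hU
  have hJr : (J:ℝ) ≤ 2 * (2 + Real.log N) := by
    rcases Nat.eq_zero_or_pos u with h0 | h0
    · rw [hJ, h0]; simp; nlinarith
    have h1 : ((Nat.log 2 u : ℕ) : ℝ) ≤ Real.logb 2 u := by
      have := Real.natLog_le_logb u 2
      exact_mod_cast this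
    have h2 : Real.logb 2 u ≤ 2 * Real.log N := by
      unfold Real.logb
      rw [div_le_iff₀ (Real.log_pos (by norm_num))]
      have h3 : (0.5:ℝ) ≤ Real.log 2 := by
        have := Real.log_two_gt_d9; linarith
      have h4 : Real.log u ≤ Real.log N := Real.log_le_log (by exact_mod_cast h0) (by exact_mod_cast hu)
      nlinarith
    rw [hJ]; push_cast
    linarith
  -- rewrite the sum over m
  have hsplit : ∀ x, ∑ m ∈ Finset.Icc 1 u, ∑ k ∈ Finset.Icc 1 (u / m), (α m : ℂ) * (β k : ℂ) * hx x a s (m * k)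
      = ∑ i ∈ range J, ∑ m ∈ Finset.Ioc (2 ^ i * U) (2 ^ i * U + 2 ^ i * U),
          ∑ k ∈ Finset.Icc 1 (u / m), (α m : ℂ) * (β k : ℂ) * hx x a s (m * k) := by
    intro x
    rw [← dyadic_split]
    have h1 : ∑ m ∈ Finset.Icc 1 u, ∑ k ∈ Finset.Icc 1 (u / m), (α m : ℂ) * (β k : ℂ) * hx x a s (m * k)
        = ∑ m ∈ Finset.Icc 1 (2 ^ J * U), ∑ k ∈ Finset.Icc 1 (u / m), (α m : ℂ) * (β k : ℂ) * hx x a s (m * k) := by
      refine sum_subset (Finset.Icc_subset_Icc_right hJu) fun m _ hm2 => ?_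
      have : u / m = 0 := by
        rw [Nat.div_eq_zero_iff]
        rw [Finset.mem_Icc] at hm2
        omega
      rw [this]; simp
    rw [h1]
    symm
    refine sum_subset ?_ fun m hm1 hm2 => ?_
    · intro m hm; rw [Finset.mem_Ioc] at hm; rw [Finset.mem_Icc]; omega
    · rw [Finset.mem_Icc] at hm1
      rw [Finset.mem_Ioc] at hm2
      have : m ≤ U := by omega
      rw [hα0 m this]; simp
  have hblock : ∀ i ∈ range J, ∑ x ∈ R PP, ‖∑ m ∈ Finset.Ioc (2 ^ i * U) (2 ^ i * U + 2 ^ i * U),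
          ∑ k ∈ Finset.Icc 1 (u / m), (α m : ℂ) * (β k : ℂ) * hx x a s (m * k)‖
      ≤ 22 * s * (2 + Real.log N) * (A * B * E) := by
    intro i _
    set M := 2 ^ i * U with hM
    have hUM : U ≤ M := by
      calc U = 1 * U := (one_mul U).symm
        _ ≤ 2 ^ i * U := Nat.mul_le_mul_right U (Nat.one_le_two_pow)
    have hM1 : 1 ≤ M := hU.trans hUM
    have hRHS0 : 0 ≤ 22 * s * (2 + Real.log N) * (A * B * E) := by positivity
    by_cases hc1 : ∃ m, M < m ∧ m ≤ 2 * M ∧ α m ≠ 0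
    swap
    · have h1 : ∀ x ∈ R PP, ‖∑ m ∈ Finset.Ioc M (M + M),
          ∑ k ∈ Finset.Icc 1 (u / m), (α m : ℂ) * (β k : ℂ) * hx x a s (m * k)‖ = 0 := by
        intro x _
        rw [norm_eq_zero]
        refine sum_eq_zero fun m hm => ?_
        rw [Finset.mem_Ioc] at hm
        have : α m = 0 := by
          by_contra h
          exact hc1 ⟨m, hm.1, by omega, h⟩
        rw [this]; simp
      rw [sum_congr rfl h1]; simpa using hRHS0
    by_cases hc2 : ∃ k, 1 ≤ k ∧ k ≤ u / M ∧ β k ≠ 0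
    swap
    · have h1 : ∀ x ∈ R PP, ‖∑ m ∈ Finset.Ioc M (M + M),
          ∑ k ∈ Finset.Icc 1 (u / m), (α m : ℂ) * (β k : ℂ) * hx x a s (m * k)‖ = 0 := by
        intro x _
        rw [norm_eq_zero]
        refine sum_eq_zero fun m hm => sum_eq_zero fun k hk => ?_
        rw [Finset.mem_Ioc] at hm
        rw [Finset.mem_Icc] at hk
        have hle : u / m ≤ u / M := Nat.div_le_div_left hm.1.le (by omega)
        have : β k = 0 := by
          by_contra h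
          exact hc2 ⟨k, hk.1, hk.2.trans hle, h⟩
        rw [this]; simp
      rw [sum_congr rfl h1]; simpa using hRHS0
    have hTpos : 1 ≤ u / M := by
      obtain ⟨k, hk1, hk2, _⟩ := hc2
      exact hk1.trans hk2
    have hMu : M ≤ u := by
      by_contra h
      push Not at h
      rw [Nat.div_eq_of_lt h] at hTpos
      omega
    have hMN : M ≤ N := hMu.trans hu
    have hEb := hE M hUM hMN hc1 hc2
    have hbil := bilinear PP P hP hP1 (fun m => (α m : ℂ)) (fun k => (β k : ℂ)) s hs a M u hM1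
    have hTN : u / M ≤ N := (Nat.div_le_self u M).trans hu
    have hlog : Real.log (u / M : ℕ) ≤ Real.log N :=
      Real.log_le_log (by exact_mod_cast hTpos) (by exact_mod_cast hTN)
    have hlog0 : 0 ≤ Real.log (u / M : ℕ) := Real.log_natCast_nonneg _
    have hSA : ∑ m ∈ Finset.Ioc M (M + M), ‖(α m : ℂ)‖ ^ 2 ≤ M * A ^ 2 := by
      calc ∑ m ∈ Finset.Ioc M (M + M), ‖(α m : ℂ)‖ ^ 2 ≤ ∑ m ∈ Finset.Ioc M (M + M), A ^ 2 := by
            refine sum_le_sum fun m hm => ?_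
            rw [Finset.mem_Ioc] at hm
            rw [Complex.norm_real, Real.norm_eq_abs]
            exact pow_le_pow_left₀ (abs_nonneg _) (hα m (by omega)) 2
        _ = M * A ^ 2 := by
            rw [sum_const, Nat.card_Ioc, nsmul_eq_mul]; simp
    have hSB : ∑ k ∈ Finset.Icc 1 (u / M), ‖(β k : ℂ)‖ ^ 2 ≤ (u / M : ℕ) * B ^ 2 := by
      calc ∑ k ∈ Finset.Icc 1 (u / M), ‖(β k : ℂ)‖ ^ 2 ≤ ∑ k ∈ Finset.Icc 1 (u / M), B ^ 2 := by
            refine sum_le_sum fun k hk => ?_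
            rw [Finset.mem_Icc] at hk
            rw [Complex.norm_real, Real.norm_eq_abs]
            exact pow_le_pow_left₀ (abs_nonneg _) (hβ k hk.1 (hk.2.trans hTN)) 2
        _ = (u / M : ℕ) * B ^ 2 := by
            rw [sum_const, Nat.card_Icc, nsmul_eq_mul]; simp
    have hMT : (M:ℝ) * (u / M : ℕ) ≤ N := by
      have : M * (u / M) ≤ u := Nat.mul_div_le u M
      have h2 : M * (u / M) ≤ N := this.trans hu
      exact_mod_cast h2
    have hnum := num_bound M (u / M : ℕ) P N (by positivity) (by positivity) (by positivity) hMT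
    set T : ℕ := u / M
    have h5 : Real.sqrt ((M + (P:ℝ) ^ 2) * ∑ m ∈ Finset.Ioc M (M + M), ‖(α m : ℂ)‖ ^ 2)
        ≤ A * Real.sqrt ((M + (P:ℝ) ^ 2) * M) := by
      calc Real.sqrt ((M + (P:ℝ) ^ 2) * ∑ m ∈ Finset.Ioc M (M + M), ‖(α m : ℂ)‖ ^ 2)
          ≤ Real.sqrt (A ^ 2 * ((M + (P:ℝ) ^ 2) * M)) := by
            refine Real.sqrt_le_sqrt ?_
            calc (M + (P:ℝ) ^ 2) * ∑ m ∈ Finset.Ioc M (M + M), ‖(α m : ℂ)‖ ^ 2
                ≤ (M + (P:ℝ) ^ 2) * (M * A ^ 2) := mul_le_mul_of_nonneg_left hSA (by positivity)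
              _ = _ := by ring
        _ = A * Real.sqrt ((M + (P:ℝ) ^ 2) * M) := by
            rw [Real.sqrt_mul (by positivity), Real.sqrt_sq hA]
    have h6 : Real.sqrt ((T + (P:ℝ) ^ 2) * ∑ k ∈ Finset.Icc 1 T, ‖(β k : ℂ)‖ ^ 2)
        ≤ B * Real.sqrt ((T + (P:ℝ) ^ 2) * T) := by
      calc Real.sqrt ((T + (P:ℝ) ^ 2) * ∑ k ∈ Finset.Icc 1 T, ‖(β k : ℂ)‖ ^ 2)
          ≤ Real.sqrt (B ^ 2 * ((T + (P:ℝ) ^ 2) * T)) := by
            refine Real.sqrt_le_sqrt ?_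
            calc (T + (P:ℝ) ^ 2) * ∑ k ∈ Finset.Icc 1 T, ‖(β k : ℂ)‖ ^ 2
                ≤ (T + (P:ℝ) ^ 2) * (T * B ^ 2) := mul_le_mul_of_nonneg_left hSB (by positivity)
              _ = _ := by ring
        _ = B * Real.sqrt ((T + (P:ℝ) ^ 2) * T) := by
            rw [Real.sqrt_mul (by positivity), Real.sqrt_sq hB]
    have h7 : Real.sqrt ((M + (P:ℝ) ^ 2) * ∑ m ∈ Finset.Ioc M (M + M), ‖(α m : ℂ)‖ ^ 2)
        * Real.sqrt ((T + (P:ℝ) ^ 2) * ∑ k ∈ Finset.Icc 1 T, ‖(β k : ℂ)‖ ^ 2) ≤ A * B * E := by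
      calc _ ≤ (A * Real.sqrt ((M + (P:ℝ) ^ 2) * M)) * (B * Real.sqrt ((T + (P:ℝ) ^ 2) * T)) :=
            mul_le_mul h5 h6 (Real.sqrt_nonneg _) (by positivity)
        _ = A * B * (Real.sqrt ((M + (P:ℝ) ^ 2) * M) * Real.sqrt ((T + (P:ℝ) ^ 2) * T)) := by ring
        _ ≤ A * B * E := mul_le_mul_of_nonneg_left (hnum.trans hEb) (by positivity)
    have h8 : ∑ x ∈ R PP, ‖∑ m ∈ Finset.Ioc M (M + M),
          ∑ k ∈ Finset.Icc 1 (u / m), (α m : ℂ) * (β k : ℂ) * hx x a s (m * k)‖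
        = ∑ x ∈ R PP, ‖∑ m ∈ Finset.Ioc M (M + M), ∑ k ∈ Finset.Icc 1 (u / m),
        (α m : ℂ) * (β k : ℂ) * (ev x (m * k) * e (a * (m * k : ℕ) / s))‖ := rfl
    rw [h8]
    refine hbil.trans ?_
    refine mul_le_mul ?_ h7 (by positivity) (by positivity)
    refine mul_le_mul_of_nonneg_left ?_ (by positivity)
    linarith
  calc ∑ x ∈ R PP, ‖∑ m ∈ Finset.Icc 1 u, ∑ k ∈ Finset.Icc 1 (u / m), (α m : ℂ) * (β k : ℂ) * hx x a s (m * k)‖
      ≤ ∑ x ∈ R PP, ∑ i ∈ range J, ‖∑ m ∈ Finset.Ioc (2 ^ i * U) (2 ^ i * U + 2 ^ i * U),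
          ∑ k ∈ Finset.Icc 1 (u / m), (α m : ℂ) * (β k : ℂ) * hx x a s (m * k)‖ := by
        refine sum_le_sum fun x _ => ?_
        rw [hsplit x]
        exact norm_sum_le _ _
    _ = ∑ i ∈ range J, ∑ x ∈ R PP, ‖∑ m ∈ Finset.Ioc (2 ^ i * U) (2 ^ i * U + 2 ^ i * U),
          ∑ k ∈ Finset.Icc 1 (u / m), (α m : ℂ) * (β k : ℂ) * hx x a s (m * k)‖ := sum_comm
    _ ≤ ∑ i ∈ range J, 22 * s * (2 + Real.log N) * (A * B * E) := sum_le_sum hblock
    _ = J * (22 * s * (2 + Real.log N) * (A * B * E)) := by rw [sum_const, card_range, nsmul_eq_mul]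
    _ ≤ (2 * (2 + Real.log N)) * (22 * s * (2 + Real.log N) * (A * B * E)) :=
        mul_le_mul_of_nonneg_right hJr (by positivity)
    _ = _ := by ring

end Pool.Agent.Var35
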