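import Mathlib

/-! The additive exponential `e θ = exp (2 π i θ)` -/

set_option autoImplicit false

namespace Pool.Agent.Var35

open Finset Complex

noncomputable def e (θ : ℝ) : ℂ := Complex.exp ((2 * Real.pi * θ : ℝ) * Complex.I)

lemma e_add (a b : ℝ) : e (a + b) = e a * e b := by
  unfold e
  rw [← Complex.exp_add]
  congr 1
  push_cast
  ring

lemma e_zero : e 0 = 1 := by simp [e]

lemma norm_e (a : ℝ) : ‖e a‖ = 1 := by
  unfold e
  exact Complex.norm_exp_ofReal_mul_I _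

lemma e_ne_zero (a : ℝ) : e a ≠ 0 := by
  unfold e; exact Complex.exp_ne_zero _

lemma e_int (n : ℤ) : e (n : ℝ) = 1 := by
  unfold e
  rw [Complex.exp_eq_one_iff]
  exact ⟨n, by push_cast; ring⟩

lemma e_nat (n : ℕ) : e (n : ℝ) = 1 := by
  have := e_int n
  simpa using this

lemma e_add_int (a : ℝ) (n : ℤ) : e (a + n) = e a := by
  rw [e_add, e_int, mul_one]

lemma e_neg (a : ℝ) : e (-a) = (starRingEnd ℂ) (e a) := by
  unfold e
  rw [← Complex.exp_conj]
  congr 1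
  rw [map_mul, Complex.conj_ofReal, Complex.conj_I]
  push_cast
  ring

lemma e_neg_mul (a : ℝ) : e (-a) * e a = 1 := by
  rw [← e_add]; simp [e_zero]

lemma e_sub (a b : ℝ) : e (a - b) = e a * (starRingEnd ℂ) (e b) := by
  rw [sub_eq_add_neg, e_add, e_neg]

lemma e_nat_mul (n : ℕ) (a : ℝ) : e (n * a) = e a ^ n := by
  induction n with
  | zero => simp [e_zero]
  | succ n ih =>
      push_cast
      rw [add_mul, one_mul, e_add, ih, pow_succ]

lemma conj_mul_e (a : ℝ) : (starRingEnd ℂ) (e a) * e a = 1 := by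
  rw [← e_neg, e_neg_mul]

lemma e_re (a : ℝ) : (e a).re = Real.cos (2 * Real.pi * a) := by
  unfold e
  rw [Complex.exp_ofReal_mul_I_re]

lemma norm_e_sub_one_le (a : ℝ) : ‖e a - 1‖ ≤ 2 * Real.pi * |a| := by
  unfold e
  have h := Real.norm_exp_I_mul_ofReal_sub_one_le (x := 2 * Real.pi * a)
  rw [mul_comm] at h
  refine h.trans ?_
  rw [Real.norm_eq_abs, abs_mul, abs_of_pos (by positivity : (0:ℝ) < 2 * Real.pi)]

lemma norm_e_sub_one_eq (a : ℝ) : ‖e a - 1‖ = 2 * |Real.sin (Real.pi * a)| := by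
  unfold e
  have h := Complex.norm_exp_I_mul_ofReal_sub_one (2 * Real.pi * a)
  rw [mul_comm] at h
  rw [h, norm_mul]
  simp only [Real.norm_eq_abs, Nat.abs_ofNat]
  congr 2
  ring_nf

lemma norm_e_sub_one_ge {a : ℝ} (ha : |a| ≤ 1/2) : 4 * |a| ≤ ‖e a - 1‖ := by
  rw [norm_e_sub_one_eq]
  have hpi := Real.pi_pos
  have key : ∀ x : ℝ, 0 ≤ x → x ≤ 1/2 → 2 * x ≤ Real.sin (Real.pi * x) := by
    intro x hx0 hx1
    have h := Real.mul_le_sin (x := Real.pi * x) (by positivity) (by nlinarith)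
    have h2 : 2 / Real.pi * (Real.pi * x) = 2 * x := by field_simp
    linarith [h2 ▸ h]
  have h1 : |Real.sin (Real.pi * a)| = |Real.sin (Real.pi * |a|)| := by
    rcases abs_cases a with ⟨h, _⟩ | ⟨h, _⟩
    · rw [h]
    · rw [h, mul_neg, Real.sin_neg, abs_neg]
  rw [h1]
  have h2 := key |a| (abs_nonneg a) ha
  have h3 := le_abs_self (Real.sin (Real.pi * |a|))
  linarith

/-- Geometric sum bound. -/
lemma geom_bound {a : ℝ} (ha0 : 0 < |a|) (ha : |a| ≤ 1/2) (L : ℕ) :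
    ‖∑ j ∈ range L, e (j * a)‖ ≤ 1 / (2 * |a|) := by
  have h1 : (∑ j ∈ range L, e (j * a)) * (e a - 1) = e a ^ L - 1 := by
    have := geom_sum_mul (e a) L
    rw [← this]
    congr 1
    exact Finset.sum_congr rfl fun j _ => e_nat_mul j a
  have h2 : ‖∑ j ∈ range L, e (j * a)‖ * ‖e a - 1‖ ≤ 2 := by
    rw [← norm_mul, h1]
    calc ‖e a ^ L - 1‖ ≤ ‖e a ^ L‖ + ‖(1:ℂ)‖ := norm_sub_le _ _
      _ = 2 := by rw [norm_pow, norm_e]; norm_num
  have h3 := norm_e_sub_one_ge ha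
  have h4 : ‖∑ j ∈ range L, e (j * a)‖ * (4 * |a|) ≤ 2 :=
    le_trans (mul_le_mul_of_nonneg_left h3 (norm_nonneg _)) h2
  rw [le_div_iff₀ (by positivity)]
  linarith

lemma e_re_ge {a : ℝ} (h0 : 0 ≤ a) (h1 : a ≤ 1/8) : 1/2 ≤ (e a).re := by
  rw [e_re]
  have h := Real.one_sub_sq_div_two_le_cos (x := 2 * Real.pi * a)
  have hpi : Real.pi < 3.15 := Real.pi_lt_d2
  have hpi0 := Real.pi_pos
  have h2 : 2 * Real.pi * a ≤ 1 := by nlinarith
  have h3 : 0 ≤ 2 * Real.pi * a := by positivity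
  nlinarith

end Pool.Agent.Var35
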