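import Pool.Agent.Lib_helper35.Var.Core2

/-! Choice of parameters and the final lower bound -/

set_option autoImplicit false

namespace Pool.Agent.Var35

open Finset Filter
open scoped ArithmeticFunction

lemma ev_log (k : ℕ) (s C : ℝ) (hs : 0 < s) (hC : 0 < C) :
    ∀ᶠ x : ℝ in atTop, C * (Real.log x) ^ k ≤ x ^ s := by
  have h := (isLittleO_log_rpow_rpow_atTop (s := s) (k:ℝ) hs).bound (c := 1 / C) (by positivity)
  filter_upwards [h, eventually_ge_atTop (1:ℝ)] with x hx hx1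
  rw [Real.rpow_natCast, Real.norm_of_nonneg (pow_nonneg (Real.log_nonneg hx1) k),
    Real.norm_of_nonneg (Real.rpow_nonneg (by linarith) s)] at hx
  rw [one_div, inv_mul_eq_div, le_div_iff₀ hC] at hx
  linarith

/-- monomial bookkeeping -/
lemma F_bound (a z N P2 U sU sN sP : ℝ) (hz : 1 ≤ z) (ha : z ^ 10 ≤ a) (hN : N ≤ a ^ 6 * z ^ 60)
    (hP0 : 0 ≤ P2) (hP : P2 ≤ 2 * a ^ 2 * z ^ 4) (hU0 : 0 ≤ U) (hU : U ≤ 2 * a ^ 2 * z ^ 16)
    (hsU : a * z ^ 8 ≤ sU) (hsN : sN ≤ a ^ 3 * z ^ 30) (hsP0 : 0 ≤ sP) (hsP : sP ≤ 2 * a * z ^ 2) :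
    z ^ 3 / a * (N + N * P2 / sU + sN * P2 ^ 2 + sN * P2 * U + U * P2 ^ 2 * sP) ≤ 27 * (a ^ 6 * z ^ 60) / z := by
  have hz0 : 0 < z := by linarith
  have hz10 : 1 ≤ z ^ 10 := one_le_pow₀ hz
  have ha0 : 0 < a := by linarith
  have ha1 : 1 ≤ a := by linarith
  have hsU0 : 0 < sU := lt_of_lt_of_le (by positivity) hsU
  have t2 : N * P2 / sU ≤ 2 * a ^ 7 * z ^ 56 := by
    calc N * P2 / sU ≤ (a ^ 6 * z ^ 60) * (2 * a ^ 2 * z ^ 4) / (a * z ^ 8) := by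
          refine div_le_div₀ (by positivity) (mul_le_mul hN hP hP0 (by positivity)) (by positivity) hsU
      _ = 2 * a ^ 7 * z ^ 56 := by field_simp
  have t3 : sN * P2 ^ 2 ≤ 4 * a ^ 7 * z ^ 38 := by
    calc sN * P2 ^ 2 ≤ (a ^ 3 * z ^ 30) * (2 * a ^ 2 * z ^ 4) ^ 2 :=
          mul_le_mul hsN (pow_le_pow_left₀ hP0 hP 2) (by positivity) (by positivity)
      _ = _ := by ring
  have t4 : sN * P2 * U ≤ 4 * a ^ 7 * z ^ 50 := by
    calc sN * P2 * U ≤ (a ^ 3 * z ^ 30) * (2 * a ^ 2 * z ^ 4) * (2 * a ^ 2 * z ^ 16) :=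
          mul_le_mul (mul_le_mul hsN hP hP0 (by positivity)) hU hU0 (by positivity)
      _ = _ := by ring
  have t5 : U * P2 ^ 2 * sP ≤ 16 * a ^ 7 * z ^ 26 := by
    calc U * P2 ^ 2 * sP ≤ (2 * a ^ 2 * z ^ 16) * (2 * a ^ 2 * z ^ 4) ^ 2 * (2 * a * z ^ 2) :=
          mul_le_mul (mul_le_mul hU (pow_le_pow_left₀ hP0 hP 2) (by positivity) (by positivity)) hsP hsP0 (by positivity)
      _ = _ := by ring
  have hz' : ∀ m n : ℕ, m ≤ n → z ^ m ≤ z ^ n := fun m n hmn => pow_le_pow_right₀ hz hmn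
  have u1 : a ^ 6 * z ^ 60 ≤ a ^ 7 * z ^ 56 := by
    have h1 : z ^ 4 ≤ a := (hz' 4 10 (by norm_num)).trans ha
    calc a ^ 6 * z ^ 60 = (a ^ 6 * z ^ 56) * z ^ 4 := by ring
      _ ≤ (a ^ 6 * z ^ 56) * a := mul_le_mul_of_nonneg_left h1 (by positivity)
      _ = _ := by ring
  have u3 : a ^ 7 * z ^ 38 ≤ a ^ 7 * z ^ 56 := mul_le_mul_of_nonneg_left (hz' _ _ (by norm_num)) (by positivity)
  have u4 : a ^ 7 * z ^ 50 ≤ a ^ 7 * z ^ 56 := mul_le_mul_of_nonneg_left (hz' _ _ (by norm_num)) (by positivity)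
  have u5 : a ^ 7 * z ^ 26 ≤ a ^ 7 * z ^ 56 := mul_le_mul_of_nonneg_left (hz' _ _ (by norm_num)) (by positivity)
  have hsum : N + N * P2 / sU + sN * P2 ^ 2 + sN * P2 * U + U * P2 ^ 2 * sP ≤ 27 * (a ^ 7 * z ^ 56) := by
    have e1 : 2 * a ^ 7 * z ^ 56 = 2 * (a ^ 7 * z ^ 56) := by ring
    have e2 : 4 * a ^ 7 * z ^ 38 = 4 * (a ^ 7 * z ^ 38) := by ring
    have e3 : 4 * a ^ 7 * z ^ 50 = 4 * (a ^ 7 * z ^ 50) := by ring
    have e4 : 16 * a ^ 7 * z ^ 26 = 16 * (a ^ 7 * z ^ 26) := by ring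
    rw [e1] at t2; rw [e2] at t3; rw [e3] at t4; rw [e4] at t5
    linarith
  calc z ^ 3 / a * (N + N * P2 / sU + sN * P2 ^ 2 + sN * P2 * U + U * P2 ^ 2 * sP)
      ≤ z ^ 3 / a * (27 * (a ^ 7 * z ^ 56)) := mul_le_mul_of_nonneg_left hsum (by positivity)
    _ = 27 * (a ^ 6 * z ^ 60) / z := by field_simp

lemma hfinal_num (x z a lx S P2 sP1 q φ B Em F LL ε : ℝ) (hx0 : 0 < x)
    (hxaz : x = a ^ 6 * z ^ 60) (hz1 : 1 ≤ z) (ha1 : 1 ≤ a) (hlx2 : 2 ≤ lx) (hS0 : 0 ≤ S) (hSz : S ≤ z)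
    (hP20 : 0 ≤ P2) (hP2b : P2 ≤ 2 * a ^ 2 * z ^ 4) (hsqP1 : a ≤ sP1) (hq0 : 0 < q) (hq2 : q ≤ x)
    (hφ0 : 0 < φ) (hqφ : q ≤ (2 * lx + 1) * φ) (hFb : z ^ 3 / a * F ≤ 27 * x / z)
    (hB0 : 0 ≤ B) (hB : B ≤ 132 * z * (2 + lx) ^ 3 * F) (hEm : Em = 6 * lx ^ 2)
    (g1 : 14300 * 256 * 8 * 25600 * lx ^ 2 ≤ z * ε ^ 2) (hLL : ε ^ 2 * lx / 25600 ≤ LL) :
    (2 / sP1) * (S ^ 2 * (2 * B + P2 ^ 2 * Em)) + S ^ 2 * P2 * (Em + (x / φ) * (S * P2 * (q / (8 * x))) ^ 2)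
      ≤ (x / 256) * LL := by
  have hz0 : 0 < z := by linarith
  have ha0 : 0 < a := by linarith
  have hlx0 : 0 < lx := by linarith
  have hsP0 : 0 < sP1 := by linarith
  have hzp : ∀ m n : ℕ, m ≤ n → z ^ m ≤ z ^ n := fun m n hmn => pow_le_pow_right₀ hz1 hmn
  have hap : ∀ m n : ℕ, m ≤ n → a ^ m ≤ a ^ n := fun m n hmn => pow_le_pow_right₀ ha1 hmn
  have hEm0 : 0 ≤ Em := by rw [hEm]; positivity
  obtain ⟨Lm, hLm⟩ : ∃ Lm : ℝ, Lm = 2 + lx := ⟨_, rfl⟩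
  rw [← hLm] at hB
  have hLm4 : 4 ≤ Lm := by linarith
  have hxz0 : 0 ≤ x / z := by positivity
  have hza : ∀ m n : ℕ, m ≤ 6 → n ≤ 59 → a ^ m * z ^ n ≤ x / z := by
    intro m n hm hn
    rw [le_div_iff₀ hz0]
    calc a ^ m * z ^ n * z = a ^ m * z ^ (n + 1) := by ring
      _ ≤ a ^ 6 * z ^ 60 := mul_le_mul (hap _ _ hm) (hzp _ _ (by omega)) (by positivity) (by positivity)
      _ = x := hxaz.symm
  have e1' : 2 / sP1 ≤ 2 / a := div_le_div_of_nonneg_left (by norm_num) ha0 hsqP1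
  have e3' : S ^ 2 ≤ z ^ 2 := pow_le_pow_left₀ hS0 hSz 2
  have T1 : (2 / sP1) * (S ^ 2 * (2 * B)) ≤ 14256 * Lm ^ 3 * (x / z) := by
    calc (2 / sP1) * (S ^ 2 * (2 * B)) ≤ (2 / a) * (z ^ 2 * (2 * (132 * z * Lm ^ 3 * F))) := by
          refine mul_le_mul e1' (mul_le_mul e3' (by linarith) (by positivity) (by positivity)) (by positivity) (by positivity)
      _ = 528 * Lm ^ 3 * (z ^ 3 / a * F) := by ring
      _ ≤ 528 * Lm ^ 3 * (27 * x / z) := mul_le_mul_of_nonneg_left hFb (by positivity)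
      _ = 14256 * Lm ^ 3 * (x / z) := by ring
  have T2 : (2 / sP1) * (S ^ 2 * (P2 ^ 2 * Em)) ≤ 8 * Em * (x / z) := by
    have e4 : P2 ^ 2 ≤ (2 * a ^ 2 * z ^ 4) ^ 2 := pow_le_pow_left₀ hP20 hP2b 2
    calc (2 / sP1) * (S ^ 2 * (P2 ^ 2 * Em)) ≤ (2 / a) * (z ^ 2 * ((2 * a ^ 2 * z ^ 4) ^ 2 * Em)) := by
          refine mul_le_mul e1' (mul_le_mul e3' (mul_le_mul_of_nonneg_right e4 hEm0) (by positivity) (by positivity)) (by positivity) (by positivity)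
      _ = 8 * Em * (a ^ 3 * z ^ 10) := by field_simp; ring
      _ ≤ 8 * Em * (x / z) := mul_le_mul_of_nonneg_left (hza 3 10 (by norm_num) (by norm_num)) (by positivity)
  have T3 : S ^ 2 * P2 * Em ≤ 2 * Em * (x / z) := by
    calc S ^ 2 * P2 * Em ≤ z ^ 2 * (2 * a ^ 2 * z ^ 4) * Em :=
          mul_le_mul_of_nonneg_right (mul_le_mul e3' hP2b (by positivity) (by positivity)) hEm0
      _ = 2 * Em * (a ^ 2 * z ^ 6) := by ring
      _ ≤ 2 * Em * (x / z) := mul_le_mul_of_nonneg_left (hza 2 6 (by norm_num) (by norm_num)) (by positivity)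
  have T4 : S ^ 2 * P2 * ((x / φ) * (S * P2 * (q / (8 * x))) ^ 2) ≤ (2 * lx + 1) * (x / z) := by
    have e2 : q / φ ≤ 2 * lx + 1 := by
      rw [div_le_iff₀ hφ0]; exact hqφ
    have e3 : q / x ≤ 1 := by rw [div_le_one hx0]; exact hq2
    have e5 : S ^ 4 ≤ z ^ 4 := pow_le_pow_left₀ hS0 hSz 4
    have e6 : P2 ^ 3 ≤ (2 * a ^ 2 * z ^ 4) ^ 3 := pow_le_pow_left₀ hP20 hP2b 3
    calc S ^ 2 * P2 * ((x / φ) * (S * P2 * (q / (8 * x))) ^ 2)
        = (S ^ 4 * P2 ^ 3) * (q / φ) * (q / x) / 64 := by field_simp; ring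
      _ ≤ (z ^ 4 * (2 * a ^ 2 * z ^ 4) ^ 3) * (2 * lx + 1) * 1 / 64 := by
          refine div_le_div_of_nonneg_right ?_ (by norm_num)
          refine mul_le_mul ?_ e3 (by positivity) (by positivity)
          exact mul_le_mul (mul_le_mul e5 e6 (by positivity) (by positivity)) e2 (by positivity) (by positivity)
      _ = (2 * lx + 1) * (a ^ 6 * z ^ 16) / 8 := by ring
      _ ≤ (2 * lx + 1) * (a ^ 6 * z ^ 16) := by
          have : 0 ≤ (2 * lx + 1) * (a ^ 6 * z ^ 16) := by positivity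
          linarith only [this]
      _ ≤ (2 * lx + 1) * (x / z) := mul_le_mul_of_nonneg_left (hza 6 16 (by norm_num) (by norm_num)) (by positivity)
  have hLm3 : 10 * Em + (2 * lx + 1) ≤ 44 * Lm ^ 3 := by
    have e1 : lx ≤ Lm := by linarith
    have e2 : lx ^ 2 ≤ Lm ^ 2 := pow_le_pow_left₀ hlx0.le e1 2
    have e3 : 4 * Lm ^ 2 ≤ Lm ^ 3 := by
      have : Lm ^ 3 = Lm * Lm ^ 2 := by ring
      rw [this]
      exact mul_le_mul_of_nonneg_right hLm4 (by positivity)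
    have e4 : 4 * Lm ≤ Lm ^ 2 := by
      rw [pow_two]; exact mul_le_mul_of_nonneg_right hLm4 (by linarith)
    rw [hEm]
    linarith only [e1, e2, e3, e4, hLm4]
  have e1 : (2 / sP1) * (S ^ 2 * (2 * B + P2 ^ 2 * Em))
        + S ^ 2 * P2 * (Em + (x / φ) * (S * P2 * (q / (8 * x))) ^ 2)
        = (2 / sP1) * (S ^ 2 * (2 * B)) + (2 / sP1) * (S ^ 2 * (P2 ^ 2 * Em))
          + S ^ 2 * P2 * Em + S ^ 2 * P2 * ((x / φ) * (S * P2 * (q / (8 * x))) ^ 2) := by ring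
  rw [e1]
  have e2 : 14256 * Lm ^ 3 * (x / z) + 8 * Em * (x / z) + 2 * Em * (x / z) + (2 * lx + 1) * (x / z)
        ≤ 14300 * Lm ^ 3 * (x / z) := by
    have : 14256 * Lm ^ 3 * (x / z) + 8 * Em * (x / z) + 2 * Em * (x / z) + (2 * lx + 1) * (x / z)
          = (14256 * Lm ^ 3 + (10 * Em + (2 * lx + 1))) * (x / z) := by ring
    rw [this]
    refine mul_le_mul_of_nonneg_right ?_ hxz0
    linarith only [hLm3]
  have e3 : 14300 * Lm ^ 3 * (x / z) ≤ (x / 256) * LL := by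
    have f1 : Lm ≤ 2 * lx := by linarith only [hLm, hlx2]
    have f2 : Lm ^ 3 ≤ (2 * lx) ^ 3 := pow_le_pow_left₀ (by linarith) f1 3
    have f3 : 14300 * 256 * Lm ^ 3 ≤ z * LL := by
      calc 14300 * 256 * Lm ^ 3 ≤ 14300 * 256 * (2 * lx) ^ 3 := mul_le_mul_of_nonneg_left f2 (by norm_num)
          _ = (14300 * 256 * 8 * 25600 * lx ^ 2) * lx / 25600 := by ring
          _ ≤ (z * ε ^ 2) * lx / 25600 := by
              refine div_le_div_of_nonneg_right ?_ (by norm_num)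
              exact mul_le_mul_of_nonneg_right g1 hlx0.le
          _ = z * (ε ^ 2 * lx / 25600) := by ring
          _ ≤ z * LL := mul_le_mul_of_nonneg_left hLL hz0.le
    have f5 : 14300 * Lm ^ 3 * (x / z) = (x / (256 * z)) * (14300 * 256 * Lm ^ 3) := by field_simp
    rw [f5]
    calc (x / (256 * z)) * (14300 * 256 * Lm ^ 3) ≤ (x / (256 * z)) * (z * LL) :=
            mul_le_mul_of_nonneg_left f3 (by positivity)
        _ = (x / 256) * LL := by field_simp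
  linarith only [T1, T2, T3, T4, e2, e3]


lemma Ls_lower (ε lx z : ℝ) (S : ℕ) (hS1 : 1 ≤ S) (hz0 : 0 < z) (hSlow : z / 2 ≤ S) (hlogz : Real.log z = ε / 40 * lx)
    (hlogε : 100 ≤ ε * lx) : ε * lx / 160 ≤ ∑ s ∈ Ss S, 1 / (Nat.totient s : ℝ) := by
  have e1 := sum_sqfree S hS1
  have e2 : Real.log z - Real.log 2 ≤ Real.log S := by
    rw [← Real.log_div hz0.ne' (by norm_num)]
    exact Real.log_le_log (by positivity) hSlow
  rw [hlogz] at e2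
  have e3 := Real.log_two_lt_d9
  have e4 : ∑ s ∈ Ss S, 1 / (Nat.totient s : ℝ) = ∑ s ∈ (Finset.Icc 1 S).filter Squarefree, 1 / (Nat.totient s : ℝ) := rfl
  rw [e4]
  linarith

lemma L_lower (ε x a : ℝ) (P1 P2 J q y0 : ℕ) (h0 : 0 < ε) (hlx0 : 0 < Real.log x) (ha0 : 0 < a)
    (hy0 : ∀ y J : ℕ, y0 ≤ y →
      (J:ℝ) ≤ 4 * Real.log ((4 ^ J * y : ℕ) : ℝ) * ∑ p ∈ (Finset.Ioc y (4 ^ J * y)).filter Nat.Prime, 1 / (p:ℝ))
    (hP1y : y0 ≤ P1) (hP2 : P2 = 4 ^ J * P1) (hP21 : 1 ≤ P2) (hP2x : (P2:ℝ) ≤ x)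
    (hJlow : ε * Real.log x / 20 ≤ J) (hP1a : a ^ 2 ≤ P1) (hq0 : 0 < q) (hq2 : (q:ℝ) ≤ x)
    (g3 : 320 / ε * Real.log x ≤ a ^ 2) :
    ε / 160 ≤ ∑ p ∈ (Finset.Ioc P1 P2).filter (fun p => p.Prime ∧ ¬ p ∣ q), 1 / (p:ℝ) := by
  have e1 := hy0 P1 J hP1y
  rw [← hP2] at e1
  obtain ⟨T, hT⟩ : ∃ T : ℝ, T = ∑ p ∈ (Finset.Ioc P1 P2).filter Nat.Prime, 1 / (p:ℝ) := ⟨_, rfl⟩
  obtain ⟨L, hL⟩ : ∃ L : ℝ, L = ∑ p ∈ (Finset.Ioc P1 P2).filter (fun p => p.Prime ∧ ¬ p ∣ q), 1 / (p:ℝ) := ⟨_, rfl⟩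
  rw [← hT] at e1
  rw [← hL]
  have hT0 : 0 ≤ T := by rw [hT]; exact sum_nonneg fun _ _ => by positivity
  have e2 : Real.log P2 ≤ Real.log x := Real.log_le_log (by exact_mod_cast hP21) hP2x
  have e3 : ε / 80 ≤ T := by
    have : ε * Real.log x / 20 ≤ 4 * Real.log x * T := by
      calc ε * Real.log x / 20 ≤ J := hJlow
        _ ≤ 4 * Real.log P2 * T := e1
        _ ≤ 4 * Real.log x * T := mul_le_mul_of_nonneg_right (by linarith only [e2]) hT0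
    have h2 : Real.log x * (ε / 80) ≤ Real.log x * T := by linarith only [this]
    exact le_of_mul_le_mul_left h2 hlx0
  have e4 : T ≤ L + ∑ p ∈ (Finset.Ioc P1 P2).filter (fun p => p.Prime ∧ p ∣ q), 1 / (p:ℝ) := by
    rw [hT, hL, sum_filter, sum_filter, sum_filter, ← sum_add_distrib]
    refine sum_le_sum fun p _ => ?_
    have hpn : (0:ℝ) ≤ 1 / (p:ℝ) := by positivity
    by_cases hpp : p.Prime
    · by_cases hpq : p ∣ q
      · rw [if_pos hpp, if_neg (fun h => h.2 hpq), if_pos ⟨hpp, hpq⟩, zero_add]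
      · rw [if_pos hpp, if_pos ⟨hpp, hpq⟩, if_neg (fun h => hpq h.2), add_zero]
    · rw [if_neg hpp, if_neg (fun h => hpp h.1), if_neg (fun h => hpp h.1), add_zero]
  have e5 : ∑ p ∈ (Finset.Ioc P1 P2).filter (fun p => p.Prime ∧ p ∣ q), 1 / (p:ℝ) ≤ ε / 160 := by
    calc ∑ p ∈ (Finset.Ioc P1 P2).filter (fun p => p.Prime ∧ p ∣ q), 1 / (p:ℝ)
        ≤ ∑ p ∈ (Finset.Ioc P1 P2).filter (fun p => p.Prime ∧ p ∣ q), 1 / (a ^ 2) := by
          refine sum_le_sum fun p hp => ?_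
          rw [mem_filter, Finset.mem_Ioc] at hp
          refine one_div_le_one_div_of_le (by positivity) (hP1a.trans ?_)
          exact_mod_cast hp.1.1.le
      _ = (((Finset.Ioc P1 P2).filter (fun p => p.Prime ∧ p ∣ q)).card : ℝ) * (1 / a ^ 2) := by
          rw [sum_const, nsmul_eq_mul]
      _ ≤ (2 * Real.log x) * (1 / a ^ 2) := by
          refine mul_le_mul_of_nonneg_right ?_ (by positivity)
          have f1 : (Finset.Ioc P1 P2).filter (fun p => p.Prime ∧ p ∣ q) ⊆ q.primeFactors := by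
            intro p hp
            rw [mem_filter] at hp
            exact Nat.mem_primeFactors.mpr ⟨hp.2.1, hp.2.2, hq0.ne'⟩
          have f2 : (((Finset.Ioc P1 P2).filter (fun p => p.Prime ∧ p ∣ q)).card : ℝ) ≤ q.primeFactors.card := by
            exact_mod_cast card_le_card f1
          have f3 := omega_le q hq0
          have hq0r : (0:ℝ) < q := by exact_mod_cast hq0
          have f4 : Real.log q ≤ Real.log x := Real.log_le_log hq0r hq2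
          linarith only [f2, f3, f4]
      _ ≤ ε / 160 := by
          rw [mul_one_div, div_le_iff₀ (by positivity)]
          rw [div_mul_eq_mul_div, div_le_iff₀ h0] at g3
          linarith only [g3]
  linarith only [e3, e4, e5]

/-- exponent bookkeeping for the parameters -/
lemma params (ε x z a : ℝ) (h0 : 0 < ε) (h1 : ε ≤ 1/3) (hx : 1 ≤ x) (hz : z = x ^ (ε/40))
    (ha : a = x ^ ((1/3 - ε/2) / 2)) :
    x = a ^ 6 * z ^ 60 ∧ z ^ 10 ≤ a ∧ x ^ ((2:ℝ)/3 + ε) = a ^ 4 * z ^ 80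
      ∧ z ^ 4 = Real.exp (ε / 10 * Real.log x) ∧ Real.log z = ε / 40 * Real.log x
      ∧ x ^ (2 * ((1/3 - ε/2) / 2)) = a ^ 2 := by
  have hx0 : 0 < x := by linarith
  refine ⟨?_, ?_, ?_, ?_, ?_, ?_⟩
  · rw [ha, hz, ← Real.rpow_natCast, ← Real.rpow_natCast, ← Real.rpow_mul hx0.le, ← Real.rpow_mul hx0.le, ← Real.rpow_add hx0]
    have : (1 / 3 - ε / 2) / 2 * ((6:ℕ):ℝ) + ε / 40 * ((60:ℕ):ℝ) = 1 := by push_cast; ring
    rw [this, Real.rpow_one]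
  · rw [ha, hz, ← Real.rpow_natCast, ← Real.rpow_mul hx0.le]
    refine Real.rpow_le_rpow_of_exponent_le hx ?_
    push_cast; linarith
  · rw [ha, hz, ← Real.rpow_natCast, ← Real.rpow_natCast, ← Real.rpow_mul hx0.le, ← Real.rpow_mul hx0.le, ← Real.rpow_add hx0]
    congr 1
    push_cast; ring
  · rw [hz, ← Real.rpow_natCast, ← Real.rpow_mul hx0.le, Real.rpow_def_of_pos hx0]
    congr 1
    push_cast; ring
  · rw [hz, Real.log_rpow hx0]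
  · rw [ha, ← Real.rpow_natCast, ← Real.rpow_mul hx0.le]
    congr 1
    push_cast; ring

lemma J_bounds (ε x z : ℝ) (J : ℕ) (hJ : J = ⌊ε / 10 * Real.log x / Real.log 4⌋₊)
    (hlogε : 100 ≤ ε * Real.log x) (hz4 : z ^ 4 = Real.exp (ε / 10 * Real.log x)) :
    (4:ℝ) ^ J ≤ z ^ 4 ∧ ε * Real.log x / 20 ≤ J := by
  have hl4 : Real.log 4 = 2 * Real.log 2 := by
    rw [show (4:ℝ) = 2 ^ 2 by norm_num, Real.log_pow]; norm_num
  have hl4a : Real.log 4 ≤ 1.4 := by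
    rw [hl4]; have := Real.log_two_lt_d9; linarith
  have hl4b : 0 < Real.log 4 := Real.log_pos (by norm_num)
  have hnn : 0 ≤ ε / 10 * Real.log x / Real.log 4 := by
    refine div_nonneg ?_ hl4b.le
    linarith
  constructor
  · rw [hz4, ← Real.log_le_iff_le_exp (by positivity), Real.log_pow]
    have := Nat.floor_le (a := ε / 10 * Real.log x / Real.log 4) hnn
    rw [← hJ] at this
    rwa [le_div_iff₀ hl4b] at this
  · have e1 := Nat.lt_floor_add_one (ε / 10 * Real.log x / Real.log 4)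
    rw [← hJ] at e1
    have e2 : ε * Real.log x / 14 ≤ ε / 10 * Real.log x / Real.log 4 := by
      rw [le_div_iff₀ hl4b]
      have : ε * Real.log x / 14 * Real.log 4 ≤ ε * Real.log x / 14 * 1.4 :=
        mul_le_mul_of_nonneg_left hl4a (by linarith)
      linarith
    linarith


lemma sizes (x z a : ℝ) (S P1 U J P2 q : ℕ) (hx1 : 1 ≤ x) (hz2 : 2 ≤ z) (ha1 : 1 ≤ a)
    (hxaz : x = a ^ 6 * z ^ 60) (haz : z ^ 10 ≤ a) (hqaz : a ^ 4 * z ^ 80 ≤ q) (hS : S = ⌊z⌋₊)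
    (hP1 : P1 = ⌈a ^ 2⌉₊) (hU : U = ⌈a ^ 2 * z ^ 16⌉₊) (hP2 : P2 = 4 ^ J * P1) (h4J : (4:ℝ) ^ J ≤ z ^ 4) :
    (1 ≤ S ∧ (S:ℝ) ≤ z ∧ z / 2 ≤ S) ∧ (1 ≤ P1 ∧ a ^ 2 ≤ P1 ∧ (P1:ℝ) ≤ 2 * a ^ 2) ∧
    (1 ≤ U ∧ a ^ 2 * z ^ 16 ≤ U ∧ (U:ℝ) ≤ 2 * a ^ 2 * z ^ 16) ∧
    (1 ≤ P2 ∧ (P2:ℝ) ≤ 2 * a ^ 2 * z ^ 4 ∧ (P2:ℝ) ≤ x) ∧
    (S:ℝ) ≤ x ∧ S ≤ P1 ∧ ((P2:ℝ) * S) ^ 2 < 8 * x ∧ 26 * (S:ℝ) * x ≤ P1 * q ∧ 8 * x * (8 * S + 1) ≤ P1 * q := by
  have hx0 : 0 < x := by linarith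
  have hz1 : 1 ≤ z := by linarith
  have hz0 : 0 < z := by linarith
  have ha0 : 0 < a := by linarith
  have hzp : ∀ m n : ℕ, m ≤ n → z ^ m ≤ z ^ n := fun m n hmn => pow_le_pow_right₀ hz1 hmn
  have hap : ∀ m n : ℕ, m ≤ n → a ^ m ≤ a ^ n := fun m n hmn => pow_le_pow_right₀ ha1 hmn
  have hap1 : ∀ n : ℕ, 1 ≤ a ^ n := fun n => one_le_pow₀ ha1
  have hzp1 : ∀ n : ℕ, 1 ≤ z ^ n := fun n => one_le_pow₀ hz1
  have hSz : (S:ℝ) ≤ z := by rw [hS]; exact Nat.floor_le hz0.le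
  have hSz2 : z < S + 1 := by rw [hS]; exact Nat.lt_floor_add_one z
  have hS1 : 1 ≤ S := by rw [hS, Nat.one_le_floor_iff]; exact hz1
  have hS1r : (1:ℝ) ≤ S := by exact_mod_cast hS1
  have hSlow : z / 2 ≤ S := by linarith only [hSz2, hS1r]
  have hP1a : a ^ 2 ≤ P1 := by rw [hP1]; exact Nat.le_ceil _
  have hP1b : (P1:ℝ) ≤ 2 * a ^ 2 := by
    have e := Nat.ceil_lt_add_one (a := a ^ 2) (by positivity)
    rw [← hP1] at e
    have := hap1 2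
    linarith only [e, this]
  have hP11 : 1 ≤ P1 := by
    have : (1:ℝ) ≤ P1 := (hap1 2).trans hP1a
    exact_mod_cast this
  have hUa : a ^ 2 * z ^ 16 ≤ U := by rw [hU]; exact Nat.le_ceil _
  have e2 : 1 ≤ a ^ 2 * z ^ 16 := one_le_mul_of_one_le_of_one_le (hap1 2) (hzp1 16)
  have hUb : (U:ℝ) ≤ 2 * a ^ 2 * z ^ 16 := by
    have e1 := Nat.ceil_lt_add_one (a := a ^ 2 * z ^ 16) (by positivity)
    rw [← hU] at e1
    linarith only [e1, e2]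
  have hU1 : 1 ≤ U := by
    have : (1:ℝ) ≤ U := e2.trans hUa
    exact_mod_cast this
  have hP2b : (P2:ℝ) ≤ 2 * a ^ 2 * z ^ 4 := by
    rw [hP2]; push_cast
    calc (4:ℝ) ^ J * P1 ≤ z ^ 4 * (2 * a ^ 2) := mul_le_mul h4J hP1b (by positivity) (by positivity)
      _ = _ := by ring
  have hP1P2 : P1 ≤ P2 := by
    rw [hP2]
    calc P1 = 1 * P1 := (one_mul _).symm
      _ ≤ 4 ^ J * P1 := Nat.mul_le_mul_right _ (Nat.one_le_pow _ _ (by norm_num))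
  have hP2x : (P2:ℝ) ≤ x := by
    refine hP2b.trans ?_
    rw [hxaz]
    calc 2 * a ^ 2 * z ^ 4 ≤ z * a ^ 2 * z ^ 4 := by
          refine mul_le_mul_of_nonneg_right (mul_le_mul_of_nonneg_right hz2 (by positivity)) (by positivity)
      _ = a ^ 2 * z ^ 5 := by ring
      _ ≤ a ^ 6 * z ^ 60 := mul_le_mul (hap _ _ (by norm_num)) (hzp _ _ (by norm_num)) (by positivity) (by positivity)
  have hSx : (S:ℝ) ≤ x := by
    refine hSz.trans ?_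
    rw [hxaz]
    calc z = 1 * z ^ 1 := by ring
      _ ≤ a ^ 6 * z ^ 60 := mul_le_mul (hap1 6) (hzp _ _ (by norm_num)) (by positivity) (by positivity)
  have hSP : S ≤ P1 := by
    have : (S:ℝ) ≤ P1 := by
      calc (S:ℝ) ≤ z := hSz
        _ = z ^ 1 := (pow_one z).symm
        _ ≤ z ^ 10 := hzp _ _ (by norm_num)
        _ ≤ a := haz
        _ = a ^ 1 := (pow_one a).symm
        _ ≤ a ^ 2 := hap _ _ (by norm_num)
        _ ≤ P1 := hP1a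
    exact_mod_cast this
  have hsep : ((P2:ℝ) * S) ^ 2 < 8 * x := by
    calc ((P2:ℝ) * S) ^ 2 ≤ (2 * a ^ 2 * z ^ 4 * z) ^ 2 :=
          pow_le_pow_left₀ (by positivity) (mul_le_mul hP2b hSz (by positivity) (by positivity)) 2
      _ = 4 * (a ^ 4 * z ^ 10) := by ring
      _ ≤ 4 * (a ^ 6 * z ^ 60) := by
          refine mul_le_mul_of_nonneg_left ?_ (by norm_num)
          exact mul_le_mul (hap _ _ (by norm_num)) (hzp _ _ (by norm_num)) (by positivity) (by positivity)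
      _ = 4 * x := by rw [← hxaz]
      _ < 8 * x := by linarith only [hx0]
  have hz19 : 72 ≤ z ^ 19 := by
    calc (72:ℝ) ≤ 2 ^ 19 := by norm_num
      _ ≤ z ^ 19 := pow_le_pow_left₀ (by norm_num) hz2 19
  have hP1q : 72 * z * x ≤ P1 * q := by
    calc 72 * z * x ≤ z ^ 19 * z * x := by
          refine mul_le_mul_of_nonneg_right (mul_le_mul_of_nonneg_right hz19 hz0.le) hx0.le
      _ = a ^ 2 * (a ^ 4 * z ^ 80) := by
          rw [hxaz]; ring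
      _ ≤ P1 * q := mul_le_mul hP1a hqaz (by positivity) (by positivity)
  have hb : 26 * (S:ℝ) * x ≤ P1 * q := by
    refine le_trans ?_ hP1q
    refine mul_le_mul_of_nonneg_right ?_ hx0.le
    linarith only [hSz, hz0]
  have hc : 8 * x * (8 * S + 1) ≤ P1 * q := by
    refine le_trans ?_ hP1q
    have : 8 * x * (8 * S + 1) ≤ 8 * x * (9 * z) := by
      refine mul_le_mul_of_nonneg_left ?_ (by positivity)
      linarith only [hSz, hz1]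
    linarith only [this]
  exact ⟨⟨hS1, hSz, hSlow⟩, ⟨hP11, hP1a, hP1b⟩, ⟨hU1, hUa, hUb⟩, ⟨hP11.trans hP1P2, hP2b, hP2x⟩, hSx, hSP, hsep, hb, hc⟩

theorem main_lower (ε : ℝ) (h0 : 0 < ε) (h1 : ε ≤ 1/3) :
    ∃ X₀ : ℝ, ∀ x : ℝ, X₀ ≤ x → ∀ q : ℕ, x ^ ((2:ℝ)/3 + ε) ≤ (q:ℝ) → (q:ℝ) ≤ x →
      ε ^ 2 / 2 ^ 34 * (x * Real.log x) ≤ ∑ a ∈ range q, (vv ⌊x⌋₊ x q a) ^ 2 := by
  obtain ⟨N0, hN0⟩ := psi_lower
  obtain ⟨y0, hy01, hy0⟩ := prime_recip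
  have hb0 : 0 < (1/3 - ε/2) / 2 := by linarith
  have ev1 := ev_log 2 (ε/40) (14300 * 256 * 8 * 25600 / ε ^ 2) (by positivity) (by positivity)
  have ev2 := ev_log 2 1 48 (by norm_num) (by norm_num)
  have ev3 := ev_log 1 (2 * ((1/3 - ε/2) / 2)) (320 / ε) (by positivity) (by positivity)
  have ev4 := Real.tendsto_log_atTop.eventually_ge_atTop (100 / ε + 2)
  have ev5 := (tendsto_rpow_atTop (show 0 < ε/40 by positivity)).eventually_ge_atTop 2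
  have ev6 := (tendsto_rpow_atTop hb0).eventually_ge_atTop (y0 + 1 : ℝ)
  have ev := ((ev1.and ev2).and (ev3.and ev4)).and ((ev5.and ev6).and ((eventually_ge_atTop ((N0:ℝ) + 1)).and (eventually_ge_atTop (1:ℝ))))
  rw [eventually_atTop] at ev
  obtain ⟨X0, hX0⟩ := ev
  clear ev1 ev2 ev3 ev4 ev5 ev6
  refine ⟨X0, fun x hx q hq1 hq2 => ?_⟩
  obtain ⟨⟨⟨g1, g2⟩, g3, g4⟩, ⟨g5, g6⟩, g7, g8⟩ := hX0 x hx
  clear hX0 hx
  have hx0 : 0 < x := by linarith only [g8]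
  have hε0' : 0 < 100 / ε := by positivity
  have hlog1 : 100 / ε ≤ Real.log x := by linarith only [g4]
  have hlog2 : 2 ≤ Real.log x := by linarith only [g4, hε0']
  have hlogε : 100 ≤ ε * Real.log x := by
    rw [div_le_iff₀ h0] at hlog1; linarith only [hlog1]
  have hlx0 : 0 < Real.log x := by linarith only [hlog2]
  obtain ⟨z, hz⟩ : ∃ z : ℝ, z = x ^ (ε/40) := ⟨_, rfl⟩
  obtain ⟨a, ha⟩ : ∃ a : ℝ, a = x ^ ((1/3 - ε/2) / 2) := ⟨_, rfl⟩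
  obtain ⟨hxaz, haz, hqa, hz4, hlogz, hsq⟩ := params ε x z a h0 h1 g8 hz ha
  rw [hqa] at hq1
  rw [← hz] at g1 g5
  rw [hsq, pow_one] at g3
  rw [← ha] at g6
  rw [Real.rpow_one] at g2
  have hz1 : 1 ≤ z := by linarith only [g5]
  have hz0 : 0 < z := by linarith only [g5]
  have ha1 : 1 ≤ a := by
    have : (0:ℝ) ≤ y0 := Nat.cast_nonneg y0
    linarith only [this, g6]
  have ha0 : 0 < a := by linarith only [ha1]
  obtain ⟨N, hN⟩ : ∃ N : ℕ, N = ⌊x⌋₊ := ⟨_, rfl⟩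
  obtain ⟨S, hS⟩ : ∃ S : ℕ, S = ⌊z⌋₊ := ⟨_, rfl⟩
  obtain ⟨P1, hP1⟩ : ∃ P1 : ℕ, P1 = ⌈a ^ 2⌉₊ := ⟨_, rfl⟩
  obtain ⟨U, hU⟩ : ∃ U : ℕ, U = ⌈a ^ 2 * z ^ 16⌉₊ := ⟨_, rfl⟩
  obtain ⟨J, hJ⟩ : ∃ J : ℕ, J = ⌊ε / 10 * Real.log x / Real.log 4⌋₊ := ⟨_, rfl⟩
  obtain ⟨P2, hP2⟩ : ∃ P2 : ℕ, P2 = 4 ^ J * P1 := ⟨_, rfl⟩
  obtain ⟨h4J, hJlow⟩ := J_bounds ε x z J hJ hlogε hz4
  obtain ⟨⟨hS1, hSz, hSlow⟩, ⟨hP11, hP1a, hP1b⟩, ⟨hU1, hUa, hUb⟩, ⟨hP21, hP2b, hP2x⟩, hSx, hSP, hsep, hb, hc⟩ :=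
    sizes x z a S P1 U J P2 q g8 g5 ha1 hxaz haz hq1 hS hP1 hU hP2 h4J
  have hNx : (N:ℝ) ≤ x := by rw [hN]; exact Nat.floor_le hx0.le
  have hNx2 : x < N + 1 := by rw [hN]; exact Nat.lt_floor_add_one x
  have hN1 : 1 ≤ N := by rw [hN, Nat.one_le_floor_iff]; exact g8
  have hN1r : (1:ℝ) ≤ N := by exact_mod_cast hN1
  have hxN : x ≤ 2 * N := by linarith only [hNx2, hN1r]
  rw [← hN]
  have hq0 : 0 < q := by
    have : (0:ℝ) < q := lt_of_lt_of_le (by positivity) hq1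
    exact_mod_cast this
  have hq0r : (0:ℝ) < q := by exact_mod_cast hq0
  obtain ⟨PP, hPPdef⟩ : ∃ PP : Finset ℕ, PP = (Finset.Ioc P1 P2).filter (fun p => p.Prime ∧ ¬ p ∣ q) := ⟨_, rfl⟩
  have hPP : ∀ p ∈ PP, p.Prime ∧ ¬ p ∣ q ∧ P1 < p ∧ p ≤ P2 := by
    intro p hp
    rw [hPPdef, mem_filter, Finset.mem_Ioc] at hp
    exact ⟨hp.2.1, hp.2.2, hp.1.1, hp.1.2⟩
  have hψ : (N:ℝ) / 2 ≤ ∑ n ∈ Finset.Icc 1 N, Λ n := by
    refine hN0 N ?_
    have : (N0:ℝ) ≤ N := by linarith only [hNx2, g7]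
    exact_mod_cast this
  -- error terms
  have hlN : Real.log N ≤ Real.log x := Real.log_le_log (by linarith only [hN1r]) hNx
  have hlN0 : 0 ≤ Real.log N := Real.log_natCast_nonneg N
  obtain ⟨Em, hEm⟩ : ∃ Em : ℝ, Em = 6 * (Real.log x) ^ 2 := ⟨_, rfl⟩
  have hEm0 : 0 ≤ Em := by rw [hEm]; positivity
  have hSsb : ∀ s ∈ Ss S, 1 ≤ s ∧ s ≤ S := by
    intro s hs
    unfold Ss at hs
    rw [mem_filter, Finset.mem_Icc] at hs
    exact hs.1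
  have hE0gen : ∀ m : ℕ, 1 ≤ m → (m:ℝ) ≤ x ^ 3 → E0 N m ≤ Em := by
    intro m hm hmx
    refine (E0_le N m hm).trans ?_
    have e1 : Real.log m ≤ 3 * Real.log x := by
      calc Real.log m ≤ Real.log (x ^ 3) := Real.log_le_log (by exact_mod_cast hm) hmx
        _ = 3 * Real.log x := by rw [Real.log_pow]; norm_num
    calc 2 * Real.log m * Real.log N ≤ 2 * (3 * Real.log x) * Real.log x :=
          mul_le_mul (by linarith only [e1]) hlN hlN0 (by positivity)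
      _ = Em := by rw [hEm]; ring
  have hEmN : Em ≤ (N:ℝ) / 4 := by
    have e2 : 6 * (Real.log x) ^ 2 = (48 * (Real.log x) ^ 2) / 8 := by ring
    have e3 : (N:ℝ) / 4 = (2 * (N:ℝ)) / 8 := by ring
    rw [hEm, e2, e3]
    exact div_le_div_of_nonneg_right (g2.trans hxN) (by norm_num)
  have hmul3 : ∀ s ∈ Ss S, ∀ p ∈ PP, ((q * (p * s) : ℕ) : ℝ) ≤ x ^ 3 := by
    intro s hs p hp
    obtain ⟨_, hs2⟩ := hSsb s hs
    obtain ⟨_, _, _, hp2⟩ := hPP p hp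
    push_cast
    have e1 : (p:ℝ) ≤ x := le_trans (by exact_mod_cast hp2) hP2x
    have e2 : (s:ℝ) ≤ x := le_trans (by exact_mod_cast hs2) hSx
    calc (q:ℝ) * (p * s) ≤ x * (x * x) := mul_le_mul hq2 (mul_le_mul e1 e2 (by positivity) hx0.le) (by positivity) hx0.le
      _ = x ^ 3 := by ring
  have hEm1 : ∀ s ∈ Ss S, ∀ p ∈ PP, E0 N (q * (p * s)) ≤ (N:ℝ) / 4 := by
    intro s hs p hp
    refine (hE0gen _ ?_ (hmul3 s hs p hp)).trans hEmN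
    exact Nat.mul_pos hq0 (Nat.mul_pos (hPP p hp).1.pos (hSsb s hs).1)
  have hEm2 : ∀ s ∈ Ss S, ∀ p ∈ PP, E0 N (p * s) ≤ Em := by
    intro s hs p hp
    refine hE0gen _ (Nat.mul_pos (hPP p hp).1.pos (hSsb s hs).1) ?_
    refine le_trans ?_ (hmul3 s hs p hp)
    have : p * s ≤ q * (p * s) := Nat.le_mul_of_pos_left _ hq0
    exact_mod_cast this
  have hEm3 : ∀ s ∈ Ss S, E0 N (q * s) ≤ Em := by
    intro s hs
    refine hE0gen _ (Nat.mul_pos hq0 (hSsb s hs).1) ?_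
    push_cast
    have e2 : (s:ℝ) ≤ x := le_trans (by exact_mod_cast (hSsb s hs).2) hSx
    calc (q:ℝ) * s ≤ x * x := mul_le_mul hq2 e2 (by positivity) hx0.le
      _ = x ^ 2 := by ring
      _ ≤ x ^ 3 := pow_le_pow_right₀ g8 (by norm_num)
  obtain ⟨F, hF⟩ : ∃ F : ℝ, F = N + N * P2 / Real.sqrt U + Real.sqrt N * (P2:ℝ) ^ 2 + Real.sqrt N * P2 * U
      + U * (P2:ℝ) ^ 2 * Real.sqrt P2 := ⟨_, rfl⟩
  have hF0 : 0 ≤ F := by rw [hF]; positivity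
  obtain ⟨B, hBdef⟩ : ∃ B : ℝ, B = 132 * S * (2 + Real.log N) ^ 3 * F := ⟨_, rfl⟩
  have hB0 : 0 ≤ B := by rw [hBdef]; positivity
  have hB : ∀ s ∈ Ss S, ∀ a : ℕ, a < s → ∀ j ≤ N, ∑ χ ∈ R PP, ‖Fx χ s (a:ℤ) j‖ ≤ B := by
    intro s hs a' _ j hj
    obtain ⟨hs1, hs2⟩ := hSsb s hs
    have hm := mv PP P2 (fun p hp => ⟨(hPP p hp).1, (hPP p hp).2.2.2⟩) hP21 s hs1
      (fun p hp hd => by
        have := Nat.le_of_dvd hs1 hd
        have h3 := (hPP p hp).2.2.1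
        omega) (a':ℤ) U j N hU1 hj hN1
    rw [← hF] at hm
    refine le_trans (le_of_eq rfl) (hm.trans ?_)
    rw [hBdef]
    refine mul_le_mul_of_nonneg_right (mul_le_mul_of_nonneg_right ?_ (by positivity)) hF0
    have : (s:ℝ) ≤ S := by exact_mod_cast hs2
    linarith only [this]
  have hLslow := Ls_lower ε (Real.log x) z S hS1 hz0 hSlow hlogz hlogε
  have hP1y : y0 ≤ P1 := by
    have : (y0:ℝ) ≤ P1 := by
      calc (y0:ℝ) ≤ a := by linarith only [g6]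
        _ = a ^ 1 := (pow_one a).symm
        _ ≤ a ^ 2 := pow_le_pow_right₀ ha1 (by norm_num)
        _ ≤ P1 := hP1a
    exact_mod_cast this
  have hLlow := L_lower ε x a P1 P2 J q y0 h0 hlx0 ha0 hy0 hP1y hP2 hP21 hP2x hJlow hP1a hq0 hq2 g3
  rw [← hPPdef] at hLlow
  have hLL : ε ^ 2 * Real.log x / 25600 ≤ (∑ s ∈ Ss S, 1 / (Nat.totient s : ℝ)) * ∑ p ∈ PP, 1 / (p:ℝ) := by
    calc ε ^ 2 * Real.log x / 25600 = (ε * Real.log x / 160) * (ε / 160) := by ring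
      _ ≤ _ := mul_le_mul hLslow hLlow (by positivity) (le_trans (by positivity) hLslow)
  -- final inequality
  have hsqP1 : a ≤ Real.sqrt P1 := Real.le_sqrt_of_sq_le hP1a
  have hFb := F_bound a z N P2 U (Real.sqrt U) (Real.sqrt N) (Real.sqrt P2) hz1 haz
    (by rw [← hxaz]; exact hNx) (by positivity) hP2b (by positivity) hUb
    (by
      refine Real.le_sqrt_of_sq_le ?_
      refine le_trans (le_of_eq ?_) hUa
      ring)
    (by
      rw [Real.sqrt_le_left (by positivity)]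
      refine hNx.trans (le_of_eq ?_)
      rw [hxaz]; ring)
    (Real.sqrt_nonneg _)
    (by
      rw [Real.sqrt_le_left (by positivity)]
      refine hP2b.trans ?_
      have : (2 * a * z ^ 2) ^ 2 = 4 * (a ^ 2 * z ^ 4) := by ring
      rw [this]
      have : 0 ≤ a ^ 2 * z ^ 4 := by positivity
      linarith only [this])
  rw [← hF, ← hxaz] at hFb
  have hφ0 : (0:ℝ) < Nat.totient q := by exact_mod_cast Nat.totient_pos.mpr hq0
  have hqφ : (q:ℝ) ≤ (2 * Real.log x + 1) * Nat.totient q := by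
    have e1 := totient_ge q hq0
    have f4 : Real.log q ≤ Real.log x := Real.log_le_log hq0r hq2
    exact e1.trans (mul_le_mul_of_nonneg_right (by linarith only [f4]) hφ0.le)
  have hBb : B ≤ 132 * z * (2 + Real.log x) ^ 3 * F := by
    rw [hBdef]
    refine mul_le_mul_of_nonneg_right ?_ hF0
    refine mul_le_mul (by linarith only [hSz]) (pow_le_pow_left₀ (by linarith only [hlN0]) (by linarith only [hlN]) 3)
      (by positivity) (by positivity)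
  have hg1 : 14300 * 256 * 8 * 25600 * (Real.log x) ^ 2 ≤ z * ε ^ 2 := by
    rw [div_mul_eq_mul_div, div_le_iff₀ (by positivity)] at g1
    exact g1
  have hfinal := hfinal_num x z a (Real.log x) S P2 (Real.sqrt P1) q (Nat.totient q) B Em F _ ε hx0 hxaz hz1 ha1
    hlog2 (Nat.cast_nonneg _) hSz (Nat.cast_nonneg _) hP2b hsqP1 hq0r hq2 hφ0 hqφ hFb hB0 hBb hEm hg1 hLL
  have hcore := core N q S P1 P2 x B Em PP hN1 hNx hxN hq0 hq2 hPP hSP hP11 hsep hb hc hψ hEm1 hEm2 hEm3 hEm0 hB hB0 hfinal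
  refine le_trans ?_ hcore
  obtain ⟨LL, hLLd⟩ : ∃ LL : ℝ, LL = (∑ s ∈ Ss S, 1 / (Nat.totient s : ℝ)) * ∑ p ∈ PP, 1 / (p:ℝ) := ⟨_, rfl⟩
  rw [← hLLd] at hLL ⊢
  calc ε ^ 2 / 2 ^ 34 * (x * Real.log x) = x * (ε ^ 2 * Real.log x) / 2 ^ 34 := by ring
    _ ≤ x * (ε ^ 2 * Real.log x) / (25600 * 524288) := by
        refine div_le_div_of_nonneg_left (by positivity) (by norm_num) (by norm_num)
    _ = x * (ε ^ 2 * Real.log x / 25600) / 524288 := by ring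
    _ ≤ x * LL / 524288 := by
        refine div_le_div_of_nonneg_right (mul_le_mul_of_nonneg_left hLL hx0.le) (by norm_num)

end Pool.Agent.Var35
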