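import Pool.Agent.Lib_helper35.Var.TypeTwo

/-! Duality, the dual large sieve, and averages of series -/

set_option autoImplicit false

namespace Pool.Agent.Var35

open Finset Complex Filter

lemma duality {ι κ : Type*} (I : Finset ι) (K : Finset κ) (φ : ι → κ → ℂ) (D : ℝ) (hD : 0 ≤ D)
    (h : ∀ a : κ → ℂ, ∑ i ∈ I, ‖∑ m ∈ K, a m * φ i m‖ ^ 2 ≤ D * ∑ m ∈ K, ‖a m‖ ^ 2) (c : ι → ℂ) :
    ∑ m ∈ K, ‖∑ i ∈ I, c i * φ i m‖ ^ 2 ≤ D * ∑ i ∈ I, ‖c i‖ ^ 2 := by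
  obtain ⟨T, hT⟩ : ∃ T : ℝ, T = ∑ m ∈ K, ‖∑ i ∈ I, c i * φ i m‖ ^ 2 := ⟨_, rfl⟩
  have hT0 : 0 ≤ T := by rw [hT]; exact sum_nonneg fun _ _ => by positivity
  obtain ⟨C, hC⟩ : ∃ C : ℝ, C = ∑ i ∈ I, ‖c i‖ ^ 2 := ⟨_, rfl⟩
  have hC0 : 0 ≤ C := by rw [hC]; exact sum_nonneg fun _ _ => by positivity
  rw [← hT, ← hC]
  set a : κ → ℂ := fun m => (starRingEnd ℂ) (∑ i ∈ I, c i * φ i m) with ha
  have h1 : (T : ℂ) = ∑ i ∈ I, c i * ∑ m ∈ K, a m * φ i m := by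
    rw [hT]
    push_cast
    have h2 : ∀ m ∈ K, ((‖∑ i ∈ I, c i * φ i m‖ : ℂ)) ^ 2 = ∑ i ∈ I, c i * (a m * φ i m) := by
      intro m _
      rw [← Complex.mul_conj', mul_comm]
      simp only [ha]
      rw [mul_sum]
      refine sum_congr rfl fun i _ => by ring
    rw [sum_congr rfl h2, sum_comm]
    refine sum_congr rfl fun i _ => ?_
    rw [mul_sum]
  have h3 : T ≤ ∑ i ∈ I, ‖c i‖ * ‖∑ m ∈ K, a m * φ i m‖ := by
    have h4 : T = ‖(T:ℂ)‖ := by rw [Complex.norm_real, Real.norm_of_nonneg hT0]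
    rw [h4, h1]
    refine (norm_sum_le _ _).trans (sum_le_sum fun i _ => ?_)
    rw [norm_mul]
  have h5 : T ^ 2 ≤ C * (D * T) := by
    calc T ^ 2 ≤ (∑ i ∈ I, ‖c i‖ * ‖∑ m ∈ K, a m * φ i m‖) ^ 2 := pow_le_pow_left₀ hT0 h3 2
      _ ≤ (∑ i ∈ I, ‖c i‖ ^ 2) * ∑ i ∈ I, ‖∑ m ∈ K, a m * φ i m‖ ^ 2 := Finset.sum_mul_sq_le_sq_mul_sq _ _ _
      _ ≤ C * (D * T) := by
          rw [← hC]
          refine mul_le_mul_of_nonneg_left ?_ hC0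
          refine (h a).trans (le_of_eq ?_)
          rw [hT]
          congr 1
          refine sum_congr rfl fun m _ => ?_
          simp only [ha]
          rw [RCLike.norm_conj]
  rcases eq_or_lt_of_le hT0 with h0 | h0
  · rw [← h0]; positivity
  · have h6 : T * T ≤ (D * C) * T := by nlinarith
    exact le_of_mul_le_mul_right h6 h0

lemma mls_dual (PP : Finset ℕ) (P : ℕ) (hP : ∀ p ∈ PP, p.Prime ∧ p ≤ P) (hP1 : 1 ≤ P)
    (c : (Σ p : ℕ, DirichletCharacter ℂ p) → ℂ) (M H : ℕ) :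
    ∑ m ∈ Finset.Ioc M (M + H), ‖∑ x ∈ R PP, (starRingEnd ℂ) (ev x m) * c x‖ ^ 2
      ≤ 22 * (H + (P:ℝ) ^ 2) * ∑ x ∈ R PP, ‖c x‖ ^ 2 := by
  have h := duality (R PP) (Finset.Ioc M (M + H)) (fun x m => ev x m) (22 * (H + (P:ℝ) ^ 2)) (by positivity)
    (fun a => mls PP P hP hP1 a M H) (fun x => (starRingEnd ℂ) (c x))
  have h2 : ∑ x ∈ R PP, ‖(starRingEnd ℂ) (c x)‖ ^ 2 = ∑ x ∈ R PP, ‖c x‖ ^ 2 :=
    sum_congr rfl fun x _ => by rw [RCLike.norm_conj]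
  rw [h2] at h
  refine le_trans (le_of_eq ?_) h
  refine sum_congr rfl fun m _ => ?_
  rw [← RCLike.norm_conj (∑ x ∈ R PP, (starRingEnd ℂ) (ev x m) * c x), map_sum]
  congr 2
  refine sum_congr rfl fun x _ => ?_
  rw [map_mul, Complex.conj_conj, mul_comm]

/-- averages of a convergent series of functions, in mean square -/
lemma series_avg {κ : Type*} (Qs : Finset κ) (f : κ → ℂ) (c b : ℕ → κ → ℂ) (a : ℕ → ℝ) (M A : ℝ)
    (ha : ∀ j, 0 ≤ a j) (hA : ∀ J, ∑ j ∈ range J, a j ≤ A) (hM : 0 ≤ M)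
    (hlim : ∀ q ∈ Qs, Tendsto (fun J => ∑ j ∈ range J, c j q) atTop (nhds (f q)))
    (hcb : ∀ j, ∀ q ∈ Qs, ‖c j q‖ ≤ a j * ‖b j q‖) (hb : ∀ j, ∑ q ∈ Qs, ‖b j q‖ ^ 2 ≤ M) :
    ∑ q ∈ Qs, ‖f q‖ ^ 2 ≤ A ^ 2 * M := by
  have hA0 : 0 ≤ A := by simpa using hA 0
  have h1 : ∀ J, ∑ q ∈ Qs, ‖∑ j ∈ range J, c j q‖ ^ 2 ≤ A ^ 2 * M := by
    intro J
    have h2 : ∀ q ∈ Qs, ‖∑ j ∈ range J, c j q‖ ^ 2 ≤ A * ∑ j ∈ range J, a j * ‖b j q‖ ^ 2 := by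
      intro q hq
      have h3 : ‖∑ j ∈ range J, c j q‖ ≤ ∑ j ∈ range J, Real.sqrt (a j) * (Real.sqrt (a j) * ‖b j q‖) := by
        refine (norm_sum_le _ _).trans (sum_le_sum fun j _ => (hcb j q hq).trans (le_of_eq ?_))
        rw [← mul_assoc, Real.mul_self_sqrt (ha j)]
      calc ‖∑ j ∈ range J, c j q‖ ^ 2 ≤ (∑ j ∈ range J, Real.sqrt (a j) * (Real.sqrt (a j) * ‖b j q‖)) ^ 2 :=
            pow_le_pow_left₀ (norm_nonneg _) h3 2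
        _ ≤ (∑ j ∈ range J, (Real.sqrt (a j)) ^ 2) * ∑ j ∈ range J, (Real.sqrt (a j) * ‖b j q‖) ^ 2 :=
            Finset.sum_mul_sq_le_sq_mul_sq _ _ _
        _ = (∑ j ∈ range J, a j) * ∑ j ∈ range J, a j * ‖b j q‖ ^ 2 := by
            congr 1
            · exact sum_congr rfl fun j _ => Real.sq_sqrt (ha j)
            · refine sum_congr rfl fun j _ => ?_
              rw [mul_pow, Real.sq_sqrt (ha j)]
        _ ≤ A * ∑ j ∈ range J, a j * ‖b j q‖ ^ 2 :=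
            mul_le_mul_of_nonneg_right (hA J) (sum_nonneg fun j _ => mul_nonneg (ha j) (by positivity))
    refine (sum_le_sum h2).trans ?_
    rw [← mul_sum, sum_comm]
    have h3 : ∑ j ∈ range J, ∑ q ∈ Qs, a j * ‖b j q‖ ^ 2 ≤ ∑ j ∈ range J, a j * M := by
      refine sum_le_sum fun j _ => ?_
      rw [← mul_sum]
      exact mul_le_mul_of_nonneg_left (hb j) (ha j)
    rw [← sum_mul] at h3
    calc A * ∑ j ∈ range J, ∑ q ∈ Qs, a j * ‖b j q‖ ^ 2 ≤ A * ((∑ j ∈ range J, a j) * M) :=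
          mul_le_mul_of_nonneg_left h3 hA0
      _ ≤ A * (A * M) := mul_le_mul_of_nonneg_left (mul_le_mul_of_nonneg_right (hA J) hM) hA0
      _ = A ^ 2 * M := by ring
  have h4 : Tendsto (fun J => ∑ q ∈ Qs, ‖∑ j ∈ range J, c j q‖ ^ 2) atTop (nhds (∑ q ∈ Qs, ‖f q‖ ^ 2)) := by
    refine tendsto_finsetSum _ fun q hq => ?_
    exact ((hlim q hq).norm).pow 2
  exact le_of_tendsto' h4 h1

/-- the exponential series for `e` -/
lemma e_series (θ : ℝ) : Tendsto (fun J => ∑ j ∈ range J, ((2 * Real.pi * Complex.I * θ : ℂ)) ^ j / (j.factorial : ℂ)) atTop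
    (nhds (e θ)) := by
  have h := (NormedSpace.expSeries_div_hasSum_exp (2 * Real.pi * Complex.I * θ : ℂ)).tendsto_sum_nat
  have h2 : e θ = NormedSpace.exp (2 * Real.pi * Complex.I * θ : ℂ) := by
    unfold e
    rw [Complex.exp_eq_exp_ℂ]
    congr 1
    push_cast; ring
  rw [h2]
  exact h

end Pool.Agent.Var35
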