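import Pool.Agent.Lib_helper35.Var.TypeTwo

/-! Bilinear forms over nonprincipal characters to prime moduli -/

set_option autoImplicit false

namespace Pool.Agent.Var35

open Finset Complex

lemma e_split (s : ℕ) (hs : 1 ≤ s) (a : ℤ) (m k : ℕ) :
    e (a * (m * k : ℕ) / s) = ∑ i ∈ range s, (if k % s = i then 1 else 0) * e (a * m * i / s) := by
  have hs0 : (s:ℝ) ≠ 0 := by positivity
  rw [Finset.sum_eq_single (k % s)]
  · rw [if_pos rfl, one_mul]
    obtain ⟨q, r, hr, h1⟩ : ∃ q r : ℕ, k % s = r ∧ (k:ℝ) = s * q + r := by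
      refine ⟨k / s, k % s, rfl, ?_⟩
      have := Nat.div_add_mod k s
      exact_mod_cast this.symm
    rw [hr]
    have h2 : (a:ℝ) * (m * k : ℕ) / s = a * m * r / s + ((a * m * q : ℤ) : ℝ) := by
      push_cast
      rw [h1]
      field_simp
      ring
    rw [h2, e_add_int]
  · intro i _ hi
    rw [if_neg (Ne.symm hi), zero_mul]
  · intro h
    exact absurd (mem_range.mpr (Nat.mod_lt k hs)) h

theorem bilinear (PP : Finset ℕ) (P : ℕ) (hP : ∀ p ∈ PP, p.Prime ∧ p ≤ P) (hP1 : 1 ≤ P)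
    (α β : ℕ → ℂ) (s : ℕ) (hs : 1 ≤ s) (a : ℤ) (M u : ℕ) (hM : 1 ≤ M) :
    ∑ x ∈ R PP, ‖∑ m ∈ Finset.Ioc M (M + M), ∑ k ∈ Finset.Icc 1 (u / m),
        α m * β k * (ev x (m * k) * e (a * (m * k : ℕ) / s))‖
      ≤ 22 * s * (2 + Real.log (u / M : ℕ)) *
        (Real.sqrt ((M + (P:ℝ) ^ 2) * ∑ m ∈ Finset.Ioc M (M + M), ‖α m‖ ^ 2)
          * Real.sqrt (((u / M : ℕ) + (P:ℝ) ^ 2) * ∑ k ∈ Finset.Icc 1 (u / M), ‖β k‖ ^ 2)) := by
  set T : ℕ := u / M with hT
  rcases Nat.eq_zero_or_pos T with hT0 | hT0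
  · -- empty
    have h1 : ∀ x ∈ R PP, ‖∑ m ∈ Finset.Ioc M (M + M), ∑ k ∈ Finset.Icc 1 (u / m),
        α m * β k * (ev x (m * k) * e (a * (m * k : ℕ) / s))‖ = 0 := by
      intro x _
      rw [norm_eq_zero]
      refine sum_eq_zero fun m hm => ?_
      rw [Finset.mem_Ioc] at hm
      have : u / m = 0 := by
        have h2 : u / m ≤ T := Nat.div_le_div_left hm.1.le (by omega)
        rw [hT0] at h2
        exact Nat.le_zero.mp h2
      rw [this]; simp
    rw [sum_congr rfl h1]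
    simp only [sum_const_zero]
    rw [hT0]
    simp
  have hTr : (0:ℝ) < T := by exact_mod_cast hT0
  set A : ℕ → ℕ → (Σ p : ℕ, DirichletCharacter ℂ p) → ℂ := fun j i x =>
    ∑ m ∈ Finset.Ioc M (M + M), (α m * cf T (u / m) j * e (a * m * i / s)) * ev x m with hA
  set B : ℕ → ℕ → (Σ p : ℕ, DirichletCharacter ℂ p) → ℂ := fun j i x =>
    ∑ k ∈ Finset.Ioc 0 (0 + T), (β k * (if k % s = i then 1 else 0) * e (j * k / T)) * ev x k with hB
  have hId : ∀ x, ∑ m ∈ Finset.Ioc M (M + M), ∑ k ∈ Finset.Icc 1 (u / m),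
        α m * β k * (ev x (m * k) * e (a * (m * k : ℕ) / s))
      = ∑ j ∈ range T, ∑ i ∈ range s, A j i x * B j i x := by
    intro x
    have h1 : ∀ m ∈ Finset.Ioc M (M + M), ∑ k ∈ Finset.Icc 1 (u / m),
        α m * β k * (ev x (m * k) * e (a * (m * k : ℕ) / s))
        = ∑ j ∈ range T, ∑ i ∈ range s, ∑ k ∈ Finset.Ioc 0 (0 + T),
            ((α m * cf T (u / m) j * e (a * m * i / s)) * ev x m) *
            ((β k * (if k % s = i then 1 else 0) * e (j * k / T)) * ev x k) := by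
      intro m hm
      rw [Finset.mem_Ioc] at hm
      have hle : u / m ≤ T := Nat.div_le_div_left hm.1.le (by omega)
      have h2 : ∑ k ∈ Finset.Icc 1 (u / m), α m * β k * (ev x (m * k) * e (a * (m * k : ℕ) / s))
          = ∑ k ∈ Finset.Ioc 0 (0 + T), (∑ j ∈ range T, cf T (u / m) j * e (j * k / T)) *
              (α m * β k * (ev x (m * k) * e (a * (m * k : ℕ) / s))) := by
        have h3 : ∀ k ∈ Finset.Ioc 0 (0 + T), (∑ j ∈ range T, cf T (u / m) j * e (j * k / T)) *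
              (α m * β k * (ev x (m * k) * e (a * (m * k : ℕ) / s)))
            = if k ≤ u / m then α m * β k * (ev x (m * k) * e (a * (m * k : ℕ) / s)) else 0 := by
          intro k hk
          rw [Finset.mem_Ioc] at hk
          rw [cf_expand T (u / m) k (by omega) (by omega) hle]
          split_ifs <;> simp
        rw [sum_congr rfl h3, ← sum_filter]
        refine sum_congr ?_ fun _ _ => rfl
        ext k
        simp only [Finset.mem_Icc, mem_filter, Finset.mem_Ioc]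
        omega
      rw [h2]
      have h4 : ∀ k ∈ Finset.Ioc 0 (0 + T), (∑ j ∈ range T, cf T (u / m) j * e (j * k / T)) *
              (α m * β k * (ev x (m * k) * e (a * (m * k : ℕ) / s)))
          = ∑ j ∈ range T, ∑ i ∈ range s,
            ((α m * cf T (u / m) j * e (a * m * i / s)) * ev x m) *
            ((β k * (if k % s = i then 1 else 0) * e (j * k / T)) * ev x k) := by
        intro k _
        rw [e_split s hs a m k, ev_mul, sum_mul]
        refine sum_congr rfl fun j _ => ?_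
        rw [mul_sum, mul_sum, mul_sum]
        refine sum_congr rfl fun i _ => ?_
        ring
      rw [sum_congr rfl h4, sum_comm]
      refine sum_congr rfl fun j _ => ?_
      rw [sum_comm]
    rw [sum_congr rfl h1, sum_comm]
    refine sum_congr rfl fun j _ => ?_
    rw [sum_comm]
    refine sum_congr rfl fun i _ => ?_
    simp only [hA, hB]
    rw [sum_mul_sum]
  set SA := ∑ m ∈ Finset.Ioc M (M + M), ‖α m‖ ^ 2 with hSA
  set SB := ∑ k ∈ Finset.Icc 1 T, ‖β k‖ ^ 2 with hSB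
  have hSA0 : 0 ≤ SA := sum_nonneg fun _ _ => by positivity
  have hSB0 : 0 ≤ SB := sum_nonneg fun _ _ => by positivity
  have hAbound : ∀ j ∈ range T, ∀ i ∈ range s,
      ∑ x ∈ R PP, ‖A j i x‖ ^ 2 ≤ (gm T j) ^ 2 * (22 * ((M + (P:ℝ) ^ 2) * SA)) := by
    intro j hj i _
    rw [mem_range] at hj
    have h1 := mls PP P hP hP1 (fun m => α m * cf T (u / m) j * e (a * m * i / s)) M M
    refine h1.trans ?_
    have h2 : ∑ m ∈ Finset.Ioc M (M + M), ‖α m * cf T (u / m) j * e (a * m * i / s)‖ ^ 2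
        ≤ (gm T j) ^ 2 * SA := by
      rw [hSA, mul_sum]
      refine sum_le_sum fun m hm => ?_
      rw [Finset.mem_Ioc] at hm
      have hle : u / m ≤ T := Nat.div_le_div_left hm.1.le (by omega)
      rw [norm_mul, norm_mul, norm_e, mul_one, mul_pow, mul_comm]
      refine mul_le_mul_of_nonneg_right ?_ (by positivity)
      exact pow_le_pow_left₀ (norm_nonneg _) (cf_le T _ j hle hj) 2
    calc 22 * ((M:ℝ) + (P:ℝ) ^ 2) * ∑ m ∈ Finset.Ioc M (M + M), ‖α m * cf T (u / m) j * e (a * m * i / s)‖ ^ 2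
        ≤ 22 * ((M:ℝ) + (P:ℝ) ^ 2) * ((gm T j) ^ 2 * SA) := mul_le_mul_of_nonneg_left h2 (by positivity)
      _ = _ := by ring
  have hBbound : ∀ j ∈ range T, ∀ i ∈ range s,
      ∑ x ∈ R PP, ‖B j i x‖ ^ 2 ≤ 22 * ((T + (P:ℝ) ^ 2) * SB) := by
    intro j _ i _
    have h1 := mls PP P hP hP1 (fun k => β k * (if k % s = i then 1 else 0) * e (j * k / T)) 0 T
    refine h1.trans ?_
    have h2 : ∑ k ∈ Finset.Ioc 0 (0 + T), ‖β k * (if k % s = i then 1 else 0) * e (j * k / T)‖ ^ 2 ≤ SB := by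
      rw [hSB]
      have : Finset.Ioc 0 (0 + T) = Finset.Icc 1 T := by ext k; simp only [Finset.mem_Ioc, Finset.mem_Icc]; omega
      rw [this]
      refine sum_le_sum fun k _ => ?_
      rw [norm_mul, norm_mul, norm_e, mul_one]
      refine pow_le_pow_left₀ (by positivity) ?_ 2
      split_ifs
      · simp
      · simp
    calc 22 * ((T:ℝ) + (P:ℝ) ^ 2) * ∑ k ∈ Finset.Ioc 0 (0 + T), ‖β k * (if k % s = i then 1 else 0) * e (j * k / T)‖ ^ 2
        ≤ 22 * ((T:ℝ) + (P:ℝ) ^ 2) * SB := mul_le_mul_of_nonneg_left h2 (by positivity)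
      _ = _ := by ring
  set W := Real.sqrt ((M + (P:ℝ) ^ 2) * SA) * Real.sqrt ((T + (P:ℝ) ^ 2) * SB) with hW
  have hABbound : ∀ j ∈ range T, ∀ i ∈ range s,
      ∑ x ∈ R PP, ‖A j i x‖ * ‖B j i x‖ ≤ gm T j * (22 * W) := by
    intro j hj i hi
    have hg := gm_nonneg T j (mem_range.mp hj)
    refine (Real.sum_mul_le_sqrt_mul_sqrt _ _ _).trans ?_
    have h1 : Real.sqrt (∑ x ∈ R PP, ‖A j i x‖ ^ 2) ≤ gm T j * Real.sqrt (22 * ((M + (P:ℝ) ^ 2) * SA)) := by
      refine (Real.sqrt_le_sqrt (hAbound j hj i hi)).trans (le_of_eq ?_)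
      rw [Real.sqrt_mul (by positivity), Real.sqrt_sq hg]
    have h2 : Real.sqrt (∑ x ∈ R PP, ‖B j i x‖ ^ 2) ≤ Real.sqrt (22 * ((T + (P:ℝ) ^ 2) * SB)) :=
      Real.sqrt_le_sqrt (hBbound j hj i hi)
    calc Real.sqrt (∑ x ∈ R PP, ‖A j i x‖ ^ 2) * Real.sqrt (∑ x ∈ R PP, ‖B j i x‖ ^ 2)
        ≤ (gm T j * Real.sqrt (22 * ((M + (P:ℝ) ^ 2) * SA))) * Real.sqrt (22 * ((T + (P:ℝ) ^ 2) * SB)) :=
          mul_le_mul h1 h2 (Real.sqrt_nonneg _) (by positivity)
      _ = gm T j * (22 * W) := by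
          rw [Real.sqrt_mul (by norm_num), Real.sqrt_mul (by norm_num) (((T:ℝ) + (P:ℝ) ^ 2) * SB)]
          have : Real.sqrt 22 * Real.sqrt 22 = 22 := Real.mul_self_sqrt (by norm_num)
          calc gm T j * (Real.sqrt 22 * Real.sqrt ((M + (P:ℝ) ^ 2) * SA)) * (Real.sqrt 22 * Real.sqrt ((T + (P:ℝ) ^ 2) * SB))
              = gm T j * ((Real.sqrt 22 * Real.sqrt 22) * W) := by rw [hW]; ring
            _ = _ := by rw [this]
  have hW0 : 0 ≤ W := by positivity
  calc ∑ x ∈ R PP, ‖∑ m ∈ Finset.Ioc M (M + M), ∑ k ∈ Finset.Icc 1 (u / m),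
        α m * β k * (ev x (m * k) * e (a * (m * k : ℕ) / s))‖
      ≤ ∑ x ∈ R PP, ∑ j ∈ range T, ∑ i ∈ range s, ‖A j i x‖ * ‖B j i x‖ := by
        refine sum_le_sum fun x _ => ?_
        rw [hId x]
        refine (norm_sum_le _ _).trans (sum_le_sum fun j _ => ?_)
        refine (norm_sum_le _ _).trans (sum_le_sum fun i _ => ?_)
        rw [norm_mul]
    _ = ∑ j ∈ range T, ∑ i ∈ range s, ∑ x ∈ R PP, ‖A j i x‖ * ‖B j i x‖ := by
        rw [sum_comm]
        refine sum_congr rfl fun j _ => ?_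
        rw [sum_comm]
    _ ≤ ∑ j ∈ range T, ∑ i ∈ range s, gm T j * (22 * W) :=
        sum_le_sum fun j hj => sum_le_sum fun i hi => hABbound j hj i hi
    _ = (∑ j ∈ range T, gm T j) * (s * (22 * W)) := by
        rw [sum_mul]
        refine sum_congr rfl fun j _ => ?_
        rw [sum_const, card_range, nsmul_eq_mul]; ring
    _ ≤ (2 + Real.log T) * (s * (22 * W)) :=
        mul_le_mul_of_nonneg_right (sum_gm_le T hT0) (by positivity)
    _ = 22 * s * (2 + Real.log T) * W := by ring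

end Pool.Agent.Var35
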