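import Pool.Agent.Lib_helper35.Var.Sieve

/-! Dirichlet characters to prime moduli: orthogonality, Gauss sums, multiplicative large sieve -/

set_option autoImplicit false

namespace Pool.Agent.Var35

open Finset Complex

open scoped Classical in
/-- The nonprincipal characters modulo `p`. -/
noncomputable def X (p : ℕ) : Finset (DirichletCharacter ℂ p) := univ.filter (fun χ => χ ≠ 1)

section prime

variable (p : ℕ) [hp : Fact p.Prime]

lemma std_eq_e (j : ℤ) : (ZMod.stdAddChar (N := p) (j : ZMod p)) = e ((j:ℝ) / p) := by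
  rw [ZMod.stdAddChar_coe]
  unfold e
  congr 1
  push_cast
  ring

lemma std_eq_e_nat (j : ℕ) : (ZMod.stdAddChar (N := p) (j : ZMod p)) = e ((j:ℝ) / p) := by
  have := std_eq_e p (j : ℤ)
  push_cast at this
  exact this

lemma orth (C : ZMod p → ℂ) :
    ∑ χ : DirichletCharacter ℂ p, ‖∑ r : ZMod p, χ r * C r‖ ^ 2
      = ((p:ℝ) - 1) * ∑ r ∈ univ.filter (fun r : ZMod p => r ≠ 0), ‖C r‖ ^ 2 := by
  have hc : ((∑ χ : DirichletCharacter ℂ p, ‖∑ r : ZMod p, χ r * C r‖ ^ 2 : ℝ) : ℂ)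
      = (((p:ℝ) - 1) * ∑ r ∈ univ.filter (fun r : ZMod p => r ≠ 0), ‖C r‖ ^ 2 : ℝ) := by
    push_cast
    have h1 : ∀ χ : DirichletCharacter ℂ p, ((‖∑ r : ZMod p, χ r * C r‖ : ℂ)) ^ 2
        = ∑ r : ZMod p, ∑ s : ZMod p, C r * (starRingEnd ℂ) (C s) * (χ s⁻¹ * χ r) := by
      intro χ
      have : ((‖∑ r : ZMod p, χ r * C r‖ : ℂ)) ^ 2
        = (∑ r : ZMod p, χ r * C r) * (starRingEnd ℂ) (∑ r : ZMod p, χ r * C r) := by
        rw [Complex.mul_conj, Complex.normSq_eq_norm_sq]; push_cast; rfl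
      rw [this, map_sum, sum_mul_sum]
      refine sum_congr rfl fun r _ => sum_congr rfl fun s _ => ?_
      rw [map_mul]
      have h2 : (starRingEnd ℂ) (χ s) = χ s⁻¹ := by
        rw [← MulChar.inv_apply']
        exact MulChar.star_apply' χ s
      rw [h2]; ring
    rw [sum_congr rfl fun χ _ => h1 χ, sum_comm]
    rw [sum_congr rfl fun r _ => sum_comm]
    have h3 : ∀ r s : ZMod p, ∑ χ : DirichletCharacter ℂ p, C r * (starRingEnd ℂ) (C s) * (χ s⁻¹ * χ r)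
        = if s = r ∧ s ≠ 0 then C r * (starRingEnd ℂ) (C s) * ((p:ℂ) - 1) else 0 := by
      intro r s
      rw [← mul_sum]
      by_cases hs : s = 0
      · subst hs
        have : ∑ χ : DirichletCharacter ℂ p, χ (0:ZMod p)⁻¹ * χ r = 0 := by
          refine sum_eq_zero fun χ _ => ?_
          rw [inv_zero, MulChar.map_zero, zero_mul]
        rw [this]; simp
      · have hu : IsUnit s := isUnit_iff_ne_zero.mpr hs
        rw [DirichletCharacter.sum_char_inv_mul_char_eq ℂ hu r]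
        by_cases hsr : s = r
        · rw [if_pos hsr, if_pos ⟨hsr, hs⟩, Nat.totient_prime hp.out, Nat.cast_sub hp.out.one_le]
          push_cast; ring
        · rw [if_neg hsr, if_neg (fun h => hsr h.1)]; simp
    rw [sum_congr rfl fun r _ => sum_congr rfl fun s _ => h3 r s]
    have h4 : ∀ r : ZMod p, ∑ s : ZMod p, (if s = r ∧ s ≠ 0 then C r * (starRingEnd ℂ) (C s) * ((p:ℂ) - 1) else 0)
        = if r ≠ 0 then ((p:ℂ) - 1) * ((‖C r‖ : ℂ)) ^ 2 else 0 := by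
      intro r
      rw [sum_eq_single r]
      · by_cases hr : r = 0
        · simp [hr]
        · rw [if_pos ⟨rfl, hr⟩, if_pos hr, Complex.mul_conj, Complex.normSq_eq_norm_sq]
          push_cast; ring
      · intro s _ hsr
        rw [if_neg (fun h => hsr h.1)]
      · intro h; exact absurd (mem_univ _) h
    rw [sum_congr rfl fun r _ => h4 r, ← sum_filter, mul_sum]
  exact_mod_cast hc

lemma gauss_norm (χ : DirichletCharacter ℂ p) (hχ : χ ≠ 1) :
    ‖gaussSum χ (ZMod.stdAddChar (N := p))‖ ^ 2 = p := by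
  have h1 := gaussSum_mul_gaussSum_eq_card hχ (ZMod.isPrimitive_stdAddChar p)
  rw [← star_gaussSum_eq] at h1
  have h2 : ((‖gaussSum χ (ZMod.stdAddChar (N := p))‖ ^ 2 : ℝ) : ℂ) = p := by
    rw [← Complex.normSq_eq_norm_sq, ← Complex.mul_conj]
    rw [ZMod.card] at h1
    exact h1
  exact_mod_cast h2

lemma gauss_expand (χ : DirichletCharacter ℂ p) (hχ : χ ≠ 1) (m : ZMod p) :
    ∑ a : ZMod p, χ⁻¹ a * ZMod.stdAddChar (N := p) (m * a) = χ m * gaussSum χ⁻¹ (ZMod.stdAddChar (N := p)) := by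
  by_cases hm : m = 0
  · subst hm
    have h : χ⁻¹ ≠ 1 := by
      intro h; apply hχ; rw [inv_eq_one] at h; exact h
    simp only [zero_mul, AddChar.map_zero_eq_one, mul_one, MulChar.map_zero]
    exact MulChar.sum_eq_zero_of_ne_one h
  · have := gaussSum_mulShift_eq χ⁻¹ (ZMod.stdAddChar (N := p)) (Units.mk0 m hm)
    rw [inv_inv] at this
    rw [← show ((Units.mk0 m hm : (ZMod p)ˣ) : ZMod p) = m from rfl, ← this]
    rfl

/-- one prime: characters versus fractions -/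
lemma mls_single (I : Finset ℕ) (a : ℕ → ℂ) :
    ∑ χ ∈ X p, ‖∑ m ∈ I, a m * χ (m : ZMod p)‖ ^ 2
      ≤ ∑ c ∈ Finset.Ico 1 p, ‖∑ m ∈ I, a m * e (m * ((c:ℝ) / p))‖ ^ 2 := by
  set T : ZMod p → ℂ := fun c => ∑ m ∈ I, a m * ZMod.stdAddChar (N := p) ((m : ZMod p) * c) with hT
  have hp0 : (0:ℝ) < p := by exact_mod_cast hp.out.pos
  have h1 : ∀ χ ∈ X p, (p:ℝ) * ‖∑ m ∈ I, a m * χ (m : ZMod p)‖ ^ 2 = ‖∑ c : ZMod p, χ⁻¹ c * T c‖ ^ 2 := by
    intro χ hχ
    simp only [X, mem_filter, mem_univ, true_and] at hχ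
    have hχi : χ⁻¹ ≠ 1 := by
      intro h; apply hχ; rw [inv_eq_one] at h; exact h
    have h2 : ∑ c : ZMod p, χ⁻¹ c * T c
        = (∑ m ∈ I, a m * χ (m : ZMod p)) * gaussSum χ⁻¹ (ZMod.stdAddChar (N := p)) := by
      simp only [hT, mul_sum]
      rw [sum_comm, sum_mul]
      refine sum_congr rfl fun m _ => ?_
      rw [mul_assoc, ← gauss_expand p χ hχ (m : ZMod p), mul_sum]
      refine sum_congr rfl fun c _ => by ring
    rw [h2, norm_mul, mul_pow, gauss_norm p χ⁻¹ hχi, mul_comm]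
  have h3 : ∑ χ ∈ X p, ‖∑ c : ZMod p, χ⁻¹ c * T c‖ ^ 2
      ≤ ((p:ℝ) - 1) * ∑ r ∈ univ.filter (fun r : ZMod p => r ≠ 0), ‖T r‖ ^ 2 := by
    rw [← orth p T]
    have h4 : ∑ χ ∈ X p, ‖∑ c : ZMod p, χ⁻¹ c * T c‖ ^ 2
        ≤ ∑ χ : DirichletCharacter ℂ p, ‖∑ c : ZMod p, χ⁻¹ c * T c‖ ^ 2 :=
      sum_le_sum_of_subset_of_nonneg (subset_univ _) fun _ _ _ => by positivity
    refine h4.trans (le_of_eq ?_)
    exact Fintype.sum_bijective (fun χ : DirichletCharacter ℂ p => χ⁻¹) (inv_involutive.bijective) _ _ (fun χ => rfl)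
  have h5 : ∑ r ∈ univ.filter (fun r : ZMod p => r ≠ 0), ‖T r‖ ^ 2
      = ∑ c ∈ Finset.Ico 1 p, ‖∑ m ∈ I, a m * e (m * ((c:ℝ) / p))‖ ^ 2 := by
    symm
    refine Finset.sum_nbij' (fun c => (c : ZMod p)) (fun r => r.val) ?_ ?_ ?_ ?_ ?_
    · intro c hc
      rw [Finset.mem_Ico] at hc
      simp only [mem_filter, mem_univ, true_and]
      intro h
      rw [ZMod.natCast_eq_zero_iff] at h
      exact absurd (Nat.le_of_dvd hc.1 h) (by omega)
    · intro r hr
      simp only [mem_filter, mem_univ, true_and] at hr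
      rw [Finset.mem_Ico]
      refine ⟨?_, ZMod.val_lt r⟩
      exact Nat.pos_of_ne_zero (fun h => hr ((ZMod.val_eq_zero r).mp h))
    · intro c hc
      rw [Finset.mem_Ico] at hc
      exact ZMod.val_cast_of_lt hc.2
    · intro r _
      exact ZMod.natCast_zmod_val r
    · intro c _
      congr 2
      simp only [hT]
      refine sum_congr rfl fun m _ => ?_
      congr 1
      have := std_eq_e_nat p (m * c)
      push_cast at this
      rw [this]
      congr 1; ring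
  have h6 : (p:ℝ) * ∑ χ ∈ X p, ‖∑ m ∈ I, a m * χ (m : ZMod p)‖ ^ 2
      ≤ (p:ℝ) * ∑ c ∈ Finset.Ico 1 p, ‖∑ m ∈ I, a m * e (m * ((c:ℝ) / p))‖ ^ 2 := by
    rw [mul_sum, sum_congr rfl h1]
    refine h3.trans ?_
    rw [h5]
    refine mul_le_mul_of_nonneg_right (by linarith) (sum_nonneg fun _ _ => by positivity)
  exact le_of_mul_le_mul_left h6 hp0

end prime

/-- the Farey fractions with prime denominators are separated -/
lemma farey_sep (PP : Finset ℕ) (P : ℕ) (hP : ∀ p ∈ PP, p.Prime ∧ p ≤ P) (hP1 : 1 ≤ P) :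
    Sep (PP.sigma (fun p => Finset.Ico 1 p)) (fun x : (Σ _ : ℕ, ℕ) => (x.2:ℝ) / x.1) (1 / (P:ℝ) ^ 2) := by
  rintro ⟨p, a⟩ h1 ⟨p', a'⟩ h2 hne n
  rw [mem_sigma, Finset.mem_Ico] at h1 h2
  simp only at h1 h2 ⊢
  obtain ⟨hp, ha1, ha2⟩ := h1
  obtain ⟨hp', ha1', ha2'⟩ := h2
  have hpp := (hP p hp).1
  have hpp' := (hP p' hp').1
  have hp0 : (0:ℝ) < p := by exact_mod_cast hpp.pos
  have hp0' : (0:ℝ) < p' := by exact_mod_cast hpp'.pos
  have hPr : (0:ℝ) < P := by exact_mod_cast hP1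
  have hz : (a:ℤ) * p' - a' * p - n * p * p' ≠ 0 := by
    intro h0
    by_cases hpe : p = p'
    · subst hpe
      have h1 : ((a:ℤ) - a' - n * p) * p = 0 := by linarith
      have hpz : (p:ℤ) ≠ 0 := by exact_mod_cast hpp.ne_zero
      have h2 : (a:ℤ) - a' - n * p = 0 := by
        rcases mul_eq_zero.mp h1 with h | h
        · exact h
        · exact absurd h hpz
      have h3 : (p:ℤ) ∣ (a:ℤ) - a' := ⟨n, by linarith⟩
      have h4 : (a:ℤ) - a' = 0 := Int.eq_zero_of_abs_lt_dvd h3 (by rw [abs_lt]; omega)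
      apply hne
      have : a = a' := by omega
      rw [this]
    · have h1 : (p:ℤ) ∣ (a:ℤ) * p' := ⟨a' + n * p', by linarith⟩
      have h2 : p ∣ a * p' := by exact_mod_cast h1
      rcases (Nat.Prime.dvd_mul hpp).mp h2 with h | h
      · exact absurd (Nat.le_of_dvd (by omega) h) (by omega)
      · exact hpe ((Nat.prime_dvd_prime_iff_eq hpp hpp').mp h)
  have h1 : (a:ℝ) / p - a' / p' - n = (((a:ℤ) * p' - a' * p - n * p * p' : ℤ) : ℝ) / (p * p') := by
    push_cast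
    field_simp
  rw [h1, abs_div, abs_of_pos (mul_pos hp0 hp0')]
  have h2 : (1:ℝ) ≤ |(((a:ℤ) * p' - a' * p - n * p * p' : ℤ) : ℝ)| := by
    rw [← Int.cast_abs]
    exact_mod_cast Int.one_le_abs hz
  have h3 : (p:ℝ) * p' ≤ (P:ℝ) ^ 2 := by
    rw [sq]
    have e1 : (p:ℝ) ≤ P := by exact_mod_cast (hP p hp).2
    have e2 : (p':ℝ) ≤ P := by exact_mod_cast (hP p' hp').2
    exact mul_le_mul e1 e2 hp0'.le hPr.le
  exact div_le_div₀ (by linarith) h2 (mul_pos hp0 hp0') h3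

/-- Multiplicative large sieve for prime moduli. -/
theorem mult_large_sieve (PP : Finset ℕ) (P : ℕ) (hP : ∀ p ∈ PP, p.Prime ∧ p ≤ P) (hP1 : 1 ≤ P)
    (a : ℕ → ℂ) (M H : ℕ) :
    ∑ p ∈ PP, ∑ χ ∈ X p, ‖∑ m ∈ Finset.Ioc M (M + H), a m * χ (m : ZMod p)‖ ^ 2
      ≤ 22 * (H + (P:ℝ) ^ 2) * ∑ m ∈ Finset.Ioc M (M + H), ‖a m‖ ^ 2 := by
  have hPr : (1:ℝ) ≤ P := by exact_mod_cast hP1
  have h1 : ∑ p ∈ PP, ∑ χ ∈ X p, ‖∑ m ∈ Finset.Ioc M (M + H), a m * χ (m : ZMod p)‖ ^ 2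
      ≤ ∑ p ∈ PP, ∑ c ∈ Finset.Ico 1 p, ‖∑ m ∈ Finset.Ioc M (M + H), a m * e (m * ((c:ℝ) / p))‖ ^ 2 := by
    refine sum_le_sum fun p hp => ?_
    haveI : Fact p.Prime := ⟨(hP p hp).1⟩
    exact mls_single p _ a
  refine h1.trans ?_
  have h2 : ∑ p ∈ PP, ∑ c ∈ Finset.Ico 1 p, ‖∑ m ∈ Finset.Ioc M (M + H), a m * e (m * ((c:ℝ) / p))‖ ^ 2
      = ∑ x ∈ PP.sigma (fun p => Finset.Ico 1 p),
          ‖∑ m ∈ range H, a (M + 1 + m) * e (m * ((x.2:ℝ) / x.1))‖ ^ 2 := by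
    rw [sum_sigma]
    refine sum_congr rfl fun p _ => sum_congr rfl fun c _ => ?_
    have h3 : ∑ m ∈ Finset.Ioc M (M + H), a m * e (m * ((c:ℝ) / p))
        = e ((M + 1 : ℕ) * ((c:ℝ) / p)) * ∑ m ∈ range H, a (M + 1 + m) * e (m * ((c:ℝ) / p)) := by
      rw [mul_sum]
      have : Finset.Ioc M (M + H) = (range H).image (fun m => M + 1 + m) := by
        ext m
        simp only [Finset.mem_Ioc, mem_image, mem_range]
        constructor
        · intro h; exact ⟨m - (M + 1), by omega, by omega⟩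
        · rintro ⟨j, hj, rfl⟩; omega
      rw [this, sum_image (fun a _ b _ h => by simpa using h)]
      refine sum_congr rfl fun m _ => ?_
      have : ((M + 1 + m : ℕ) : ℝ) * ((c:ℝ) / p) = ((M + 1 : ℕ):ℝ) * ((c:ℝ) / p) + m * ((c:ℝ) / p) := by
        push_cast; ring
      rw [this, e_add]; ring
    rw [h3, norm_mul, norm_e, one_mul]
  rw [h2]
  have h4 := large_sieve (PP.sigma (fun p => Finset.Ico 1 p)) (fun x : (Σ _ : ℕ, ℕ) => (x.2:ℝ) / x.1)
    (1 / (P:ℝ) ^ 2) (by positivity) (by rw [div_le_one (by positivity)]; nlinarith)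
    (farey_sep PP P hP hP1) (fun m => a (M + 1 + m)) H
  refine h4.trans (le_of_eq ?_)
  have h5 : ∑ m ∈ Finset.Ioc M (M + H), ‖a m‖ ^ 2 = ∑ m ∈ range H, ‖a (M + 1 + m)‖ ^ 2 := by
    have : Finset.Ioc M (M + H) = (range H).image (fun m => M + 1 + m) := by
      ext m
      simp only [Finset.mem_Ioc, mem_image, mem_range]
      constructor
      · intro h; exact ⟨m - (M + 1), by omega, by omega⟩
      · rintro ⟨j, hj, rfl⟩; omega
    rw [this, sum_image (fun a _ b _ h => by simpa using h)]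
  rw [h5, one_div_one_div]

end Pool.Agent.Var35
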