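import Pool.Agent.Lib_helper35.Var.Local2

/-! The core inequality -/

set_option autoImplicit false

namespace Pool.Agent.Var35

open Finset Complex
open scoped ArithmeticFunction ArithmeticFunction.Moebius

/-- the length of the `t` range -/
noncomputable def hp (x : ℝ) (q p : ℕ) : ℕ := ⌊(p:ℝ) * q / (8 * x)⌋₊

/-- squarefree moduli -/
def Ss (S : ℕ) : Finset ℕ := (Finset.Icc 1 S).filter Squarefree

lemma hp_le (x : ℝ) (hx : 0 < x) (q p : ℕ) : (hp x q p : ℝ) ≤ (p:ℝ) * q / (8 * x) :=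
  Nat.floor_le (by positivity)

lemma hp_gt (x : ℝ) (q p : ℕ) : (p:ℝ) * q / (8 * x) - 1 < (hp x q p : ℝ) :=
  Nat.sub_one_lt_floor _

/-- total error at `(s,p)` -/
noncomputable def ErrSP (N q s p : ℕ) (x : ℝ) : ℝ :=
  (Real.sqrt p / ((p:ℝ) - 1)) * ((hp x q p : ℝ) * ∑ a ∈ range s, ∑ χ ∈ X p, Qx N q s ⟨p, χ⟩ (a:ℤ))
    + s * (hp x q p : ℝ) * (E0 N (p * s) + (x / (Nat.totient q : ℝ)) * ((s * (hp x q p) : ℕ) : ℝ) ^ 2)

lemma sum_aux (T : Finset ℕ) (A C h : ℝ) (B : ℕ → ℝ) :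
    ∑ c ∈ T, h * (A * B c + C) = A * (h * ∑ c ∈ T, B c) + T.card * (h * C) := by
  have h1 : ∀ c ∈ T, h * (A * B c + C) = (A * h) * B c + h * C := fun c _ => by ring
  rw [sum_congr rfl h1, sum_add_distrib, ← mul_sum, sum_const, nsmul_eq_mul]
  ring

lemma local_lower (N q s p : ℕ) [hpf : Fact p.Prime] (x : ℝ) (hq : 0 < q) (hs : 1 ≤ s) (hN : 1 ≤ N) (hNx : (N:ℝ) ≤ x)
    (hqx : (q:ℝ) ≤ x)
    (hsq : Squarefree s) (hps : Nat.Coprime p s)
    (hb : 26 * s * x ≤ p * q) (hc : 8 * s ≤ hp x q p)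
    (hE : E0 N (q * (p * s)) ≤ (∑ n ∈ Finset.Icc 1 N, Λ n) / 2)
    (b c : ℕ → ℕ → ℕ)
    (hbc : ∀ c0 ∈ Cs s, ∀ t ∈ Ts s q p (hp x q p) c0, c c0 t % s = c0 % s ∧
      b c0 t * (p * s) = c c0 t * q + yy s q c0 t ∧ Nat.Coprime (c c0 t) (p * s)) :
    (1 / ((p:ℝ) - 1)) * ((hp x q p : ℝ) / 16 * ∑ n ∈ Finset.Icc 1 N, Λ n) - ErrSP N q s p x
      ≤ (-(((μ s : ℤ) : ℂ)) * ∑ c0 ∈ Cs s, ∑ t ∈ Ts s q p (hp x q p) c0, FT q (vv N x q) (b c0 t)).re := by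
  have hN0 : (0:ℝ) < N := by exact_mod_cast hN
  have hx0 : 0 < x := lt_of_lt_of_le hN0 hNx
  have hp0 : (0:ℝ) < p := by exact_mod_cast hpf.out.pos
  have hs0 : (0:ℝ) < s := by exact_mod_cast hs
  have hq0 : (0:ℝ) < q := by exact_mod_cast hq
  have hp1 : (0:ℝ) < (p:ℝ) - 1 := by
    have : (1:ℝ) < p := by exact_mod_cast hpf.out.one_lt
    linarith
  set h := hp x q p with hh
  have hhle : (h:ℝ) ≤ (p:ℝ) * q / (8 * x) := hp_le x hx0 q p
  have ha : 8 * x * h ≤ p * q := by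
    rw [le_div_iff₀ (by positivity)] at hhle; linarith
  have hhp : h ≤ p := by
    have h1 : (h:ℝ) ≤ p := by
      refine hhle.trans ?_
      rw [div_le_iff₀ (by positivity)]
      nlinarith
    exact_mod_cast h1
  -- Bezout
  obtain ⟨u, v, huv⟩ : ∃ u v : ℤ, (p:ℤ) * u + s * v = 1 := by
    have h1 : IsCoprime (p:ℤ) (s:ℤ) := Nat.isCoprime_iff_coprime.mpr hps
    obtain ⟨u, v, h2⟩ := h1
    exact ⟨u, v, by linarith⟩
  have hmain := main_part N q s p h x hq hs hNx hsq hps u v huv ha hb hc hhp hE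
  set T1 := ∑ c0 ∈ Cs s, ∑ t ∈ Ts s q p h c0, f1 N q s p u c0 (yy s q c0 t) with hT1
  set D := ∑ c0 ∈ Cs s, ∑ t ∈ Ts s q p h c0, (FT q (vv N x q) (b c0 t) + (1 / ((p:ℂ) - 1)) * f1 N q s p u c0 (yy s q c0 t)) with hD
  have hdec : ∑ c0 ∈ Cs s, ∑ t ∈ Ts s q p h c0, FT q (vv N x q) (b c0 t) = D - (1 / ((p:ℂ) - 1)) * T1 := by
    rw [hD, hT1]
    simp only [sum_add_distrib, mul_sum]
    ring
  have hμn : ‖((μ s : ℤ) : ℂ)‖ ≤ 1 := by
    rw [Complex.norm_intCast]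
    exact_mod_cast ArithmeticFunction.abs_moebius_le_one (n := s)
  -- bound for D
  have hDb : ‖D‖ ≤ ErrSP N q s p x := by
    have h1 : ∀ c0 ∈ Cs s, ∀ t ∈ Ts s q p h c0,
        ‖FT q (vv N x q) (b c0 t) + (1 / ((p:ℂ) - 1)) * f1 N q s p u c0 (yy s q c0 t)‖
        ≤ (Real.sqrt p / ((p:ℝ) - 1)) * (∑ χ ∈ X p, Qx N q s ⟨p, χ⟩ (c0 * u))
          + (E0 N (p * s) + (x / (Nat.totient q : ℝ)) * ((s * h : ℕ) : ℝ) ^ 2) := by
      intro c0 hc0 t ht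
      obtain ⟨e1, e2, e3⟩ := hbc c0 hc0 t ht
      have ht' : t < h := by
        simp only [Ts, mem_filter, mem_range] at ht; exact ht.1
      have hy1 := yy_pos s q c0 t hs
      have hy2 := yy_le s q c0 t h ht'
      refine (FT_point N q s p x hq hs hx0.le u v huv c0 (c c0 t) (b c0 t) (yy s q c0 t) hy1 e1 e2 e3).trans ?_
      refine add_le_add ?_ (add_le_add le_rfl ?_)
      · refine mul_le_mul_of_nonneg_left (sum_le_sum fun χ _ => ?_) (by positivity)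
        refine Dx_le N q s p x hq hs hN hNx χ u c0 (yy s q c0 t) ?_
        have h2 : ((yy s q c0 t : ℕ) : ℝ) ≤ s * h := by exact_mod_cast hy2
        calc 8 * x * ((yy s q c0 t : ℕ) : ℝ) ≤ 8 * x * (s * h) := mul_le_mul_of_nonneg_left h2 (by positivity)
          _ = s * (8 * x * h) := by ring
          _ ≤ s * (p * q) := mul_le_mul_of_nonneg_left ha hs0.le
          _ = p * s * q := by ring
      · refine mul_le_mul_of_nonneg_left ?_ (by positivity)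
        refine pow_le_pow_left₀ (by positivity) ?_ 2
        exact_mod_cast hy2
    have h2 : ‖D‖ ≤ ∑ c0 ∈ Cs s, ∑ t ∈ Ts s q p h c0, ((Real.sqrt p / ((p:ℝ) - 1)) * (∑ χ ∈ X p, Qx N q s ⟨p, χ⟩ (c0 * u))
          + (E0 N (p * s) + (x / (Nat.totient q : ℝ)) * ((s * h : ℕ) : ℝ) ^ 2)) := by
      refine (norm_sum_le _ _).trans (sum_le_sum fun c0 hc0 => ?_)
      exact (norm_sum_le _ _).trans (sum_le_sum fun t ht => h1 c0 hc0 t ht)
    refine h2.trans ?_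
    have hE0 := E0_nonneg N (p * s)
    have hTcard : ∀ c0, ((Ts s q p h c0).card : ℝ) ≤ h := by
      intro c0
      unfold Ts
      have := card_filter_le (range h) (fun t => ¬ p ∣ yy s q c0 t)
      rw [card_range] at this
      exact_mod_cast this
    have h3 : ∑ c0 ∈ Cs s, ∑ t ∈ Ts s q p h c0, ((Real.sqrt p / ((p:ℝ) - 1)) * (∑ χ ∈ X p, Qx N q s ⟨p, χ⟩ (c0 * u))
          + (E0 N (p * s) + (x / (Nat.totient q : ℝ)) * ((s * h : ℕ) : ℝ) ^ 2))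
        ≤ ∑ c0 ∈ Cs s, (h:ℝ) * ((Real.sqrt p / ((p:ℝ) - 1)) * (∑ χ ∈ X p, Qx N q s ⟨p, χ⟩ (c0 * u))
          + (E0 N (p * s) + (x / (Nat.totient q : ℝ)) * ((s * h : ℕ) : ℝ) ^ 2)) := by
      refine sum_le_sum fun c0 _ => ?_
      rw [sum_const, nsmul_eq_mul]
      refine mul_le_mul_of_nonneg_right (hTcard c0) ?_
      have : 0 ≤ ∑ χ ∈ X p, Qx N q s ⟨p, χ⟩ (c0 * u) := sum_nonneg fun _ _ => Qx_nonneg _ _ _ _ _
      positivity
    refine h3.trans ?_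
    unfold ErrSP
    rw [← hh]
    have h4 : ∑ c0 ∈ Cs s, (h:ℝ) * ((Real.sqrt p / ((p:ℝ) - 1)) * (∑ χ ∈ X p, Qx N q s ⟨p, χ⟩ (c0 * u))
          + (E0 N (p * s) + (x / (Nat.totient q : ℝ)) * ((s * h : ℕ) : ℝ) ^ 2))
        = (Real.sqrt p / ((p:ℝ) - 1)) * ((h:ℝ) * ∑ c0 ∈ Cs s, ∑ χ ∈ X p, Qx N q s ⟨p, χ⟩ (c0 * u))
          + (Cs s).card * ((h:ℝ) * (E0 N (p * s) + (x / (Nat.totient q : ℝ)) * ((s * h : ℕ) : ℝ) ^ 2)) := by
      exact sum_aux _ _ _ _ _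
    rw [h4]
    refine add_le_add ?_ ?_
    · refine mul_le_mul_of_nonneg_left (mul_le_mul_of_nonneg_left ?_ (by positivity)) (by positivity)
      rw [sum_comm, sum_comm (s := range s)]
      exact sum_le_sum fun χ _ => sum_Q_le N q s p hs ⟨p, χ⟩ u v huv
    · calc ((Cs s).card : ℝ) * ((h:ℝ) * (E0 N (p * s) + (x / (Nat.totient q : ℝ)) * ((s * h : ℕ) : ℝ) ^ 2))
          ≤ s * ((h:ℝ) * (E0 N (p * s) + (x / (Nat.totient q : ℝ)) * ((s * h : ℕ) : ℝ) ^ 2)) :=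
            mul_le_mul_of_nonneg_right (Cs_card_le s) (by positivity)
        _ = _ := by ring
  rw [hdec]
  have h5 : -(((μ s : ℤ) : ℂ)) * (D - (1 / ((p:ℂ) - 1)) * T1)
      = (((1 / ((p:ℝ) - 1) : ℝ)) : ℂ) * ((((μ s : ℤ) : ℂ)) * T1) - (((μ s : ℤ) : ℂ)) * D := by
    push_cast; ring
  rw [h5, Complex.sub_re, Complex.re_ofReal_mul]
  have h6 : ((((μ s : ℤ) : ℂ)) * D).re ≤ ErrSP N q s p x := by
    refine (Complex.re_le_norm _).trans ?_
    rw [norm_mul]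
    calc ‖((μ s : ℤ) : ℂ)‖ * ‖D‖ ≤ 1 * ‖D‖ := mul_le_mul_of_nonneg_right hμn (norm_nonneg _)
      _ ≤ _ := by rw [one_mul]; exact hDb
  have h7 := mul_le_mul_of_nonneg_left hmain (by positivity : 0 ≤ 1 / ((p:ℝ) - 1))
  linarith

/-- uniqueness of the approximating fraction -/
lemma point_inj (q p s p' s' c c' y y' b : ℕ) (hq : 0 < q) (hp : p.Prime) (hp' : p'.Prime)
    (hs : 1 ≤ s) (hs' : 1 ≤ s') (hsp : s' < p) (hsp' : s < p')
    (hb : b * (p * s) = c * q + y) (hb' : b * (p' * s') = c' * q + y')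
    (hc : Nat.Coprime c (p * s)) (hc' : Nat.Coprime c' (p' * s'))
    (hy : y * (p' * s') < q) (hy' : y' * (p * s) < q) :
    p = p' ∧ s = s' ∧ c = c' ∧ y = y' := by
  have h1 : (q:ℤ) * ((c:ℤ) * (p' * s') - c' * (p * s)) = (y':ℤ) * (p * s) - y * (p' * s') := by
    have e1 : (b:ℤ) * (p * s) = c * q + y := by exact_mod_cast hb
    have e2 : (b:ℤ) * (p' * s') = c' * q + y' := by exact_mod_cast hb'
    linear_combination (p':ℤ) * s' * (-1) * e1 + (p:ℤ) * s * e2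
  have h2 : (y':ℤ) * (p * s) - y * (p' * s') = 0 := by
    refine Int.eq_zero_of_abs_lt_dvd (m := (q:ℤ)) ⟨_, h1.symm⟩ ?_
    have e1 : (y:ℤ) * (p' * s') < q := by exact_mod_cast hy
    have e2 : (y':ℤ) * (p * s) < q := by exact_mod_cast hy'
    have e3 : 0 ≤ (y:ℤ) * (p' * s') := by positivity
    have e4 : 0 ≤ (y':ℤ) * (p * s) := by positivity
    rw [abs_lt]; constructor <;> linarith
  have h3 : (c:ℤ) * (p' * s') - c' * (p * s) = 0 := by
    rw [h2] at h1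
    rcases mul_eq_zero.mp h1 with h | h
    · omega
    · exact h
  have h4 : c * (p' * s') = c' * (p * s) := by
    have : (c:ℤ) * (p' * s') = c' * (p * s) := by linarith
    exact_mod_cast this
  have hd1 : p * s ∣ p' * s' := by
    have : p * s ∣ c * (p' * s') := ⟨c', by rw [h4]; ring⟩
    exact (Nat.Coprime.symm hc).dvd_of_dvd_mul_left this
  have hd2 : p' * s' ∣ p * s := by
    have : p' * s' ∣ c' * (p * s) := ⟨c, by rw [← h4]; ring⟩
    exact (Nat.Coprime.symm hc').dvd_of_dvd_mul_left this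
  have heq : p * s = p' * s' := Nat.dvd_antisymm hd1 hd2
  have hpp : p = p' := by
    have h5 : p ∣ p' * s' := by rw [← heq]; exact Dvd.intro s rfl
    rcases (Nat.Prime.dvd_mul hp).mp h5 with h | h
    · exact (Nat.prime_dvd_prime_iff_eq hp hp').mp h
    · exact absurd (Nat.le_of_dvd hs' h) (by omega)
  subst hpp
  have hss : s = s' := Nat.eq_of_mul_eq_mul_left hp.pos heq
  subst hss
  have hpos : 0 < p * s := Nat.mul_pos hp.pos hs
  have hcc : c = c' := Nat.eq_of_mul_eq_mul_right hpos h4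
  subst hcc
  refine ⟨rfl, rfl, rfl, ?_⟩
  have : (b * (p * s) : ℕ) = c * q + y' := hb'
  omega

end Pool.Agent.Var35
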