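import Pool.Agent.Lib_helper35.Var.Core

/-! The core theorem with explicit numerical hypotheses -/

set_option autoImplicit false

namespace Pool.Agent.Var35

open Finset Complex
open scoped ArithmeticFunction ArithmeticFunction.Moebius

lemma sum_Q_R (N q s P2 : ℕ) (PP : Finset ℕ) (hP : ∀ p ∈ PP, p.Prime ∧ p ≤ P2) (hN : 1 ≤ N) (B Em : ℝ) (a : ℕ)
    (hB : ∀ j ≤ N, ∑ χ ∈ R PP, ‖Fx χ s (a:ℤ) j‖ ≤ B) (hE : E0 N (q * s) ≤ Em) :
    ∑ p ∈ PP, ∑ χ ∈ X p, Qx N q s ⟨p, χ⟩ (a:ℤ) ≤ 2 * B + (P2:ℝ) ^ 2 * Em := by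
  have hN0 : (0:ℝ) < N := by exact_mod_cast hN
  have h0 : ∑ p ∈ PP, ∑ χ ∈ X p, Qx N q s ⟨p, χ⟩ (a:ℤ) = ∑ χ ∈ R PP, Qx N q s χ (a:ℤ) := by
    unfold R; rw [sum_sigma]
  rw [h0]
  unfold Qx
  rw [sum_add_distrib, sum_add_distrib, ← mul_sum, sum_comm]
  have h1 : ∑ j ∈ range N, ∑ χ ∈ R PP, ‖Fx χ s (a:ℤ) j‖ ≤ N * B := by
    calc ∑ j ∈ range N, ∑ χ ∈ R PP, ‖Fx χ s (a:ℤ) j‖ ≤ ∑ j ∈ range N, B :=
          sum_le_sum fun j hj => hB j (mem_range.mp hj).le
      _ = N * B := by rw [sum_const, card_range, nsmul_eq_mul]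
  have h2 : 1 / (N:ℝ) * ∑ j ∈ range N, ∑ χ ∈ R PP, ‖Fx χ s (a:ℤ) j‖ ≤ B := by
    calc 1 / (N:ℝ) * ∑ j ∈ range N, ∑ χ ∈ R PP, ‖Fx χ s (a:ℤ) j‖ ≤ 1 / (N:ℝ) * (N * B) :=
          mul_le_mul_of_nonneg_left h1 (by positivity)
      _ = B := by field_simp
  have h3 : ∑ χ ∈ R PP, E0 N (q * s) ≤ (P2:ℝ) ^ 2 * Em := by
    rw [sum_const, nsmul_eq_mul]
    exact mul_le_mul (card_R_le PP P2 hP) hE (E0_nonneg _ _) (by positivity)
  have h4 := hB N le_rfl
  linarith

theorem core (N q S P1 P2 : ℕ) (x B Em : ℝ) (PP : Finset ℕ)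
    (hN1 : 1 ≤ N) (hNx : (N:ℝ) ≤ x) (hxN : x ≤ 2 * N) (hq : 0 < q) (hqx : (q:ℝ) ≤ x)
    (hPP : ∀ p ∈ PP, p.Prime ∧ ¬ p ∣ q ∧ P1 < p ∧ p ≤ P2)
    (hSP : S ≤ P1) (hP1 : 1 ≤ P1)
    (hsep : ((P2:ℝ) * S) ^ 2 < 8 * x)
    (hb : 26 * S * x ≤ P1 * q) (hc : 8 * x * (8 * S + 1) ≤ P1 * q)
    (hψ : (N:ℝ) / 2 ≤ ∑ n ∈ Finset.Icc 1 N, Λ n)
    (hEm1 : ∀ s ∈ Ss S, ∀ p ∈ PP, E0 N (q * (p * s)) ≤ (N:ℝ) / 4)
    (hEm2 : ∀ s ∈ Ss S, ∀ p ∈ PP, E0 N (p * s) ≤ Em) (hEm3 : ∀ s ∈ Ss S, E0 N (q * s) ≤ Em) (hEm0 : 0 ≤ Em)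
    (hB : ∀ s ∈ Ss S, ∀ a : ℕ, a < s → ∀ j ≤ N, ∑ χ ∈ R PP, ‖Fx χ s (a:ℤ) j‖ ≤ B) (hB0 : 0 ≤ B)
    (hfinal : (2 / Real.sqrt P1) * ((S:ℝ) ^ 2 * (2 * B + (P2:ℝ) ^ 2 * Em))
        + (S:ℝ) ^ 2 * P2 * (Em + (x / (Nat.totient q : ℝ)) * (S * P2 * (q / (8 * x))) ^ 2)
      ≤ (x / 256) * ((∑ s ∈ Ss S, 1 / (Nat.totient s : ℝ)) * ∑ p ∈ PP, 1 / (p:ℝ))) :
    x * ((∑ s ∈ Ss S, 1 / (Nat.totient s : ℝ)) * ∑ p ∈ PP, 1 / (p:ℝ)) / 524288
      ≤ ∑ a ∈ range q, (vv N x q a) ^ 2 := by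
  classical
  have hN0 : (0:ℝ) < N := by exact_mod_cast hN1
  have hx0 : 0 < x := lt_of_lt_of_le hN0 hNx
  have hq0 : (0:ℝ) < q := by exact_mod_cast hq
  have hP1r : (1:ℝ) ≤ P1 := by exact_mod_cast hP1
  set Ls := ∑ s ∈ Ss S, 1 / (Nat.totient s : ℝ) with hLs
  set L := ∑ p ∈ PP, 1 / (p:ℝ) with hL
  have hLs0 : 0 ≤ Ls := sum_nonneg fun _ _ => by positivity
  have hL0 : 0 ≤ L := sum_nonneg fun _ _ => by positivity
  set V := ∑ a ∈ range q, (vv N x q a) ^ 2 with hV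
  have hV0 : 0 ≤ V := sum_nonneg fun _ _ => by positivity
  have hSs : ∀ s ∈ Ss S, 1 ≤ s ∧ s ≤ S ∧ Squarefree s := by
    intro s hs
    unfold Ss at hs
    rw [mem_filter, Finset.mem_Icc] at hs
    exact ⟨hs.1.1, hs.1.2, hs.2⟩
  -- the points
  have hex : ∀ s p c0 t : ℕ, ∃ cb : ℕ × ℕ, s ∈ Ss S → p ∈ PP → c0 ∈ Cs s → t ∈ Ts s q p (hp x q p) c0 →
      (cb.1 < p * s ∧ cb.1 % s = c0 % s ∧ cb.2 * (p * s) = cb.1 * q + yy s q c0 t ∧ Nat.Coprime cb.1 (p * s)) := by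
    intro s p c0 t
    by_cases hcond : s ∈ Ss S ∧ p ∈ PP ∧ c0 ∈ Cs s ∧ t ∈ Ts s q p (hp x q p) c0
    · obtain ⟨h1, h2, h3, h4⟩ := hcond
      obtain ⟨hs1, hs2, _⟩ := hSs s h1
      obtain ⟨hpp, hpq, hpl, _⟩ := hPP p h2
      have hps : Nat.Coprime p s := by
        rw [Nat.Prime.coprime_iff_not_dvd hpp]
        intro h
        exact absurd (Nat.le_of_dvd hs1 h) (by omega)
      unfold Cs at h3
      unfold Ts at h4
      rw [mem_filter] at h3 h4
      obtain ⟨c, b, e1, e2, e3, e4⟩ := exists_point s q p c0 t hs1 hpp hpq hps h3.2 h4.2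
      exact ⟨(c, b), fun _ _ _ _ => ⟨e1, e2, e3, e4⟩⟩
    · refine ⟨(0, 0), fun h1 h2 h3 h4 => absurd ⟨h1, h2, h3, h4⟩ hcond⟩
  choose f hf using hex
  set I : Finset (Σ _ : ℕ, Σ _ : ℕ, Σ _ : ℕ, ℕ) :=
    (Ss S).sigma fun s => PP.sigma fun p => (Cs s).sigma fun c0 => Ts s q p (hp x q p) c0 with hI
  set bf : (Σ _ : ℕ, Σ _ : ℕ, Σ _ : ℕ, ℕ) → ℕ := fun i => (f i.1 i.2.1 i.2.2.1 i.2.2.2).2 with hbf
  set w : (Σ _ : ℕ, Σ _ : ℕ, Σ _ : ℕ, ℕ) → ℝ := fun i => ((μ i.1 : ℤ) : ℝ) / (i.2.1 * (Nat.totient i.1 : ℝ)) with hw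
  -- numerical facts on heights
  have hhp : ∀ p ∈ PP, (p:ℝ) * q / (16 * x) ≤ hp x q p ∧ (hp x q p : ℝ) ≤ (p:ℝ) * q / (8 * x) ∧ 8 * S ≤ hp x q p := by
    intro p h2
    obtain ⟨hpp, hpq, hpl, hpu⟩ := hPP p h2
    have hpr : (P1:ℝ) ≤ p := by exact_mod_cast hpl.le
    have h3 : 8 * x * (8 * S + 1) ≤ p * q := hc.trans (mul_le_mul_of_nonneg_right hpr hq0.le)
    have h4 := hp_gt x q p
    have h5 := hp_le x hx0 q p
    have h6 : 8 * (S:ℝ) + 1 ≤ (p:ℝ) * q / (8 * x) := by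
      rw [le_div_iff₀ (by positivity)]; linarith
    refine ⟨?_, h5, ?_⟩
    · have h7 : (p:ℝ) * q / (8 * x) = 2 * ((p:ℝ) * q / (16 * x)) := by field_simp; ring
      by_cases hS0 : S = 0
      · -- then use h6 with S = 0: p q/(8x) ≥ 1 only; height at least 1
        have h8 : (1:ℝ) ≤ (hp x q p : ℝ) := by
          have : 1 ≤ hp x q p := by
            unfold hp
            rw [Nat.one_le_floor_iff]
            rw [hS0] at h6; push_cast at h6; linarith
          exact_mod_cast this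
        linarith
      · have hS1 : (1:ℝ) ≤ S := by exact_mod_cast Nat.one_le_iff_ne_zero.mpr hS0
        linarith
    · have h8 : (8 * S : ℝ) < hp x q p := by linarith
      have h9 : 8 * S < hp x q p := by exact_mod_cast h8
      exact h9.le
  have hypos : ∀ i ∈ I, bf i < q := by
    rintro ⟨s, p, c0, t⟩ hi
    simp only [hI, mem_sigma] at hi
    obtain ⟨h1, h2, h3, h4⟩ := hi
    obtain ⟨e1, e2, e3, e4⟩ := hf s p c0 t h1 h2 h3 h4
    obtain ⟨hs1, hs2, _⟩ := hSs s h1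
    obtain ⟨hpp, hpq, hpl, hpu⟩ := hPP p h2
    obtain ⟨k1, k2, k3⟩ := hhp p h2
    have ht : t < hp x q p := by
      unfold Ts at h4; rw [mem_filter, mem_range] at h4; exact h4.1
    have hy := yy_le s q c0 t (hp x q p) ht
    have hs0 : (1:ℝ) ≤ s := by exact_mod_cast hs1
    have hp0 : (1:ℝ) ≤ p := by exact_mod_cast hpp.one_le
    have hps1 : (1:ℝ) ≤ (p:ℝ) * s := one_le_mul_of_one_le_of_one_le hp0 hs0
    have hps2 : (p:ℝ) * s ≤ P2 * S := mul_le_mul (by exact_mod_cast hpu) (by exact_mod_cast hs2) (by positivity) (by positivity)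
    have hps3 : (p:ℝ) * s < 8 * x := by
      calc (p:ℝ) * s ≤ (p * s) * (p * s) := le_mul_of_one_le_left (by linarith only [hps1]) hps1
        _ ≤ (P2 * S) * (P2 * S) := mul_le_mul hps2 hps2 (by positivity) (by positivity)
        _ = ((P2:ℝ) * S) ^ 2 := by ring
        _ < 8 * x := hsep
    have hyq : yy s q c0 t < q := by
      have : ((yy s q c0 t : ℕ) : ℝ) < q := by
        calc ((yy s q c0 t : ℕ) : ℝ) ≤ s * hp x q p := by exact_mod_cast hy
          _ ≤ s * ((p:ℝ) * q / (8 * x)) := mul_le_mul_of_nonneg_left k2 (by positivity)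
          _ = ((p:ℝ) * s) * q / (8 * x) := by ring
          _ < q := by
              rw [div_lt_iff₀ (by positivity), mul_comm]
              exact mul_lt_mul_of_pos_left hps3 hq0
      exact_mod_cast this
    have h5 : bf ⟨s, p, c0, t⟩ * (p * s) < q * (p * s) := by
      simp only [hbf]
      rw [e3]
      have : (f s p c0 t).1 + 1 ≤ p * s := e1
      calc (f s p c0 t).1 * q + yy s q c0 t < (f s p c0 t).1 * q + q := by omega
        _ = ((f s p c0 t).1 + 1) * q := by ring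
        _ ≤ (p * s) * q := Nat.mul_le_mul_right q this
        _ = q * (p * s) := by ring
    exact lt_of_mul_lt_mul_right h5 (Nat.zero_le _)
  have hinj : Set.InjOn bf (I : Set _) := by
    rintro ⟨s, p, c0, t⟩ hi ⟨s', p', c0', t'⟩ hi' hbb
    simp only [hI, coe_sigma, Set.mem_sigma_iff, mem_coe] at hi hi'
    obtain ⟨h1, h2, h3, h4⟩ := hi
    obtain ⟨h1', h2', h3', h4'⟩ := hi'
    obtain ⟨e1, e2, e3, e4⟩ := hf s p c0 t h1 h2 h3 h4
    obtain ⟨e1', e2', e3', e4'⟩ := hf s' p' c0' t' h1' h2' h3' h4'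
    obtain ⟨hs1, hs2, _⟩ := hSs s h1
    obtain ⟨hs1', hs2', _⟩ := hSs s' h1'
    obtain ⟨hpp, hpq, hpl, hpu⟩ := hPP p h2
    obtain ⟨hpp', hpq', hpl', hpu'⟩ := hPP p' h2'
    obtain ⟨k1, k2, k3⟩ := hhp p h2
    obtain ⟨k1', k2', k3'⟩ := hhp p' h2'
    have ht : t < hp x q p := by
      unfold Ts at h4; rw [mem_filter, mem_range] at h4; exact h4.1
    have ht' : t' < hp x q p' := by
      unfold Ts at h4'; rw [mem_filter, mem_range] at h4'; exact h4'.1
    have hbig : ∀ s p s' p' t c0 : ℕ, 1 ≤ s → s ≤ S → 1 ≤ s' → s' ≤ S → p ≤ P2 → p' ≤ P2 → 1 ≤ p → 1 ≤ p' →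
        t < hp x q p → (hp x q p : ℝ) ≤ (p:ℝ) * q / (8 * x) → yy s q c0 t * (p' * s') < q := by
      intro s p s' p' t c0 hs1 hs2 hs1' hs2' hpu hpu' hp1 hp1' ht k2
      have hy := yy_le s q c0 t (hp x q p) ht
      have hps2 : (p:ℝ) * s ≤ P2 * S := mul_le_mul (by exact_mod_cast hpu) (by exact_mod_cast hs2) (by positivity) (by positivity)
      have hps2' : (p':ℝ) * s' ≤ P2 * S := mul_le_mul (by exact_mod_cast hpu') (by exact_mod_cast hs2') (by positivity) (by positivity)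
      have : ((yy s q c0 t * (p' * s') : ℕ) : ℝ) < q := by
        push_cast
        calc ((yy s q c0 t : ℕ) : ℝ) * (p' * s') ≤ (s * hp x q p) * (p' * s') :=
              mul_le_mul_of_nonneg_right (by exact_mod_cast hy) (by positivity)
          _ ≤ (s * ((p:ℝ) * q / (8 * x))) * (p' * s') :=
              mul_le_mul_of_nonneg_right (mul_le_mul_of_nonneg_left k2 (by positivity)) (by positivity)
          _ = ((p:ℝ) * s) * (p' * s') * q / (8 * x) := by ring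
          _ ≤ (P2 * S) * (P2 * S) * q / (8 * x) := by
              refine div_le_div_of_nonneg_right ?_ (by positivity)
              exact mul_le_mul_of_nonneg_right (mul_le_mul hps2 hps2' (by positivity) (by positivity)) hq0.le
          _ < q := by
              rw [div_lt_iff₀ (by positivity)]
              have : (P2:ℝ) * S * (P2 * S) = ((P2:ℝ) * S) ^ 2 := by ring
              rw [this, mul_comm]
              exact mul_lt_mul_of_pos_left hsep hq0
      exact_mod_cast this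
    have hy1 := hbig s p s' p' t c0 hs1 hs2 hs1' hs2' hpu hpu' hpp.one_le hpp'.one_le ht k2
    have hy2 := hbig s' p' s p t' c0' hs1' hs2' hs1 hs2 hpu' hpu hpp'.one_le hpp.one_le ht' k2'
    simp only [hbf] at hbb
    rw [← hbb] at e3'
    obtain ⟨q1, q2, q3, q4⟩ := point_inj q p s p' s' _ _ _ _ _ hq hpp hpp' hs1 hs1' (by omega) (by omega) e3 e3' e4 e4' hy1 hy2
    subst q1
    subst q2
    have hc0 : c0 = c0' := by
      unfold Cs at h3 h3'
      rw [mem_filter, mem_range] at h3 h3'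
      rw [← Nat.mod_eq_of_lt h3.1, ← Nat.mod_eq_of_lt h3'.1, ← e2, ← e2', q3]
    subst hc0
    have htt : t = t' := by
      unfold yy at q4
      have : s * t = s * t' := by omega
      exact Nat.eq_of_mul_eq_mul_left (by omega) this
    subst htt
    rfl
  have hfl := func_lower q hq (vv N x q) I bf hypos hinj w
  rw [← hV] at hfl
  set W := ∑ i ∈ I, (w i : ℂ) * FT q (vv N x q) (bf i) with hW
  -- L2 norm of the weights
  have hw2 : ∑ i ∈ I, (w i) ^ 2 ≤ (q / (8 * x)) * (Ls * L) := by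
    have h1 : ∑ i ∈ I, (w i) ^ 2
        = ∑ s ∈ Ss S, ∑ p ∈ PP, ∑ c0 ∈ Cs s, ∑ t ∈ Ts s q p (hp x q p) c0, (((μ s : ℤ) : ℝ) / (p * (Nat.totient s : ℝ))) ^ 2 := by
      rw [hI, sum_sigma]
      refine sum_congr rfl fun s _ => ?_
      rw [sum_sigma]
      refine sum_congr rfl fun p _ => ?_
      rw [sum_sigma]
    rw [h1, hLs, hL, sum_mul_sum, mul_sum]
    refine sum_le_sum fun s hs => ?_
    rw [mul_sum]
    refine sum_le_sum fun p hpm => ?_
    obtain ⟨hs1, hs2, hsq⟩ := hSs s hs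
    obtain ⟨hpp, hpq, hpl, hpu⟩ := hPP p hpm
    obtain ⟨k1, k2, k3⟩ := hhp p hpm
    have hp0 : (0:ℝ) < p := by exact_mod_cast hpp.pos
    have hφ0 : (0:ℝ) < Nat.totient s := by exact_mod_cast Nat.totient_pos.mpr hs1
    have hμ : (((μ s : ℤ) : ℝ)) ^ 2 = 1 := by
      have := ArithmeticFunction.moebius_sq_eq_one_of_squarefree hsq
      exact_mod_cast this
    have h2 : ∀ c0 ∈ Cs s, ∑ t ∈ Ts s q p (hp x q p) c0, (((μ s : ℤ) : ℝ) / (p * (Nat.totient s : ℝ))) ^ 2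
        ≤ ((p:ℝ) * q / (8 * x)) * (1 / (p * (Nat.totient s : ℝ)) ^ 2) := by
      intro c0 _
      rw [sum_const, nsmul_eq_mul, div_pow, hμ]
      refine mul_le_mul_of_nonneg_right ?_ (by positivity)
      have h3 : ((Ts s q p (hp x q p) c0).card : ℝ) ≤ hp x q p := by
        unfold Ts
        have := card_filter_le (range (hp x q p)) (fun t => ¬ p ∣ yy s q c0 t)
        rw [card_range] at this
        exact_mod_cast this
      exact h3.trans k2
    refine (sum_le_sum h2).trans ?_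
    rw [sum_const, nsmul_eq_mul, Cs_card]
    refine le_of_eq ?_
    field_simp
  -- lower bound for W
  have hWlow : (q / 2048) * (Ls * L) ≤ ‖W‖ := by
    have h1 : W = ∑ s ∈ Ss S, ∑ p ∈ PP, ((((μ s : ℤ) : ℝ) / (p * (Nat.totient s : ℝ)) : ℝ) : ℂ)
        * ∑ c0 ∈ Cs s, ∑ t ∈ Ts s q p (hp x q p) c0, FT q (vv N x q) ((f s p c0 t).2) := by
      rw [hW, hI, sum_sigma]
      refine sum_congr rfl fun s _ => ?_
      rw [sum_sigma]
      refine sum_congr rfl fun p _ => ?_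
      rw [sum_sigma, mul_sum]
      refine sum_congr rfl fun c0 _ => ?_
      rw [mul_sum]
    have h2 : ∀ s ∈ Ss S, ∀ p ∈ PP, (1 / (p * (Nat.totient s : ℝ))) * (q / 1024 - ErrSP N q s p x)
        ≤ (-(((((μ s : ℤ) : ℝ) / (p * (Nat.totient s : ℝ)) : ℝ) : ℂ)
        * ∑ c0 ∈ Cs s, ∑ t ∈ Ts s q p (hp x q p) c0, FT q (vv N x q) ((f s p c0 t).2))).re := by
      intro s hs p hpm
      obtain ⟨hs1, hs2, hsq⟩ := hSs s hs
      obtain ⟨hpp, hpq, hpl, hpu⟩ := hPP p hpm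
      obtain ⟨k1, k2, k3⟩ := hhp p hpm
      have hFact : Fact p.Prime := ⟨hpp⟩
      have hp0 : (0:ℝ) < p := by exact_mod_cast hpp.pos
      have hp1 : (0:ℝ) < (p:ℝ) - 1 := by
        have : (1:ℝ) < p := by exact_mod_cast hpp.one_lt
        linarith
      have hφ0 : (0:ℝ) < Nat.totient s := by exact_mod_cast Nat.totient_pos.mpr hs1
      have hps : Nat.Coprime p s := by
        rw [Nat.Prime.coprime_iff_not_dvd hpp]
        intro h
        exact absurd (Nat.le_of_dvd hs1 h) (by omega)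
      have hsr : (s:ℝ) ≤ S := by exact_mod_cast hs2
      have hpr : (P1:ℝ) ≤ p := by exact_mod_cast hpl.le
      have hb' : 26 * s * x ≤ p * q := by
        calc 26 * s * x ≤ 26 * S * x := by
              refine mul_le_mul_of_nonneg_right (mul_le_mul_of_nonneg_left hsr (by norm_num)) hx0.le
          _ ≤ P1 * q := hb
          _ ≤ p * q := mul_le_mul_of_nonneg_right hpr hq0.le
      have hE' : E0 N (q * (p * s)) ≤ (∑ n ∈ Finset.Icc 1 N, Λ n) / 2 := by
        have := hEm1 s hs p hpm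
        linarith
      have hloc := local_lower N q s p x hq hs1 hN1 hNx hqx hsq hps hb' (le_trans (Nat.mul_le_mul_left 8 hs2) k3) hE'
        (fun c0 t => (f s p c0 t).2) (fun c0 t => (f s p c0 t).1)
        (fun c0 hc0 t ht => ⟨(hf s p c0 t hs hpm hc0 ht).2.1, (hf s p c0 t hs hpm hc0 ht).2.2.1, (hf s p c0 t hs hpm hc0 ht).2.2.2⟩)
      have hmain : (q:ℝ) / 1024 ≤ (1 / ((p:ℝ) - 1)) * ((hp x q p : ℝ) / 16 * ∑ n ∈ Finset.Icc 1 N, Λ n) := by
        have e1 : ((p:ℝ) - 1) * (q / (16 * x)) ≤ hp x q p := by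
          refine le_trans ?_ k1
          have : (p:ℝ) * q / (16 * x) = p * (q / (16 * x)) := by ring
          rw [this]
          refine mul_le_mul_of_nonneg_right (by linarith) (by positivity)
        have e2 : x / 4 ≤ ∑ n ∈ Finset.Icc 1 N, Λ n := by linarith
        calc (q:ℝ) / 1024 = (1 / ((p:ℝ) - 1)) * ((((p:ℝ) - 1) * (q / (16 * x))) / 16 * (x / 4)) := by
              field_simp; ring
          _ ≤ _ := by
              refine mul_le_mul_of_nonneg_left ?_ (by positivity)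
              exact mul_le_mul (by linarith) e2 (by positivity) (by positivity)
      have h3 : -(((((μ s : ℤ) : ℝ) / (p * (Nat.totient s : ℝ)) : ℝ) : ℂ)
          * ∑ c0 ∈ Cs s, ∑ t ∈ Ts s q p (hp x q p) c0, FT q (vv N x q) ((f s p c0 t).2))
          = (((1 / (p * (Nat.totient s : ℝ)) : ℝ)) : ℂ) * (-(((μ s : ℤ) : ℂ)) *
            ∑ c0 ∈ Cs s, ∑ t ∈ Ts s q p (hp x q p) c0, FT q (vv N x q) ((f s p c0 t).2)) := by
        push_cast; ring
      rw [h3, Complex.re_ofReal_mul]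
      refine mul_le_mul_of_nonneg_left ?_ (by positivity)
      linarith
    -- the total error
    have h4 : ∑ s ∈ Ss S, ∑ p ∈ PP, (1 / (p * (Nat.totient s : ℝ))) * ErrSP N q s p x ≤ (q / (8 * x)) *
        ((2 / Real.sqrt P1) * ((S:ℝ) ^ 2 * (2 * B + (P2:ℝ) ^ 2 * Em))
        + (S:ℝ) ^ 2 * P2 * (Em + (x / (Nat.totient q : ℝ)) * (S * P2 * (q / (8 * x))) ^ 2)) := by
      have h5 : ∀ s ∈ Ss S, ∀ p ∈ PP, (1 / (p * (Nat.totient s : ℝ))) * ErrSP N q s p x
          ≤ (q / (8 * x)) * ((2 / Real.sqrt P1) * ∑ a ∈ range s, ∑ χ ∈ X p, Qx N q s ⟨p, χ⟩ (a:ℤ)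
            + S * (Em + (x / (Nat.totient q : ℝ)) * (S * P2 * (q / (8 * x))) ^ 2)) := by
        intro s hs p hpm
        obtain ⟨hs1, hs2, hsq⟩ := hSs s hs
        obtain ⟨hpp, hpq, hpl, hpu⟩ := hPP p hpm
        obtain ⟨k1, k2, k3⟩ := hhp p hpm
        have hp0 : (0:ℝ) < p := by exact_mod_cast hpp.pos
        have hp2 : (2:ℝ) ≤ p := by exact_mod_cast hpp.two_le
        have hp1 : (0:ℝ) < (p:ℝ) - 1 := by linarith
        have hφ1 : (1:ℝ) ≤ Nat.totient s := by exact_mod_cast Nat.totient_pos.mpr hs1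
        have hsr : (s:ℝ) ≤ S := by exact_mod_cast hs2
        have hs0 : (0:ℝ) ≤ s := Nat.cast_nonneg s
        have hpr : (P1:ℝ) ≤ p := by exact_mod_cast hpl.le
        have hpu' : (p:ℝ) ≤ P2 := by exact_mod_cast hpu
        have hE0 := E0_nonneg N (p * s)
        have hE2 := hEm2 s hs p hpm
        set QQ := ∑ a ∈ range s, ∑ χ ∈ X p, Qx N q s ⟨p, χ⟩ (a:ℤ) with hQQ
        have hQQ0 : 0 ≤ QQ := sum_nonneg fun _ _ => sum_nonneg fun _ _ => Qx_nonneg _ _ _ _ _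
        have hErr0 : 0 ≤ ErrSP N q s p x := by
          unfold ErrSP; positivity
        have e1 : (1 / (p * (Nat.totient s : ℝ))) * ErrSP N q s p x ≤ (1 / (p:ℝ)) * ErrSP N q s p x := by
          refine mul_le_mul_of_nonneg_right ?_ hErr0
          refine one_div_le_one_div_of_le hp0 ?_
          exact le_mul_of_one_le_right hp0.le hφ1
        refine e1.trans ?_
        unfold ErrSP
        rw [← hQQ]
        refine le_trans (le_of_eq (mul_add (1 / (p:ℝ)) _ _)) ?_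
        refine le_trans ?_ (le_of_eq (mul_add ((q:ℝ) / (8 * x)) _ _).symm)
        refine add_le_add ?_ ?_
        · have e2 : Real.sqrt p / ((p:ℝ) - 1) ≤ 2 / Real.sqrt P1 := by
            have hsp : 0 < Real.sqrt p := Real.sqrt_pos.mpr hp0
            have hsP1 : 0 < Real.sqrt P1 := Real.sqrt_pos.mpr (by linarith)
            rw [div_le_div_iff₀ hp1 hsP1]
            have e3 : Real.sqrt P1 ≤ Real.sqrt p := Real.sqrt_le_sqrt hpr
            have e4 : Real.sqrt p * Real.sqrt p = p := Real.mul_self_sqrt hp0.le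
            calc Real.sqrt p * Real.sqrt P1 ≤ Real.sqrt p * Real.sqrt p := mul_le_mul_of_nonneg_left e3 hsp.le
              _ = p := e4
              _ ≤ 2 * ((p:ℝ) - 1) := by linarith
          calc (1 / (p:ℝ)) * ((Real.sqrt p / ((p:ℝ) - 1)) * ((hp x q p : ℝ) * QQ))
              = (1 / (p:ℝ)) * (hp x q p : ℝ) * ((Real.sqrt p / ((p:ℝ) - 1)) * QQ) := by ring
            _ ≤ (1 / (p:ℝ)) * ((p:ℝ) * q / (8 * x)) * ((2 / Real.sqrt P1) * QQ) := by
                refine mul_le_mul (mul_le_mul_of_nonneg_left k2 (by positivity)) (mul_le_mul_of_nonneg_right e2 hQQ0) (by positivity) (by positivity)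
            _ = _ := by field_simp
        · have e2 : (((s * (hp x q p) : ℕ) : ℝ)) ≤ S * P2 * (q / (8 * x)) := by
            push_cast
            calc (s:ℝ) * (hp x q p : ℝ) ≤ S * ((p:ℝ) * q / (8 * x)) := mul_le_mul hsr k2 (by positivity) (by positivity)
              _ = S * p * (q / (8 * x)) := by ring
              _ ≤ S * P2 * (q / (8 * x)) := by
                  refine mul_le_mul_of_nonneg_right (mul_le_mul_of_nonneg_left hpu' (by positivity)) (by positivity)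
          have e3 : E0 N (p * s) + (x / (Nat.totient q : ℝ)) * ((s * (hp x q p) : ℕ) : ℝ) ^ 2
              ≤ Em + (x / (Nat.totient q : ℝ)) * (S * P2 * (q / (8 * x))) ^ 2 := by
            refine add_le_add hE2 (mul_le_mul_of_nonneg_left (pow_le_pow_left₀ (by positivity) e2 2) (by positivity))
          calc (1 / (p:ℝ)) * (s * (hp x q p : ℝ) * (E0 N (p * s) + (x / (Nat.totient q : ℝ)) * ((s * (hp x q p) : ℕ) : ℝ) ^ 2))
              = (1 / (p:ℝ)) * (hp x q p : ℝ) * (s * (E0 N (p * s) + (x / (Nat.totient q : ℝ)) * ((s * (hp x q p) : ℕ) : ℝ) ^ 2)) := by ring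
            _ ≤ (1 / (p:ℝ)) * ((p:ℝ) * q / (8 * x)) * (S * (Em + (x / (Nat.totient q : ℝ)) * (S * P2 * (q / (8 * x))) ^ 2)) := by
                refine mul_le_mul (mul_le_mul_of_nonneg_left k2 (by positivity)) (mul_le_mul hsr e3 (by positivity) (by positivity)) (by positivity) (by positivity)
            _ = _ := by field_simp
      have h6 : ∑ s ∈ Ss S, ∑ p ∈ PP, (1 / (p * (Nat.totient s : ℝ))) * ErrSP N q s p x
          ≤ ∑ s ∈ Ss S, (q / (8 * x)) * ((2 / Real.sqrt P1) * (S * (2 * B + (P2:ℝ) ^ 2 * Em))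
            + P2 * (S * (Em + (x / (Nat.totient q : ℝ)) * (S * P2 * (q / (8 * x))) ^ 2))) := by
        refine sum_le_sum fun s hs => ?_
        obtain ⟨hs1, hs2, hsq⟩ := hSs s hs
        refine (sum_le_sum fun p hpm => h5 s hs p hpm).trans ?_
        rw [← mul_sum, sum_add_distrib, ← mul_sum, sum_const, nsmul_eq_mul]
        refine mul_le_mul_of_nonneg_left (add_le_add ?_ ?_) (by positivity)
        · refine mul_le_mul_of_nonneg_left ?_ (by positivity)
          rw [sum_comm]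
          calc ∑ a ∈ range s, ∑ p ∈ PP, ∑ χ ∈ X p, Qx N q s ⟨p, χ⟩ (a:ℤ)
              ≤ ∑ a ∈ range s, (2 * B + (P2:ℝ) ^ 2 * Em) := by
                refine sum_le_sum fun a ha => ?_
                exact sum_Q_R N q s P2 PP (fun p hpm => ⟨(hPP p hpm).1, (hPP p hpm).2.2.2⟩) hN1 B Em a
                  (fun j hj => hB s hs a (mem_range.mp ha) j hj) (hEm3 s hs)
            _ = s * (2 * B + (P2:ℝ) ^ 2 * Em) := by rw [sum_const, card_range, nsmul_eq_mul]
            _ ≤ S * (2 * B + (P2:ℝ) ^ 2 * Em) := by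
                refine mul_le_mul_of_nonneg_right (by exact_mod_cast hs2) (by positivity)
        · refine mul_le_mul_of_nonneg_right ?_ (by positivity)
          exact card_PP_le PP P2 (fun p hpm => ⟨(hPP p hpm).1, (hPP p hpm).2.2.2⟩)
      refine h6.trans ?_
      rw [sum_const, nsmul_eq_mul]
      have hcardS : ((Ss S).card : ℝ) ≤ S := by
        unfold Ss
        have := card_filter_le (Finset.Icc 1 S) Squarefree
        rw [Nat.card_Icc, Nat.add_sub_cancel] at this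
        exact_mod_cast this
      calc ((Ss S).card : ℝ) * ((q / (8 * x)) * ((2 / Real.sqrt P1) * (S * (2 * B + (P2:ℝ) ^ 2 * Em))
            + P2 * (S * (Em + (x / (Nat.totient q : ℝ)) * (S * P2 * (q / (8 * x))) ^ 2))))
          ≤ S * ((q / (8 * x)) * ((2 / Real.sqrt P1) * (S * (2 * B + (P2:ℝ) ^ 2 * Em))
            + P2 * (S * (Em + (x / (Nat.totient q : ℝ)) * (S * P2 * (q / (8 * x))) ^ 2)))) :=
            mul_le_mul_of_nonneg_right hcardS (by positivity)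
        _ = _ := by ring
    have h7 : ∑ s ∈ Ss S, ∑ p ∈ PP, (1 / (p * (Nat.totient s : ℝ))) * (q / 1024 - ErrSP N q s p x) ≤ ‖W‖ := by
      have h8 : ‖W‖ = ‖-W‖ := (norm_neg _).symm
      rw [h8]
      refine le_trans ?_ (Complex.re_le_norm _)
      rw [h1, ← sum_neg_distrib, Complex.re_sum]
      refine sum_le_sum fun s hs => ?_
      rw [← sum_neg_distrib, Complex.re_sum]
      exact sum_le_sum fun p hpm => h2 s hs p hpm
    have h9 : ∑ s ∈ Ss S, ∑ p ∈ PP, (1 / (p * (Nat.totient s : ℝ))) * (q / 1024 - ErrSP N q s p x)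
        = (q / 1024) * (Ls * L) - ∑ s ∈ Ss S, ∑ p ∈ PP, (1 / (p * (Nat.totient s : ℝ))) * ErrSP N q s p x := by
      rw [hLs, hL, sum_mul_sum, mul_sum, ← sum_sub_distrib]
      refine sum_congr rfl fun s _ => ?_
      rw [mul_sum, ← sum_sub_distrib]
      refine sum_congr rfl fun p _ => ?_
      have : (1:ℝ) / (p * (Nat.totient s : ℝ)) = 1 / (Nat.totient s : ℝ) * (1 / (p:ℝ)) := by
        rw [one_div_mul_one_div, mul_comm (p:ℝ)]
      rw [this]; ring
    rw [h9] at h7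
    have h10 := mul_le_mul_of_nonneg_left hfinal (by positivity : 0 ≤ (q:ℝ) / (8 * x))
    have h11 : (q:ℝ) / (8 * x) * ((x / 256) * (Ls * L)) = (q / 2048) * (Ls * L) := by field_simp; ring
    rw [h11] at h10
    have h12 : (q:ℝ) / 1024 * (Ls * L) = 2 * ((q / 2048) * (Ls * L)) := by ring
    linarith
  -- conclusion
  have hLL : 0 ≤ Ls * L := mul_nonneg hLs0 hL0
  rcases eq_or_lt_of_le hLL with h0 | h0
  · rw [← h0]; simpa using hV0
  have h13 : ((q / 2048) * (Ls * L)) ^ 2 ≤ ((q / (8 * x)) * (Ls * L)) * (q * V) := by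
    calc ((q / 2048) * (Ls * L)) ^ 2 ≤ ‖W‖ ^ 2 := pow_le_pow_left₀ (by positivity) hWlow 2
      _ ≤ _ := hfl
      _ ≤ _ := mul_le_mul_of_nonneg_right hw2 (by positivity)
  have h14 : (q ^ 2 * (Ls * L) / (8 * x)) * (x * (Ls * L) / 524288) ≤ (q ^ 2 * (Ls * L) / (8 * x)) * V := by
    calc (q ^ 2 * (Ls * L) / (8 * x)) * (x * (Ls * L) / 524288) = ((q / 2048) * (Ls * L)) ^ 2 := by
          field_simp; ring
      _ ≤ _ := h13
      _ = _ := by ring
  exact le_of_mul_le_mul_left h14 (by positivity)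

end Pool.Agent.Var35
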