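import Pool.Agent.Lib_helper35.Var.Primes

/-! Parseval modulo q, the Fourier transform of the discrepancy, expansion of additive characters -/

set_option autoImplicit false

namespace Pool.Agent.Var35

open Finset Complex
open scoped ArithmeticFunction

/-- discrete Fourier transform modulo `q` -/
noncomputable def FT (q : ℕ) (v : ℕ → ℝ) (b : ℕ) : ℂ := ∑ a ∈ range q, (v a : ℂ) * e (a * (b / q))

lemma parseval (q : ℕ) (hq : 0 < q) (v : ℕ → ℝ) :
    ∑ b ∈ range q, ‖FT q v b‖ ^ 2 = q * ∑ a ∈ range q, (v a) ^ 2 := by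
  have hc : ((∑ b ∈ range q, ‖FT q v b‖ ^ 2 : ℝ) : ℂ) = ((q * ∑ a ∈ range q, (v a) ^ 2 : ℝ) : ℂ) := by
    push_cast
    have h1 : ∀ b ∈ range q, ((‖FT q v b‖ : ℂ)) ^ 2
        = ∑ a ∈ range q, ∑ a' ∈ range q, ((v a : ℂ) * (v a' : ℂ)) * e (b * (((a:ℤ) - a' : ℤ) / q)) := by
      intro b _
      have : ((‖FT q v b‖ : ℂ)) ^ 2 = FT q v b * (starRingEnd ℂ) (FT q v b) := by
        rw [Complex.mul_conj, Complex.normSq_eq_norm_sq]; push_cast; rfl
      rw [this]
      unfold FT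
      rw [map_sum, sum_mul_sum]
      refine sum_congr rfl fun a _ => sum_congr rfl fun a' _ => ?_
      rw [map_mul, Complex.conj_ofReal, ← e_neg]
      calc (v a : ℂ) * e (a * (b / q)) * ((v a' : ℂ) * e (-(a' * (b / q))))
          = ((v a : ℂ) * (v a' : ℂ)) * (e (a * (b / q)) * e (-(a' * (b / q)))) := by ring
        _ = _ := by
            rw [← e_add]; congr 2; push_cast; ring
    rw [sum_congr rfl h1, sum_comm, mul_sum]
    refine sum_congr rfl fun a ha => ?_
    rw [mem_range] at ha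
    rw [sum_comm]
    have h2 : ∀ a' ∈ range q, ∑ b ∈ range q, ((v a : ℂ) * (v a' : ℂ)) * e (b * (((a:ℤ) - a' : ℤ) / q))
        = if a' = a then (q:ℂ) * (v a : ℂ) ^ 2 else 0 := by
      intro a' ha'
      rw [mem_range] at ha'
      rw [← mul_sum, sum_roots q hq]
      by_cases h : a' = a
      · subst h; simp; ring
      · rw [if_neg h, if_neg, mul_zero]
        intro hd
        have := Int.eq_zero_of_abs_lt_dvd hd (by rw [abs_lt]; omega)
        omega
    rw [sum_congr rfl h2, Finset.sum_ite_eq' (range q) a, if_pos (mem_range.mpr ha)]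
  exact_mod_cast hc

lemma func_lower {ι : Type*} (q : ℕ) (hq : 0 < q) (v : ℕ → ℝ) (I : Finset ι) (b : ι → ℕ)
    (hb : ∀ i ∈ I, b i < q) (hinj : Set.InjOn b (I : Set ι)) (w : ι → ℝ) :
    ‖∑ i ∈ I, (w i : ℂ) * FT q v (b i)‖ ^ 2 ≤ (∑ i ∈ I, (w i) ^ 2) * (q * ∑ a ∈ range q, (v a) ^ 2) := by
  classical
  have h1 : ‖∑ i ∈ I, (w i : ℂ) * FT q v (b i)‖ ≤ ∑ i ∈ I, |w i| * ‖FT q v (b i)‖ := by
    refine (norm_sum_le _ _).trans (sum_le_sum fun i _ => ?_)
    rw [norm_mul, Complex.norm_real, Real.norm_eq_abs]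
  have h2 : (∑ i ∈ I, |w i| * ‖FT q v (b i)‖) ^ 2 ≤ (∑ i ∈ I, |w i| ^ 2) * ∑ i ∈ I, ‖FT q v (b i)‖ ^ 2 :=
    Finset.sum_mul_sq_le_sq_mul_sq _ _ _
  have h3 : ∑ i ∈ I, ‖FT q v (b i)‖ ^ 2 ≤ q * ∑ a ∈ range q, (v a) ^ 2 := by
    rw [← parseval q hq v, ← sum_image (f := fun c => ‖FT q v c‖ ^ 2) hinj]
    refine sum_le_sum_of_subset_of_nonneg ?_ fun _ _ _ => by positivity
    intro c hc
    rw [mem_image] at hc
    obtain ⟨i, hi, rfl⟩ := hc
    exact mem_range.mpr (hb i hi)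
  have h4 : ∑ i ∈ I, |w i| ^ 2 = ∑ i ∈ I, (w i) ^ 2 := sum_congr rfl fun i _ => sq_abs _
  rw [h4] at h2
  calc ‖∑ i ∈ I, (w i : ℂ) * FT q v (b i)‖ ^ 2 ≤ (∑ i ∈ I, |w i| * ‖FT q v (b i)‖) ^ 2 :=
        pow_le_pow_left₀ (norm_nonneg _) h1 2
    _ ≤ _ := h2
    _ ≤ _ := mul_le_mul_of_nonneg_left h3 (sum_nonneg fun _ _ => by positivity)

/-- the discrepancy -/
noncomputable def vv (N : ℕ) (x : ℝ) (q : ℕ) (a : ℕ) : ℝ :=
  if Nat.Coprime a q then (∑ n ∈ (Finset.Icc 1 N).filter (fun n => n % q = a), Λ n) - x / (Nat.totient q : ℝ) else 0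

lemma FT_vv (N : ℕ) (x : ℝ) (q : ℕ) (hq : 0 < q) (b : ℕ) :
    FT q (vv N x q) b = ∑ n ∈ (Finset.Icc 1 N).filter (fun n => Nat.Coprime n q), ((Λ n : ℝ) : ℂ) * e (n * (b / q))
      - ((x / (Nat.totient q : ℝ) : ℝ) : ℂ) * ram q b := by
  unfold FT vv ram
  have h1 : ∀ a ∈ range q, (((if Nat.Coprime a q then (∑ n ∈ (Finset.Icc 1 N).filter (fun n => n % q = a), Λ n) - x / (Nat.totient q : ℝ) else 0) : ℝ) : ℂ) * e (a * (b / q))
      = ∑ n ∈ (Finset.Icc 1 N).filter (fun n => n % q = a), (if Nat.Coprime n q then ((Λ n : ℝ) : ℂ) * e (n * (b / q)) else 0)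
        - (if Nat.Coprime a q then ((x / (Nat.totient q : ℝ) : ℝ) : ℂ) * e (a * (b / q)) else 0) := by
    intro a _
    have h2 : ∀ n ∈ (Finset.Icc 1 N).filter (fun n => n % q = a),
        (if Nat.Coprime n q then ((Λ n : ℝ) : ℂ) * e (n * (b / q)) else 0)
        = (if Nat.Coprime a q then ((Λ n : ℝ) : ℂ) * e (a * (b / q)) else 0) := by
      intro n hn
      rw [mem_filter] at hn
      have hcop : Nat.Coprime n q ↔ Nat.Coprime a q := by
        rw [← hn.2]
        unfold Nat.Coprime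
        rw [Nat.gcd_comm (n % q) q, Nat.gcd_comm n q, Nat.gcd_rec q n, Nat.gcd_comm (n % q) q]
      have he : e (n * (b / q)) = e (a * (b / q)) := by
        obtain ⟨r, h3⟩ : ∃ r : ℕ, (n:ℝ) = q * r + a := by
          refine ⟨n / q, ?_⟩
          have := Nat.div_add_mod n q
          rw [hn.2] at this
          exact_mod_cast this.symm
        have hq0 : (q:ℝ) ≠ 0 := by positivity
        have h4 : (n:ℝ) * (b / q) = a * (b / q) + (((r : ℤ) * b : ℤ) : ℝ) := by
          push_cast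
          rw [h3]
          field_simp
          ring
        rw [h4, e_add_int]
      rw [he]
      by_cases hc : Nat.Coprime a q
      · rw [if_pos hc, if_pos (hcop.mpr hc)]
      · rw [if_neg hc, if_neg (fun h => hc (hcop.mp h))]
    rw [sum_congr rfl h2]
    by_cases hc : Nat.Coprime a q
    · simp only [if_pos hc]
      rw [← sum_mul]
      push_cast
      ring
    · simp only [if_neg hc]; simp
  rw [sum_congr rfl h1, sum_sub_distrib]
  congr 1
  · rw [sum_fiberwise_of_maps_to (fun n _ => mem_range.mpr (Nat.mod_lt n hq)), ← sum_filter]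
  · rw [← sum_filter, mul_sum]; rfl

section

variable (p : ℕ) [hp : Fact p.Prime]

lemma addchar_expand (m : ZMod p) (hm : m ≠ 0) :
    ZMod.stdAddChar (N := p) m = -(1 / ((p:ℂ) - 1))
      + (1 / ((p:ℂ) - 1)) * ∑ χ ∈ X p, gaussSum χ⁻¹ (ZMod.stdAddChar (N := p)) * χ m := by
  classical
  set ψ := ZMod.stdAddChar (N := p) with hψ
  have hp1 : ((p:ℂ) - 1) ≠ 0 := by
    rw [sub_ne_zero]
    exact_mod_cast hp.out.one_lt.ne'
  have h1 : ∑ χ : DirichletCharacter ℂ p, gaussSum χ⁻¹ ψ * χ m = ((p:ℂ) - 1) * ψ m := by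
    have h2 : ∀ χ : DirichletCharacter ℂ p, gaussSum χ⁻¹ ψ * χ m = ∑ a : ZMod p, ψ a * (χ a⁻¹ * χ m) := by
      intro χ
      unfold gaussSum
      rw [sum_mul]
      refine sum_congr rfl fun a _ => ?_
      rw [MulChar.inv_apply']; ring
    rw [sum_congr rfl fun χ _ => h2 χ, sum_comm]
    have h3 : ∀ a : ZMod p, ∑ χ : DirichletCharacter ℂ p, ψ a * (χ a⁻¹ * χ m)
        = if a = m then ψ m * ((p:ℂ) - 1) else 0 := by
      intro a
      rw [← mul_sum]
      by_cases ha : a = 0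
      · subst ha
        rw [if_neg (Ne.symm hm)]
        have : ∑ χ : DirichletCharacter ℂ p, χ (0:ZMod p)⁻¹ * χ m = 0 := by
          refine sum_eq_zero fun χ _ => ?_
          rw [inv_zero, MulChar.map_zero, zero_mul]
        rw [this, mul_zero]
      · have hu : IsUnit a := isUnit_iff_ne_zero.mpr ha
        rw [DirichletCharacter.sum_char_inv_mul_char_eq ℂ hu m]
        by_cases hsr : a = m
        · rw [if_pos hsr, if_pos hsr, Nat.totient_prime hp.out, Nat.cast_sub hp.out.one_le, hsr]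
          push_cast; ring
        · rw [if_neg hsr, if_neg hsr, mul_zero]
    rw [sum_congr rfl fun a _ => h3 a, Finset.sum_ite_eq' univ m, if_pos (mem_univ _)]
    ring
  have h4 : ∑ χ : DirichletCharacter ℂ p, gaussSum χ⁻¹ ψ * χ m
      = -1 + ∑ χ ∈ X p, gaussSum χ⁻¹ ψ * χ m := by
    have h5 : (univ : Finset (DirichletCharacter ℂ p)) = insert 1 (X p) := by
      ext χ
      simp only [X, mem_insert, mem_filter, mem_univ, true_and]
      tauto
    have h6 : (1 : DirichletCharacter ℂ p) ∉ X p := by simp [X]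
    rw [h5, sum_insert h6]
    congr 1
    have hψ1 : ψ ≠ 1 := by
      intro h
      have h7 : ψ 1 = 1 := by rw [h]; rfl
      have h8 := ZMod.injective_stdAddChar (N := p)
      have h9 : ψ 1 = ψ 0 := by rw [h7, AddChar.map_zero_eq_one]
      exact one_ne_zero (h8 h9)
    have hinv : (1 : DirichletCharacter ℂ p)⁻¹ = 1 := inv_one
    rw [hinv]
    have h7 : gaussSum (1 : DirichletCharacter ℂ p) ψ = -1 := gaussSum_one_left hψ1
    rw [h7, MulChar.one_apply (isUnit_iff_ne_zero.mpr hm), mul_one]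
  rw [h4] at h1
  have h8 : ψ m = (1 / ((p:ℂ) - 1)) * (((p:ℂ) - 1) * ψ m) := by field_simp
  rw [h8, ← h1]
  ring

end

end Pool.Agent.Var35
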