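import Pool.Agent.Lib_helper35.Var.Func

/-! Evaluation of the Fourier transform near fractions with denominator `p s` -/

set_option autoImplicit false

namespace Pool.Agent.Var35

open Finset Complex
open scoped ArithmeticFunction ArithmeticFunction.Moebius

/-- Abel summation against a slowly varying exponential. -/
lemma abel_exp (g : ℕ → ℂ) (β : ℝ) (N : ℕ) (M : ℝ) (hM : 2 * Real.pi * |β| ≤ M) :
    ‖∑ n ∈ Finset.Icc 1 N, g n * e (n * β)‖
      ≤ ‖∑ n ∈ Finset.Icc 1 N, g n‖ + M * ∑ j ∈ range N, ‖∑ n ∈ Finset.Icc 1 j, g n‖ := by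
  have h1 : ∀ N : ℕ, ∑ n ∈ Finset.Icc 1 N, g n * e (n * β)
      = e (N * β) * ∑ n ∈ Finset.Icc 1 N, g n
        - ∑ j ∈ range N, (e (j * β) * (e β - 1)) * ∑ n ∈ Finset.Icc 1 j, g n := by
    intro N
    induction N with
    | zero => simp
    | succ N ih =>
        rw [Finset.sum_Icc_succ_top (by omega), ih, sum_range_succ, Finset.sum_Icc_succ_top (by omega)]
        have : e (((N + 1 : ℕ) : ℝ) * β) = e (N * β) * e β := by
          rw [← e_add]; congr 1; push_cast; ring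
        rw [this]
        ring
  rw [h1 N]
  refine (norm_sub_le _ _).trans (add_le_add ?_ ?_)
  · rw [norm_mul, norm_e, one_mul]
  · refine (norm_sum_le _ _).trans ?_
    rw [mul_sum]
    refine sum_le_sum fun j _ => ?_
    rw [norm_mul, norm_mul, norm_e, one_mul]
    exact mul_le_mul_of_nonneg_right ((norm_e_sub_one_le β).trans hM) (norm_nonneg _)

/-- the numerator of the distance from the fraction -/
def yy (s q c0 t : ℕ) : ℕ := (s - (c0 * q) % s) + s * t

lemma yy_pos (s q c0 t : ℕ) (hs : 1 ≤ s) : 1 ≤ yy s q c0 t := by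
  unfold yy
  have := Nat.mod_lt (c0 * q) hs
  omega

lemma yy_le (s q c0 t h : ℕ) (ht : t < h) : yy s q c0 t ≤ s * h := by
  unfold yy
  calc (s - (c0 * q) % s) + s * t ≤ s + s * t := by omega
    _ = s * (t + 1) := by ring
    _ ≤ s * h := Nat.mul_le_mul_left s ht

lemma yy_dvd (s q c0 t : ℕ) (hs : 1 ≤ s) : s ∣ c0 * q + yy s q c0 t := by
  unfold yy
  have h1 := Nat.mod_lt (c0 * q) hs
  have h2 := Nat.div_add_mod (c0 * q) s
  refine ⟨c0 * q / s + 1 + t, ?_⟩
  have h3 : c0 * q + (s - c0 * q % s + s * t) = s * (c0 * q / s) + s + s * t := by omega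
  rw [h3]; ring

lemma exists_point (s q p c0 t : ℕ) (hs : 1 ≤ s) (hp : p.Prime) (hpq : ¬ p ∣ q) (hps : Nat.Coprime p s)
    (hc0 : Nat.Coprime c0 s) (hpy : ¬ p ∣ yy s q c0 t) :
    ∃ c b : ℕ, c < p * s ∧ c % s = c0 % s ∧ b * (p * s) = c * q + yy s q c0 t ∧ Nat.Coprime c (p * s) := by
  have hcop : Nat.Coprime p q := (Nat.Prime.coprime_iff_not_dvd hp).mpr hpq
  -- r with p | r q + y
  obtain ⟨r, hr⟩ : ∃ r : ℕ, p ∣ r * q + yy s q c0 t := by
    have : Fact p.Prime := ⟨hp⟩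
    refine ⟨((-(yy s q c0 t : ZMod p)) * (q : ZMod p)⁻¹).val, ?_⟩
    rw [← ZMod.natCast_eq_zero_iff]
    push_cast
    rw [ZMod.natCast_zmod_val]
    have hq0 : (q : ZMod p) ≠ 0 := by
      rw [Ne, ZMod.natCast_eq_zero_iff]; exact hpq
    field_simp
    ring
  obtain ⟨c, hc1, hc2⟩ := Nat.chineseRemainder hps r c0
  have hc1' : c % (p * s) ≡ r [MOD p] := ((Nat.mod_modEq c (p * s)).of_mul_right s).trans hc1
  have hc2' : c % (p * s) ≡ c0 [MOD s] := ((Nat.mod_modEq c (p * s)).of_mul_left p).trans hc2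
  set c' := c % (p * s) with hc'
  have hpos : 0 < p * s := Nat.mul_pos hp.pos hs
  have hpd : p ∣ c' * q + yy s q c0 t := by
    have : c' * q + yy s q c0 t ≡ r * q + yy s q c0 t [MOD p] := (hc1'.mul_right q).add_right _
    exact (Nat.modEq_zero_iff_dvd.mp (this.trans (Nat.modEq_zero_iff_dvd.mpr hr)))
  have hsd : s ∣ c' * q + yy s q c0 t := by
    have : c' * q + yy s q c0 t ≡ c0 * q + yy s q c0 t [MOD s] := (hc2'.mul_right q).add_right _
    exact (Nat.modEq_zero_iff_dvd.mp (this.trans (Nat.modEq_zero_iff_dvd.mpr (yy_dvd s q c0 t hs))))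
  obtain ⟨b, hb⟩ := Nat.Coprime.mul_dvd_of_dvd_of_dvd hps hpd hsd
  refine ⟨c', b, Nat.mod_lt _ hpos, hc2', by rw [hb]; ring, ?_⟩
  refine Nat.Coprime.mul_right ?_ ?_
  · rw [Nat.coprime_comm, Nat.Prime.coprime_iff_not_dvd hp]
    intro h
    apply hpy
    have h2 : p ∣ c' * q := h.mul_right q
    exact (Nat.dvd_add_right h2).mp hpd
  · have := hc2'
    unfold Nat.ModEq at this
    unfold Nat.Coprime at hc0 ⊢
    rw [Nat.gcd_comm, Nat.gcd_rec, this, ← Nat.gcd_rec, Nat.gcd_comm]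
    exact hc0

section

variable (N q s p h : ℕ) (x : ℝ)

/-- the integers used in the main terms -/
def Aset : Finset ℕ := (Finset.Icc 1 N).filter (fun n => Nat.Coprime n q ∧ Nat.Coprime n (p * s))

/-- the main part at a point -/
noncomputable def f1 (u : ℤ) (c0 y : ℕ) : ℂ :=
  ∑ n ∈ Aset N q s p, ((Λ n : ℝ) : ℂ) * (e ((c0 * u : ℤ) * n / s) * e (n * (y / (p * s * q))))

/-- the character part at a point -/
noncomputable def Dx (χ : Σ p : ℕ, DirichletCharacter ℂ p) (u : ℤ) (c0 y : ℕ) : ℂ :=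
  ∑ n ∈ Aset N q s p, ((Λ n : ℝ) : ℂ) * (ev χ n * (e ((c0 * u : ℤ) * n / s) * e (n * (y / (p * s * q)))))

lemma FT_point [hp : Fact p.Prime] (hq : 0 < q) (hs : 1 ≤ s) (hx : 0 ≤ x)
    (u v : ℤ) (huv : p * u + s * v = 1) (c0 c b y : ℕ) (hy : 1 ≤ y)
    (hc : c % s = c0 % s) (hb : b * (p * s) = c * q + y) (hcop : Nat.Coprime c (p * s)) :
    ‖FT q (vv N x q) b + (1 / ((p:ℂ) - 1)) * f1 N q s p u c0 y‖
      ≤ (Real.sqrt p / ((p:ℝ) - 1)) * (∑ χ ∈ X p, ‖Dx N q s p ⟨p, χ⟩ u c0 y‖)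
        + (E0 N (p * s) + (x / (Nat.totient q : ℝ)) * (y:ℝ) ^ 2) := by
  have hp0 : (0:ℝ) < p := by exact_mod_cast hp.out.pos
  have hs0 : (0:ℝ) < s := by exact_mod_cast hs
  have hq0 : (0:ℝ) < q := by exact_mod_cast hq
  have hp1 : (0:ℝ) < (p:ℝ) - 1 := by
    have : (1:ℝ) < p := by exact_mod_cast hp.out.one_lt
    linarith
  -- expansion for coprime n
  have hexp : ∀ n ∈ Aset N q s p, e (n * (b / q))
      = -(1 / ((p:ℂ) - 1)) * (e ((c0 * u : ℤ) * n / s) * e (n * (y / (p * s * q))))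
        + (1 / ((p:ℂ) - 1)) * ∑ χ ∈ X p, (gaussSum χ⁻¹ (ZMod.stdAddChar (N := p)) * χ ((c * v : ℤ) : ZMod p))
            * (ev ⟨p, χ⟩ n * (e ((c0 * u : ℤ) * n / s) * e (n * (y / (p * s * q))))) := by
    intro n hn
    simp only [Aset, mem_filter, Finset.mem_Icc] at hn
    obtain ⟨_, _, hnps⟩ := hn
    have hnp : ¬ p ∣ n := by
      have h1 : Nat.Coprime n p := hnps.coprime_mul_right_right
      rw [Nat.coprime_comm, Nat.Prime.coprime_iff_not_dvd hp.out] at h1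
      exact h1
    have hcp : ¬ p ∣ c := by
      have h1 : Nat.Coprime c p := hcop.coprime_mul_right_right
      rw [Nat.coprime_comm, Nat.Prime.coprime_iff_not_dvd hp.out] at h1
      exact h1
    have hvp : ¬ (p:ℤ) ∣ v := by
      rintro ⟨w, hw⟩
      have h1 : (p:ℤ) ∣ 1 := ⟨u + s * w, by rw [← huv, hw]; ring⟩
      have h2 := Int.eq_one_of_dvd_one (by positivity) h1
      have h3 := hp.out.one_lt
      omega
    have e1 : (n:ℝ) * (b / q) = (c * u : ℤ) * n / s + (((n * (c * v) : ℤ) : ℝ) / p + n * (y / (p * s * q))) := by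
      have hb' : (b:ℝ) * (p * s) = c * q + y := by exact_mod_cast hb
      have huv' : (p:ℝ) * u + s * v = 1 := by exact_mod_cast huv
      have hbq : (b:ℝ) / q = c / (p * s) + y / (p * s * q) := by
        field_simp
        linarith
      have hcps : (c:ℝ) / (p * s) = c * u / s + c * v / p := by
        have : (c:ℝ) / (p * s) = c * (p * u + s * v) / (p * s) := by rw [huv', mul_one]
        rw [this]
        field_simp
      rw [hbq, hcps]
      push_cast
      field_simp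
      ring
    have e2 : e ((c * u : ℤ) * n / s) = e ((c0 * u : ℤ) * n / s) := by
      obtain ⟨k, hk⟩ : ∃ k : ℤ, (c:ℤ) = c0 + s * k := by
        have h1 : (c:ℤ) ≡ c0 [ZMOD s] := by
          have : c ≡ c0 [MOD s] := hc
          exact_mod_cast this
        have h2 := h1.symm.dvd
        obtain ⟨k, hk⟩ := h2
        exact ⟨k, by linarith⟩
      have h3 : ((c * u : ℤ) : ℝ) * n / s = ((c0 * u : ℤ) : ℝ) * n / s + ((k * u * n : ℤ) : ℝ) := by
        rw [hk]; push_cast; field_simp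
      rw [h3, e_add_int]
    have e3 : e (((n * (c * v) : ℤ) : ℝ) / p) = ZMod.stdAddChar (N := p) (((n * (c * v) : ℤ)) : ZMod p) := (std_eq_e p _).symm
    have hm : (((n * (c * v) : ℤ)) : ZMod p) ≠ 0 := by
      rw [Ne, ZMod.intCast_zmod_eq_zero_iff_dvd]
      intro h
      have hpI : Prime (p:ℤ) := Nat.prime_iff_prime_int.mp hp.out
      rcases hpI.dvd_or_dvd h with h | h
      · exact hnp (by exact_mod_cast h)
      · rcases hpI.dvd_or_dvd h with h | h
        · exact hcp (by exact_mod_cast h)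
        · exact hvp h
    rw [e1, e_add, e_add, e2, e3, addchar_expand p _ hm]
    have e4 : ∀ χ ∈ X p, gaussSum χ⁻¹ (ZMod.stdAddChar (N := p)) * χ (((n * (c * v) : ℤ)) : ZMod p)
        = (gaussSum χ⁻¹ (ZMod.stdAddChar (N := p)) * χ ((c * v : ℤ) : ZMod p)) * ev ⟨p, χ⟩ n := by
      intro χ _
      unfold ev
      push_cast
      rw [map_mul]
      ring
    rw [sum_congr rfl e4]
    have e5 : ∑ χ ∈ X p, (gaussSum χ⁻¹ (ZMod.stdAddChar (N := p)) * χ ((c * v : ℤ) : ZMod p))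
            * (ev ⟨p, χ⟩ n * (e ((c0 * u : ℤ) * n / s) * e (n * (y / (p * s * q)))))
        = (∑ χ ∈ X p, (gaussSum χ⁻¹ (ZMod.stdAddChar (N := p)) * χ ((c * v : ℤ) : ZMod p)) * ev ⟨p, χ⟩ n)
          * (e ((c0 * u : ℤ) * n / s) * e (n * (y / (p * s * q)))) := by
      rw [sum_mul]
      refine sum_congr rfl fun χ _ => by ring
    rw [e5]
    ring
  -- the decomposition
  have hdec : FT q (vv N x q) b + (1 / ((p:ℂ) - 1)) * f1 N q s p u c0 y
      = (1 / ((p:ℂ) - 1)) * ∑ χ ∈ X p, (gaussSum χ⁻¹ (ZMod.stdAddChar (N := p)) * χ ((c * v : ℤ) : ZMod p)) * Dx N q s p ⟨p, χ⟩ u c0 y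
        + (∑ n ∈ (Finset.Icc 1 N).filter (fun n => Nat.Coprime n q ∧ ¬ Nat.Coprime n (p * s)), ((Λ n : ℝ) : ℂ) * e (n * (b / q))
          - ((x / (Nat.totient q : ℝ) : ℝ) : ℂ) * ram q b) := by
    rw [FT_vv N x q hq b]
    have h1 : ∑ n ∈ (Finset.Icc 1 N).filter (fun n => Nat.Coprime n q), ((Λ n : ℝ) : ℂ) * e (n * (b / q))
        = ∑ n ∈ Aset N q s p, ((Λ n : ℝ) : ℂ) * e (n * (b / q))
          + ∑ n ∈ (Finset.Icc 1 N).filter (fun n => Nat.Coprime n q ∧ ¬ Nat.Coprime n (p * s)), ((Λ n : ℝ) : ℂ) * e (n * (b / q)) := by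
      unfold Aset
      rw [sum_filter, sum_filter, sum_filter, ← sum_add_distrib]
      refine sum_congr rfl fun n _ => ?_
      by_cases h1 : Nat.Coprime n q
      · by_cases h2 : Nat.Coprime n (p * s)
        · rw [if_pos h1, if_pos ⟨h1, h2⟩, if_neg (fun h => h.2 h2), add_zero]
        · rw [if_pos h1, if_neg (fun h => h2 h.2), if_pos ⟨h1, h2⟩, zero_add]
      · rw [if_neg h1, if_neg (fun h => h1 h.1), if_neg (fun h => h1 h.1), add_zero]
    rw [h1]
    have h2 : ∑ n ∈ Aset N q s p, ((Λ n : ℝ) : ℂ) * e (n * (b / q))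
        = -(1 / ((p:ℂ) - 1)) * f1 N q s p u c0 y
          + (1 / ((p:ℂ) - 1)) * ∑ χ ∈ X p, (gaussSum χ⁻¹ (ZMod.stdAddChar (N := p)) * χ ((c * v : ℤ) : ZMod p)) * Dx N q s p ⟨p, χ⟩ u c0 y := by
      have h3 : ∀ n ∈ Aset N q s p, ((Λ n : ℝ) : ℂ) * e (n * (b / q))
          = -(1 / ((p:ℂ) - 1)) * (((Λ n : ℝ) : ℂ) * (e ((c0 * u : ℤ) * n / s) * e (n * (y / (p * s * q)))))
            + (1 / ((p:ℂ) - 1)) * ∑ χ ∈ X p, (gaussSum χ⁻¹ (ZMod.stdAddChar (N := p)) * χ ((c * v : ℤ) : ZMod p))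
            * (((Λ n : ℝ) : ℂ) * (ev ⟨p, χ⟩ n * (e ((c0 * u : ℤ) * n / s) * e (n * (y / (p * s * q)))))) := by
        intro n hn
        rw [hexp n hn, mul_add]
        congr 1
        · ring
        · rw [mul_left_comm, mul_sum]
          congr 1
          refine sum_congr rfl fun χ _ => by ring
      rw [sum_congr rfl h3, sum_add_distrib, ← mul_sum, ← mul_sum, sum_comm]
      congr 2
      refine sum_congr rfl fun χ _ => ?_
      rw [← mul_sum]; rfl
    rw [h2]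
    ring
  rw [hdec]
  refine (norm_add_le _ _).trans (add_le_add ?_ ?_)
  · rw [norm_mul]
    have h1 : ‖(1 / ((p:ℂ) - 1))‖ = 1 / ((p:ℝ) - 1) := by
      have : ((p:ℂ) - 1) = (((p:ℝ) - 1 : ℝ) : ℂ) := by push_cast; rfl
      rw [this, norm_div, norm_one, Complex.norm_real, Real.norm_of_nonneg hp1.le]
    rw [h1]
    have h2 : ‖∑ χ ∈ X p, (gaussSum χ⁻¹ (ZMod.stdAddChar (N := p)) * χ ((c * v : ℤ) : ZMod p)) * Dx N q s p ⟨p, χ⟩ u c0 y‖
        ≤ ∑ χ ∈ X p, Real.sqrt p * ‖Dx N q s p ⟨p, χ⟩ u c0 y‖ := by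
      refine (norm_sum_le _ _).trans (sum_le_sum fun χ hχ => ?_)
      rw [norm_mul]
      refine mul_le_mul_of_nonneg_right ?_ (norm_nonneg _)
      rw [norm_mul]
      simp only [X, mem_filter, mem_univ, true_and] at hχ
      have hχi : χ⁻¹ ≠ 1 := by
        intro h; apply hχ; rw [inv_eq_one] at h; exact h
      have h3 : ‖gaussSum χ⁻¹ (ZMod.stdAddChar (N := p))‖ = Real.sqrt p := by
        rw [← Real.sqrt_sq (norm_nonneg _), gauss_norm p χ⁻¹ hχi]
      rw [h3]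
      have h4 : ‖χ ((c * v : ℤ) : ZMod p)‖ ≤ 1 := DirichletCharacter.norm_le_one _ _
      calc Real.sqrt p * ‖χ ((c * v : ℤ) : ZMod p)‖ ≤ Real.sqrt p * 1 := mul_le_mul_of_nonneg_left h4 (Real.sqrt_nonneg _)
        _ = Real.sqrt p := mul_one _
    rw [← mul_sum] at h2
    calc 1 / ((p:ℝ) - 1) * ‖∑ χ ∈ X p, (gaussSum χ⁻¹ (ZMod.stdAddChar (N := p)) * χ ((c * v : ℤ) : ZMod p)) * Dx N q s p ⟨p, χ⟩ u c0 y‖
        ≤ 1 / ((p:ℝ) - 1) * (Real.sqrt p * ∑ χ ∈ X p, ‖Dx N q s p ⟨p, χ⟩ u c0 y‖) := mul_le_mul_of_nonneg_left h2 (by positivity)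
      _ = _ := by ring
  · refine (norm_sub_le _ _).trans (add_le_add ?_ ?_)
    · refine (norm_sum_le _ _).trans ?_
      unfold E0
      calc ∑ n ∈ (Finset.Icc 1 N).filter (fun n => Nat.Coprime n q ∧ ¬ Nat.Coprime n (p * s)), ‖((Λ n : ℝ) : ℂ) * e (n * (b / q))‖
          = ∑ n ∈ (Finset.Icc 1 N).filter (fun n => Nat.Coprime n q ∧ ¬ Nat.Coprime n (p * s)), Λ n := by
            refine sum_congr rfl fun n _ => ?_
            rw [norm_mul, norm_e, mul_one, Complex.norm_real, Real.norm_of_nonneg ArithmeticFunction.vonMangoldt_nonneg]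
        _ ≤ _ := by
            refine sum_le_sum_of_subset_of_nonneg ?_ fun _ _ _ => ArithmeticFunction.vonMangoldt_nonneg
            intro n hn
            rw [mem_filter] at hn ⊢
            exact ⟨hn.1, hn.2.2⟩
    · rw [norm_mul, Complex.norm_real, Real.norm_of_nonneg (by positivity)]
      refine mul_le_mul_of_nonneg_left ?_ (by positivity)
      refine ram_norm_le q hq b y ?_
      intro d hd1 hd2
      have hd2' : d ∣ b := by exact_mod_cast hd2
      have h1 : d ∣ c * q + y := by rw [← hb]; exact hd2'.mul_right _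
      have h2 : d ∣ y := (Nat.dvd_add_right (hd1.mul_left c)).mp h1
      exact Nat.le_of_dvd hy h2

end

end Pool.Agent.Var35
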