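import Pool.Agent.Lib_helper35.Var.Local

/-! Bounds for the character part and lower bound for the main part -/

set_option autoImplicit false

namespace Pool.Agent.Var35

open Finset Complex
open scoped ArithmeticFunction ArithmeticFunction.Moebius

/-- twisted prime sum -/
noncomputable def Fx (χ : Σ p : ℕ, DirichletCharacter ℂ p) (s : ℕ) (a : ℤ) (j : ℕ) : ℂ :=
  ∑ n ∈ Finset.Icc 1 j, ((Λ n : ℝ) : ℂ) * hx χ a s n

noncomputable def Qx (N q s : ℕ) (χ : Σ p : ℕ, DirichletCharacter ℂ p) (a : ℤ) : ℝ :=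
  ‖Fx χ s a N‖ + (1 / (N:ℝ)) * (∑ j ∈ range N, ‖Fx χ s a j‖) + E0 N (q * s)

lemma Qx_nonneg (N q s : ℕ) (χ : Σ p : ℕ, DirichletCharacter ℂ p) (a : ℤ) : 0 ≤ Qx N q s χ a := by
  unfold Qx
  have := E0_nonneg N (q * s)
  positivity

lemma Fx_congr (χ : Σ p : ℕ, DirichletCharacter ℂ p) (s : ℕ) (hs : 1 ≤ s) (a a' : ℤ) (h : (s:ℤ) ∣ a - a') (j : ℕ) :
    Fx χ s a j = Fx χ s a' j := by
  unfold Fx
  refine sum_congr rfl fun n _ => ?_
  unfold hx
  obtain ⟨k, hk⟩ := h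
  have hs0 : (s:ℝ) ≠ 0 := by positivity
  have h1 : (a:ℝ) * (n:ℕ) / s = a' * (n:ℕ) / s + ((k * n : ℤ) : ℝ) := by
    have : (a:ℝ) = a' + s * k := by
      have : a = a' + s * k := by linarith
      rw [this]; push_cast; ring
    rw [this]; push_cast; field_simp
  rw [h1, e_add_int]

lemma Qx_congr (N q s : ℕ) (hs : 1 ≤ s) (χ : Σ p : ℕ, DirichletCharacter ℂ p) (a a' : ℤ) (h : (s:ℤ) ∣ a - a') :
    Qx N q s χ a = Qx N q s χ a' := by
  unfold Qx
  rw [Fx_congr χ s hs a a' h N]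
  congr 2
  rw [sum_congr rfl fun j _ => by rw [Fx_congr χ s hs a a' h j]]

lemma Dx_le (N q s p : ℕ) [hp : Fact p.Prime] (x : ℝ) (hq : 0 < q) (hs : 1 ≤ s) (hN : 1 ≤ N) (hNx : (N:ℝ) ≤ x)
    (χ : DirichletCharacter ℂ p) (u : ℤ) (c0 y : ℕ) (hy : 8 * x * y ≤ p * s * q) :
    ‖Dx N q s p ⟨p, χ⟩ u c0 y‖ ≤ Qx N q s ⟨p, χ⟩ (c0 * u) := by
  have hp0 : (0:ℝ) < p := by exact_mod_cast hp.out.pos
  have hs0 : (0:ℝ) < s := by exact_mod_cast hs
  have hq0 : (0:ℝ) < q := by exact_mod_cast hq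
  have hN0 : (0:ℝ) < N := by exact_mod_cast hN
  have hx0 : 0 < x := lt_of_lt_of_le hN0 hNx
  set β : ℝ := y / (p * s * q) with hβ
  have hβ0 : 0 ≤ β := by positivity
  have hβ1 : β ≤ 1 / (8 * x) := by
    rw [hβ, div_le_div_iff₀ (by positivity) (by positivity)]
    linarith
  have hdec : Dx N q s p ⟨p, χ⟩ u c0 y
      = ∑ n ∈ Finset.Icc 1 N, (((Λ n : ℝ) : ℂ) * hx ⟨p, χ⟩ (c0 * u) s n) * e (n * β)
        - ∑ n ∈ (Finset.Icc 1 N).filter (fun n => ¬ Nat.Coprime n (q * s)), (((Λ n : ℝ) : ℂ) * hx ⟨p, χ⟩ (c0 * u) s n) * e (n * β) := by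
    rw [eq_sub_iff_add_eq]
    unfold Dx Aset
    rw [sum_filter, sum_filter, ← sum_add_distrib]
    refine sum_congr rfl fun n _ => ?_
    have hh : ((Λ n : ℝ) : ℂ) * (ev ⟨p, χ⟩ n * (e ((c0 * u : ℤ) * n / s) * e (n * β)))
        = (((Λ n : ℝ) : ℂ) * hx ⟨p, χ⟩ (c0 * u) s n) * e (n * β) := by
      unfold hx; ring
    rw [hh]
    by_cases hpn : p ∣ n
    · have h0 : hx ⟨p, χ⟩ (c0 * u) s n = 0 := by
        unfold hx ev
        simp only
        have : ((n : ℕ) : ZMod p) = 0 := (ZMod.natCast_eq_zero_iff n p).mpr hpn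
        rw [this, MulChar.map_zero, zero_mul]
      rw [h0]; simp
    · have hnp : Nat.Coprime n p := by
        rw [Nat.coprime_comm, Nat.Prime.coprime_iff_not_dvd hp.out]; exact hpn
      have h1 : (Nat.Coprime n q ∧ Nat.Coprime n (p * s)) ↔ Nat.Coprime n (q * s) := by
        rw [Nat.coprime_mul_iff_right, Nat.coprime_mul_iff_right]
        tauto
      by_cases hc : Nat.Coprime n (q * s)
      · rw [if_pos (h1.mpr hc), if_neg (not_not.mpr hc), add_zero]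
      · rw [if_neg (fun h => hc (h1.mp h)), if_pos hc, zero_add]
  rw [hdec]
  unfold Qx Fx
  refine (norm_sub_le _ _).trans (add_le_add ?_ ?_)
  · refine abel_exp _ β N (1 / (N:ℝ)) ?_
    rw [abs_of_nonneg hβ0]
    have hpi : Real.pi < 3.15 := Real.pi_lt_d2
    have hpi0 := Real.pi_pos
    calc 2 * Real.pi * β ≤ 2 * Real.pi * (1 / (8 * x)) := mul_le_mul_of_nonneg_left hβ1 (by positivity)
      _ = (Real.pi / 4) * (1 / x) := by field_simp; ring
      _ ≤ 1 * (1 / N) := by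
          refine mul_le_mul (by linarith) ?_ (by positivity) (by norm_num)
          exact one_div_le_one_div_of_le hN0 hNx
      _ = 1 / N := one_mul _
  · unfold E0
    refine (norm_sum_le _ _).trans (sum_le_sum fun n _ => ?_)
    rw [norm_mul, norm_e, mul_one, norm_mul, Complex.norm_real, Real.norm_of_nonneg ArithmeticFunction.vonMangoldt_nonneg]
    have h1 := norm_hx_le ⟨p, χ⟩ (c0 * u) s n
    have h2 : (0:ℝ) ≤ Λ n := ArithmeticFunction.vonMangoldt_nonneg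
    nlinarith

/-- reduced residues -/
def Cs (s : ℕ) : Finset ℕ := (range s).filter (fun a => Nat.Coprime a s)

lemma sum_Q_le (N q s p : ℕ) (hs : 1 ≤ s) (χ : Σ p : ℕ, DirichletCharacter ℂ p) (u v : ℤ) (huv : p * u + s * v = 1) :
    ∑ c0 ∈ Cs s, Qx N q s χ (c0 * u) ≤ ∑ a ∈ range s, Qx N q s χ (a:ℤ) := by
  have hs0 : (0:ℤ) < s := by exact_mod_cast hs
  have h1 : ∀ c0 ∈ Cs s, Qx N q s χ (c0 * u) = (fun a : ℕ => Qx N q s χ (a:ℤ)) (((c0:ℤ) * u) % s).toNat := by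
    intro c0 _
    simp only
    refine Qx_congr N q s hs χ _ _ ?_
    have h2 : 0 ≤ ((c0:ℤ) * u) % s := Int.emod_nonneg _ (by omega)
    rw [Int.toNat_of_nonneg h2]
    exact Int.dvd_self_sub_emod
  rw [sum_congr rfl h1]
  have hinj : Set.InjOn (fun c0 : ℕ => (((c0:ℤ) * u) % s).toNat) ((Cs s : Finset ℕ) : Set ℕ) := by
    intro a ha b hb hab
    simp only [Cs, coe_filter, mem_range, Set.mem_ofPred_eq] at ha hb
    simp only at hab
    have h2 : 0 ≤ ((a:ℤ) * u) % s := Int.emod_nonneg _ (by omega)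
    have h3 : 0 ≤ ((b:ℤ) * u) % s := Int.emod_nonneg _ (by omega)
    have h4 : ((a:ℤ) * u) % s = ((b:ℤ) * u) % s := by omega
    have h5 : (s:ℤ) ∣ (a:ℤ) * u - b * u := Int.ModEq.dvd (show (b:ℤ) * u ≡ (a:ℤ) * u [ZMOD s] from h4.symm)
    have h6 : (s:ℤ) ∣ ((a:ℤ) - b) * u := by rw [sub_mul]; exact h5
    have h7 : IsCoprime (s:ℤ) u := ⟨v, p, by linarith⟩
    have h8 : (s:ℤ) ∣ (a:ℤ) - b := h7.dvd_of_dvd_mul_right h6
    have h9 := Int.eq_zero_of_abs_lt_dvd h8 (by rw [abs_lt]; omega)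
    omega
  rw [← sum_image (f := fun a : ℕ => Qx N q s χ (a:ℤ)) hinj]
  refine sum_le_sum_of_subset_of_nonneg ?_ fun _ _ _ => Qx_nonneg _ _ _ _ _
  intro a ha
  rw [mem_image] at ha
  obtain ⟨c0, _, rfl⟩ := ha
  rw [mem_range]
  have h2 : 0 ≤ ((c0:ℤ) * u) % s := Int.emod_nonneg _ (by omega)
  have h3 : ((c0:ℤ) * u) % s < s := Int.emod_lt_of_pos _ hs0
  omega

/-- admissible `t` -/
def Ts (s q p h c0 : ℕ) : Finset ℕ := (range h).filter (fun t => ¬ p ∣ yy s q c0 t)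

lemma Cs_card_le (s : ℕ) : ((Cs s).card : ℝ) ≤ s := by
  unfold Cs
  have := card_filter_le (range s) (fun a => Nat.Coprime a s)
  rw [card_range] at this
  exact_mod_cast this

lemma Cs_card (s : ℕ) : (Cs s).card = Nat.totient s := by
  unfold Cs
  rw [Nat.totient_eq_card_coprime]
  congr 1
  refine filter_congr fun a _ => ?_
  exact Nat.coprime_comm

lemma main_part (N q s p h : ℕ) [hp : Fact p.Prime] (x : ℝ) (hq : 0 < q) (hs : 1 ≤ s) (hNx : (N:ℝ) ≤ x)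
    (hsq : Squarefree s) (hps : Nat.Coprime p s) (u v : ℤ) (huv : p * u + s * v = 1)
    (ha : 8 * x * h ≤ p * q) (hb : 26 * s * x ≤ p * q) (hc : 8 * s ≤ h) (hhp : h ≤ p)
    (hE : E0 N (q * (p * s)) ≤ (∑ n ∈ Finset.Icc 1 N, Λ n) / 2) :
    (h:ℝ) / 16 * ∑ n ∈ Finset.Icc 1 N, Λ n
      ≤ (((μ s : ℤ) : ℂ) * ∑ c0 ∈ Cs s, ∑ t ∈ Ts s q p h c0, f1 N q s p u c0 (yy s q c0 t)).re := by
  have hp0 : (0:ℝ) < p := by exact_mod_cast hp.out.pos
  have hs0 : (0:ℝ) < s := by exact_mod_cast hs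
  have hq0 : (0:ℝ) < q := by exact_mod_cast hq
  have hh0 : (0:ℝ) < h := by exact_mod_cast (by omega : 0 < h)
  set A := Aset N q s p with hA
  set ψ' := ∑ n ∈ A, Λ n with hψ'
  have hψ'0 : 0 ≤ ψ' := sum_nonneg fun _ _ => ArithmeticFunction.vonMangoldt_nonneg
  have hμ : (((μ s : ℤ) : ℝ)) ^ 2 = 1 := by
    have := ArithmeticFunction.moebius_sq_eq_one_of_squarefree hsq
    exact_mod_cast this
  have hμn : ‖((μ s : ℤ) : ℂ)‖ = 1 := by
    rw [Complex.norm_intCast]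
    have h1 : |((μ s : ℤ) : ℝ)| ^ 2 = 1 := by rw [sq_abs]; exact hμ
    have h2 : 0 ≤ |((μ s : ℤ) : ℝ)| := abs_nonneg _
    nlinarith
  -- lower bound on ψ'
  have hψlow : (∑ n ∈ Finset.Icc 1 N, Λ n) / 2 ≤ ψ' := by
    have h1 : ∑ n ∈ Finset.Icc 1 N, Λ n ≤ ψ' + E0 N (q * (p * s)) := by
      rw [hψ', hA]
      unfold Aset E0
      rw [sum_filter, sum_filter, ← sum_add_distrib]
      refine sum_le_sum fun n _ => ?_
      have hΛ : (0:ℝ) ≤ Λ n := ArithmeticFunction.vonMangoldt_nonneg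
      by_cases h1 : Nat.Coprime n q ∧ Nat.Coprime n (p * s)
      · rw [if_pos h1]
        split_ifs <;> linarith
      · have h2 : ¬ Nat.Coprime n (q * (p * s)) := by
          rw [Nat.coprime_mul_iff_right]; exact h1
        rw [if_neg h1, if_pos h2]; linarith
    linarith
  -- per n estimate
  set Sn : ℕ → ℂ := fun n => ∑ c0 ∈ Cs s, e ((c0 * u : ℤ) * n / s) * e (n * (((s - (c0 * q) % s : ℕ) : ℝ) / (p * s * q))) with hSn
  set Gn : ℕ → ℂ := fun n => ∑ t ∈ range h, e (t * (n / (p * q))) with hGn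
  have hfull : ∑ c0 ∈ Cs s, ∑ t ∈ range h, f1 N q s p u c0 (yy s q c0 t) = ∑ n ∈ A, ((Λ n : ℝ) : ℂ) * (Sn n * Gn n) := by
    unfold f1
    rw [sum_congr rfl fun c0 _ => sum_comm, sum_comm]
    refine sum_congr rfl fun n _ => ?_
    simp only [hSn, hGn]
    rw [sum_mul_sum, mul_sum]
    refine sum_congr rfl fun c0 _ => ?_
    rw [mul_sum]
    refine sum_congr rfl fun t _ => ?_
    have h1 : (n:ℝ) * ((yy s q c0 t : ℕ) / (p * s * q)) = n * (((s - (c0 * q) % s : ℕ) : ℝ) / (p * s * q)) + t * (n / (p * q)) := by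
      unfold yy
      push_cast
      field_simp
    rw [h1, e_add]
    ring
  have hper : ∀ n ∈ A, (h:ℝ) / 4 ≤ (((μ s : ℤ) : ℂ) * (Sn n * Gn n)).re := by
    intro n hn
    simp only [hA, Aset, mem_filter, Finset.mem_Icc] at hn
    obtain ⟨⟨hn1, hnN⟩, hnq, hnps⟩ := hn
    have hnx : (n:ℝ) ≤ x := le_trans (by exact_mod_cast hnN) hNx
    have hn0 : (0:ℝ) ≤ n := Nat.cast_nonneg n
    -- Gn
    have hG1 : (h:ℝ) / 2 ≤ (Gn n).re := by
      simp only [hGn]
      rw [Complex.re_sum]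
      calc (h:ℝ) / 2 = ∑ t ∈ range h, (1/2 : ℝ) := by rw [sum_const, card_range, nsmul_eq_mul]; ring
        _ ≤ _ := by
            refine sum_le_sum fun t ht => e_re_ge (by positivity) ?_
            rw [mem_range] at ht
            have ht' : (t:ℝ) ≤ h := by exact_mod_cast ht.le
            rw [mul_div_assoc', div_le_iff₀ (by positivity)]
            have : (t:ℝ) * n ≤ h * x := mul_le_mul ht' hnx hn0 hh0.le
            linarith
    have hG2 : ‖Gn n‖ ≤ h := by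
      simp only [hGn]
      refine (norm_sum_le _ _).trans ?_
      simp [norm_e]
    -- Sn
    have hcopn : IsCoprime (u * n : ℤ) (s:ℤ) := by
      refine IsCoprime.mul_left ?_ ?_
      · exact ⟨p, v, by linarith⟩
      · rw [Nat.isCoprime_iff_coprime]
        exact hnps.coprime_mul_left_right
    have hram : ∑ c0 ∈ Cs s, e ((c0 * u : ℤ) * n / s) = ((μ s : ℤ) : ℂ) := by
      rw [← ram_coprime s hs (u * n) hcopn]
      unfold ram Cs
      refine sum_congr rfl fun c0 _ => ?_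
      congr 1
      push_cast; ring
    have hS : ‖Sn n - ((μ s : ℤ) : ℂ)‖ ≤ 1/4 := by
      rw [← hram]
      simp only [hSn]
      rw [← sum_sub_distrib]
      have h1 : ∀ c0 ∈ Cs s, ‖e ((c0 * u : ℤ) * n / s) * e (n * (((s - (c0 * q) % s : ℕ) : ℝ) / (p * s * q))) - e ((c0 * u : ℤ) * n / s)‖
          ≤ 2 * Real.pi * (x / (p * q)) := by
        intro c0 _
        have h2 : e ((c0 * u : ℤ) * n / s) * e (n * (((s - (c0 * q) % s : ℕ) : ℝ) / (p * s * q))) - e ((c0 * u : ℤ) * n / s)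
            = e ((c0 * u : ℤ) * n / s) * (e (n * (((s - (c0 * q) % s : ℕ) : ℝ) / (p * s * q))) - 1) := by ring
        rw [h2, norm_mul, norm_e, one_mul]
        refine (norm_e_sub_one_le _).trans ?_
        refine mul_le_mul_of_nonneg_left ?_ (by positivity)
        rw [abs_of_nonneg (by positivity)]
        have h3 : ((s - (c0 * q) % s : ℕ) : ℝ) ≤ s := by exact_mod_cast Nat.sub_le _ _
        have h4 : (n:ℝ) * (((s - (c0 * q) % s : ℕ) : ℝ) / (p * s * q)) ≤ x * (s / (p * s * q)) := by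
          refine mul_le_mul hnx ?_ (by positivity) (by linarith)
          exact div_le_div_of_nonneg_right h3 (by positivity)
        refine h4.trans (le_of_eq ?_)
        field_simp
      refine (norm_sum_le _ _).trans ((sum_le_sum h1).trans ?_)
      rw [sum_const, nsmul_eq_mul]
      have h5 : ((Cs s).card : ℝ) * (2 * Real.pi * (x / (p * q))) ≤ s * (2 * Real.pi * (x / (p * q))) :=
        mul_le_mul_of_nonneg_right (Cs_card_le s) (by
          have : 0 ≤ x := hn0.trans hnx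
          positivity)
      refine h5.trans ?_
      have h6 : s * (2 * Real.pi * (x / (p * q))) = (2 * Real.pi * (s * x)) / (p * q) := by ring
      rw [h6, div_le_iff₀ (by positivity)]
      have hpi : Real.pi < 3.15 := Real.pi_lt_d2
      have hsx : 0 ≤ (s:ℝ) * x := by
        have : 0 ≤ x := hn0.trans hnx
        positivity
      nlinarith
    have hdecomp : ((μ s : ℤ) : ℂ) * (Sn n * Gn n) = Gn n + ((μ s : ℤ) : ℂ) * ((Sn n - ((μ s : ℤ) : ℂ)) * Gn n) := by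
      have hμc : ((μ s : ℤ) : ℂ) * ((μ s : ℤ) : ℂ) = 1 := by
        rw [← sq]; exact_mod_cast hμ
      calc ((μ s : ℤ) : ℂ) * (Sn n * Gn n) = (((μ s : ℤ) : ℂ) * ((μ s : ℤ) : ℂ)) * Gn n + ((μ s : ℤ) : ℂ) * ((Sn n - ((μ s : ℤ) : ℂ)) * Gn n) := by ring
        _ = _ := by rw [hμc, one_mul]
    rw [hdecomp, Complex.add_re]
    have h7 : |(((μ s : ℤ) : ℂ) * ((Sn n - ((μ s : ℤ) : ℂ)) * Gn n)).re| ≤ 1/4 * h := by
      refine (Complex.abs_re_le_norm _).trans ?_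
      rw [norm_mul, hμn, one_mul, norm_mul]
      exact mul_le_mul hS hG2 (norm_nonneg _) (by norm_num)
    have h8 := (abs_le.mp h7).1
    linarith
  -- excluded part
  have hexc : ∀ c0 ∈ Cs s, ‖∑ t ∈ (range h).filter (fun t => p ∣ yy s q c0 t), f1 N q s p u c0 (yy s q c0 t)‖ ≤ ψ' := by
    intro c0 _
    have hf : ∀ y, ‖f1 N q s p u c0 y‖ ≤ ψ' := by
      intro y
      unfold f1
      refine (norm_sum_le _ _).trans (sum_le_sum fun n _ => ?_)
      rw [norm_mul, norm_mul, norm_e, norm_e, Complex.norm_real, Real.norm_of_nonneg ArithmeticFunction.vonMangoldt_nonneg]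
      simp
    refine (norm_sum_le _ _).trans ((sum_le_sum fun t _ => hf _).trans ?_)
    rw [sum_const, nsmul_eq_mul]
    have hcard : ((range h).filter (fun t => p ∣ yy s q c0 t)).card ≤ 1 := by
      rw [card_le_one]
      intro a ha b hb
      rw [mem_filter, mem_range] at ha hb
      unfold yy at ha hb
      have h1 : (p:ℤ) ∣ ((s - (c0 * q) % s : ℕ) : ℤ) + s * a := by exact_mod_cast ha.2
      have h2 : (p:ℤ) ∣ ((s - (c0 * q) % s : ℕ) : ℤ) + s * b := by exact_mod_cast hb.2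
      have h3 : (p:ℤ) ∣ (s:ℤ) * ((a:ℤ) - b) := by
        have := dvd_sub h1 h2
        have h4 : ((s - (c0 * q) % s : ℕ) : ℤ) + s * a - (((s - (c0 * q) % s : ℕ) : ℤ) + s * b) = (s:ℤ) * ((a:ℤ) - b) := by ring
        rwa [h4] at this
      have h5 : IsCoprime (p:ℤ) (s:ℤ) := Nat.isCoprime_iff_coprime.mpr hps
      have h6 := h5.dvd_of_dvd_mul_left h3
      have h7 := Int.eq_zero_of_abs_lt_dvd h6 (by rw [abs_lt]; omega)
      omega
    have : (((range h).filter (fun t => p ∣ yy s q c0 t)).card : ℝ) ≤ 1 := by exact_mod_cast hcard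
    nlinarith
  have hsplit : ∑ c0 ∈ Cs s, ∑ t ∈ Ts s q p h c0, f1 N q s p u c0 (yy s q c0 t)
      = ∑ c0 ∈ Cs s, ∑ t ∈ range h, f1 N q s p u c0 (yy s q c0 t)
        - ∑ c0 ∈ Cs s, ∑ t ∈ (range h).filter (fun t => p ∣ yy s q c0 t), f1 N q s p u c0 (yy s q c0 t) := by
    rw [← sum_sub_distrib]
    refine sum_congr rfl fun c0 _ => ?_
    unfold Ts
    rw [eq_sub_iff_add_eq, add_comm]
    exact Finset.sum_filter_add_sum_filter_not _ _ _
  rw [hsplit, mul_sub, Complex.sub_re, hfull]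
  have hmain : (h:ℝ) / 4 * ψ' ≤ (((μ s : ℤ) : ℂ) * ∑ n ∈ A, ((Λ n : ℝ) : ℂ) * (Sn n * Gn n)).re := by
    have e1 : ((μ s : ℤ) : ℂ) * ∑ n ∈ A, ((Λ n : ℝ) : ℂ) * (Sn n * Gn n)
        = ∑ n ∈ A, ((μ s : ℤ) : ℂ) * (((Λ n : ℝ) : ℂ) * (Sn n * Gn n)) := by rw [mul_sum]
    rw [e1, Complex.re_sum, hψ', mul_sum]
    refine sum_le_sum fun n hn => ?_
    have h1 : ((μ s : ℤ) : ℂ) * (((Λ n : ℝ) : ℂ) * (Sn n * Gn n)) = ((Λ n : ℝ) : ℂ) * (((μ s : ℤ) : ℂ) * (Sn n * Gn n)) := by ring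
    rw [h1, Complex.re_ofReal_mul]
    have h2 := hper n hn
    have h3 : (0:ℝ) ≤ Λ n := ArithmeticFunction.vonMangoldt_nonneg
    nlinarith
  have hex2 : (((μ s : ℤ) : ℂ) * ∑ c0 ∈ Cs s, ∑ t ∈ (range h).filter (fun t => p ∣ yy s q c0 t), f1 N q s p u c0 (yy s q c0 t)).re ≤ s * ψ' := by
    refine (Complex.re_le_norm _).trans ?_
    rw [norm_mul, hμn, one_mul]
    refine (norm_sum_le _ _).trans ((sum_le_sum hexc).trans ?_)
    rw [sum_const, nsmul_eq_mul]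
    exact mul_le_mul_of_nonneg_right (Cs_card_le s) hψ'0
  have hcr : 8 * (s:ℝ) ≤ h := by exact_mod_cast hc
  have h9 : (h:ℝ) / 8 * ψ' ≤ (h:ℝ) / 4 * ψ' - s * ψ' := by nlinarith
  have h10 : (h:ℝ) / 16 * ∑ n ∈ Finset.Icc 1 N, Λ n ≤ (h:ℝ) / 8 * ψ' := by nlinarith
  linarith

end Pool.Agent.Var35
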