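import Pool.Agent.Lib_helper35.Var.Elem

/-! Chebyshev type consequences -/

set_option autoImplicit false

namespace Pool.Agent.Var35

open Finset Filter
open scoped ArithmeticFunction

lemma log_small : ∃ t0 : ℝ, 1 ≤ t0 ∧ ∀ t : ℝ, t0 ≤ t → Real.log (t + 1) + 2 * Real.sqrt t * Real.log t ≤ t / 25 := by
  have h := isLittleO_log_rpow_atTop (r := 1/2) (by norm_num)
  have h1 := h.bound (c := 1/100) (by norm_num)
  rw [eventually_atTop] at h1
  obtain ⟨a, ha⟩ := h1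
  refine ⟨max a 1, le_max_right _ _, fun t ht => ?_⟩
  have ht1 : 1 ≤ t := (le_max_right _ _).trans ht
  have hta : a ≤ t := (le_max_left _ _).trans ht
  have h2 := ha t hta
  have h3 := ha (t + 1) (by linarith)
  rw [Real.norm_of_nonneg (Real.log_nonneg (by linarith)), Real.norm_of_nonneg (by positivity), ← Real.sqrt_eq_rpow] at h2 h3
  have hs : Real.sqrt t * Real.sqrt t = t := Real.mul_self_sqrt (by linarith)
  have hs1 : Real.sqrt (t + 1) ≤ t + 1 := by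
    rw [Real.sqrt_le_left (by linarith)]; nlinarith
  have hst : 0 ≤ Real.sqrt t := Real.sqrt_nonneg t
  have h4 : Real.sqrt t * Real.log t ≤ Real.sqrt t * (1/100 * Real.sqrt t) := mul_le_mul_of_nonneg_left h2 hst
  nlinarith

lemma psi_lower : ∃ N0 : ℕ, ∀ N : ℕ, N0 ≤ N → (N:ℝ) / 2 ≤ ∑ n ∈ Finset.Icc 1 N, Λ n := by
  obtain ⟨t0, h0, h1⟩ := log_small
  refine ⟨⌈t0⌉₊, fun N hN => ?_⟩
  have hNt : t0 ≤ N := (Nat.le_ceil t0).trans (by exact_mod_cast hN)
  have h2 := h1 N hNt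
  have h3 := Chebyshev.psi_ge N
  rw [Chebyshev.psi_eq_sum_Icc, Nat.floor_natCast] at h3
  have h4 : ∑ n ∈ Finset.Icc 0 N, Λ n = ∑ n ∈ Finset.Icc 1 N, Λ n := by
    rw [← Finset.add_sum_Ioc_eq_sum_Icc (Nat.zero_le N)]
    simp only [ArithmeticFunction.map_zero, zero_add]
    refine sum_congr ?_ fun _ _ => rfl
    ext k; simp only [Finset.mem_Ioc, Finset.mem_Icc]; omega
  rw [h4] at h3
  have h5 : (0:ℝ) ≤ 2 * Real.sqrt N * Real.log N := by
    have := Real.log_natCast_nonneg N; positivity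
  have h6 : (0.69:ℝ) ≤ Real.log 2 := by
    have := Real.log_two_gt_d9; linarith
  have hN0 : (0:ℝ) ≤ N := Nat.cast_nonneg N
  nlinarith

lemma theta_block : ∃ y0 : ℕ, 1 ≤ y0 ∧ ∀ y : ℕ, y0 ≤ y →
    (y:ℝ) ≤ ∑ p ∈ (Finset.Ioc y (4 * y)).filter Nat.Prime, Real.log p := by
  obtain ⟨t0, h0, h1⟩ := log_small
  refine ⟨⌈t0⌉₊, Nat.one_le_ceil_iff.mpr (by linarith), fun y hy => ?_⟩
  have hyt : t0 ≤ y := (Nat.le_ceil t0).trans (by exact_mod_cast hy)
  have hy0 : (1:ℝ) ≤ y := h0.trans hyt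
  have h2 := h1 ((4 * y : ℕ) : ℝ) (by push_cast; linarith)
  have h3 := Chebyshev.theta_ge (4 * y)
  have h4 := Chebyshev.theta_le_log4_mul_x (x := (y:ℝ)) (by linarith)
  have h5 : Chebyshev.theta ((4 * y : ℕ) : ℝ) - Chebyshev.theta (y:ℝ)
      = ∑ p ∈ (Finset.Ioc y (4 * y)).filter Nat.Prime, Real.log p := by
    rw [Chebyshev.theta_eq_sum_Icc, Chebyshev.theta_eq_sum_Icc, Nat.floor_natCast, Nat.floor_natCast]
    rw [sum_filter, sum_filter, sum_filter]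
    have h6 : Finset.Icc 0 (4 * y) = Finset.Icc 0 y ∪ Finset.Ioc y (4 * y) := by
      ext k; simp only [mem_union, Finset.mem_Ioc, Finset.mem_Icc]; omega
    have h7 : Disjoint (Finset.Icc 0 y) (Finset.Ioc y (4 * y)) := by
      rw [Finset.disjoint_left]; intro k h8 h9
      rw [Finset.mem_Icc] at h8; rw [Finset.mem_Ioc] at h9; omega
    rw [h6, sum_union h7]; ring
  rw [← h5]
  have h6 : Real.log 4 = 2 * Real.log 2 := by
    rw [show (4:ℝ) = 2 ^ 2 by norm_num, Real.log_pow]; norm_num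
  have h7 : (0.69:ℝ) ≤ Real.log 2 := by
    have := Real.log_two_gt_d9; linarith
  rw [h6] at h4
  push_cast at h2 h3 ⊢
  nlinarith

lemma prime_recip : ∃ y0 : ℕ, 1 ≤ y0 ∧ ∀ y J : ℕ, y0 ≤ y →
    (J:ℝ) ≤ 4 * Real.log ((4 ^ J * y : ℕ) : ℝ) * ∑ p ∈ (Finset.Ioc y (4 ^ J * y)).filter Nat.Prime, 1 / (p:ℝ) := by
  obtain ⟨y0, hy01, hy0⟩ := theta_block
  refine ⟨y0, hy01, fun y J hy => ?_⟩
  have hy1 : 1 ≤ y := hy01.trans hy
  have key : ∀ j : ℕ, (1:ℝ) ≤ 4 * Real.log ((4 ^ (j + 1) * y : ℕ) : ℝ) *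
      ∑ p ∈ (Finset.Ioc (4 ^ j * y) (4 ^ (j + 1) * y)).filter Nat.Prime, 1 / (p:ℝ) := by
    intro j
    set z := 4 ^ j * y with hz
    have hz1 : y ≤ z := by
      calc y = 1 * y := (one_mul y).symm
        _ ≤ 4 ^ j * y := Nat.mul_le_mul_right y (Nat.one_le_pow _ _ (by norm_num))
    have hz2 : 4 ^ (j + 1) * y = 4 * z := by rw [hz]; ring
    rw [hz2]
    have h1 := hy0 z (hy.trans hz1)
    have hzr : (1:ℝ) ≤ z := by exact_mod_cast hy1.trans hz1
    have hlog : 0 < Real.log ((4 * z : ℕ) : ℝ) := Real.log_pos (by push_cast; linarith)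
    have h2 : ∑ p ∈ (Finset.Ioc z (4 * z)).filter Nat.Prime, Real.log p
        ≤ ∑ p ∈ (Finset.Ioc z (4 * z)).filter Nat.Prime, (4 * z * Real.log ((4 * z : ℕ) : ℝ)) * (1 / (p:ℝ)) := by
      refine sum_le_sum fun p hp => ?_
      rw [mem_filter, Finset.mem_Ioc] at hp
      have hp0 : (0:ℝ) < p := by exact_mod_cast hp.2.pos
      have hple : (p:ℝ) ≤ 4 * z := by exact_mod_cast hp.1.2
      have hlp : Real.log p ≤ Real.log ((4 * z : ℕ) : ℝ) := Real.log_le_log hp0 (by exact_mod_cast hp.1.2)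
      rw [mul_one_div, le_div_iff₀ hp0]
      have hlp0 : 0 ≤ Real.log p := Real.log_natCast_nonneg p
      calc Real.log p * p ≤ Real.log ((4 * z : ℕ) : ℝ) * (4 * z) := mul_le_mul hlp hple hp0.le hlog.le
        _ = _ := by ring
    rw [← mul_sum] at h2
    have h3 := h1.trans h2
    have h4 : (z:ℝ) * 1 ≤ z * (4 * Real.log ((4 * z : ℕ) : ℝ) * ∑ p ∈ (Finset.Ioc z (4 * z)).filter Nat.Prime, 1 / (p:ℝ)) := by
      rw [mul_one]; refine h3.trans (le_of_eq ?_); ring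
    exact le_of_mul_le_mul_left h4 (by linarith)
  induction J with
  | zero => simp
  | succ J ih =>
      have h1 := key J
      have hzz : 4 ^ J * y ≤ 4 ^ (J + 1) * y := by
        have : 4 ^ (J + 1) * y = 4 * (4 ^ J * y) := by ring
        omega
      have hyz : y ≤ 4 ^ J * y := by
        calc y = 1 * y := (one_mul y).symm
          _ ≤ 4 ^ J * y := Nat.mul_le_mul_right y (Nat.one_le_pow _ _ (by norm_num))
      have h2 : ∑ p ∈ (Finset.Ioc y (4 ^ (J + 1) * y)).filter Nat.Prime, 1 / (p:ℝ)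
          = ∑ p ∈ (Finset.Ioc y (4 ^ J * y)).filter Nat.Prime, 1 / (p:ℝ)
            + ∑ p ∈ (Finset.Ioc (4 ^ J * y) (4 ^ (J + 1) * y)).filter Nat.Prime, 1 / (p:ℝ) := by
        rw [sum_filter, sum_filter, sum_filter, Finset.sum_Ioc_consecutive _ hyz hzz]
      rw [h2, mul_add]
      have h3 : 4 * Real.log ((4 ^ J * y : ℕ) : ℝ) * ∑ p ∈ (Finset.Ioc y (4 ^ J * y)).filter Nat.Prime, 1 / (p:ℝ)
          ≤ 4 * Real.log ((4 ^ (J + 1) * y : ℕ) : ℝ) * ∑ p ∈ (Finset.Ioc y (4 ^ J * y)).filter Nat.Prime, 1 / (p:ℝ) := by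
        refine mul_le_mul_of_nonneg_right ?_ (sum_nonneg fun _ _ => by positivity)
        have : Real.log ((4 ^ J * y : ℕ) : ℝ) ≤ Real.log ((4 ^ (J + 1) * y : ℕ) : ℝ) :=
          Real.log_le_log (by exact_mod_cast (by omega : 0 < 4 ^ J * y)) (by exact_mod_cast hzz)
        linarith
      push_cast at ih h1 h3 ⊢
      linarith

end Pool.Agent.Var35
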