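import Pool.Agent.Lib_helper35.Var.Char

/-! Average Polya-Vinogradov bound, separation of variables, bilinear forms -/

set_option autoImplicit false

namespace Pool.Agent.Var35

open Finset Complex

/-- value of a character at a natural number -/
noncomputable def ev (x : Σ p : ℕ, DirichletCharacter ℂ p) (k : ℕ) : ℂ := x.2 (k : ZMod x.1)

lemma ev_mul (x : Σ p : ℕ, DirichletCharacter ℂ p) (m k : ℕ) : ev x (m * k) = ev x m * ev x k := by
  unfold ev; push_cast; rw [map_mul]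

lemma norm_ev_le (x : Σ p : ℕ, DirichletCharacter ℂ p) (k : ℕ) : ‖ev x k‖ ≤ 1 :=
  DirichletCharacter.norm_le_one _ _

/-- all nonprincipal characters to moduli in `PP` -/
noncomputable def R (PP : Finset ℕ) : Finset (Σ p : ℕ, DirichletCharacter ℂ p) := PP.sigma X

theorem mls (PP : Finset ℕ) (P : ℕ) (hP : ∀ p ∈ PP, p.Prime ∧ p ≤ P) (hP1 : 1 ≤ P)
    (a : ℕ → ℂ) (M H : ℕ) :
    ∑ x ∈ R PP, ‖∑ m ∈ Finset.Ioc M (M + H), a m * ev x m‖ ^ 2
      ≤ 22 * (H + (P:ℝ) ^ 2) * ∑ m ∈ Finset.Ioc M (M + H), ‖a m‖ ^ 2 := by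
  unfold R ev
  rw [sum_sigma]
  exact mult_large_sieve PP P hP hP1 a M H

section pv

variable (p : ℕ) [hp : Fact p.Prime]

lemma sum_range_zmod (g : ZMod p → ℂ) : ∑ j ∈ range p, g (j : ZMod p) = ∑ z : ZMod p, g z := by
  refine Finset.sum_nbij' (fun c => (c : ZMod p)) (fun r => r.val) ?_ ?_ ?_ ?_ ?_
  · intro c _; exact mem_univ _
  · intro r _; rw [mem_range]; exact ZMod.val_lt r
  · intro c hc; rw [mem_range] at hc; exact ZMod.val_cast_of_lt hc
  · intro r _; exact ZMod.natCast_zmod_val r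
  · intro c _; rfl

lemma complete_sum (s : ℕ) (hs : 1 ≤ s) (hps : ¬ p ∣ s) (b : ℤ) (χ : DirichletCharacter ℂ p) (hχ : χ ≠ 1) :
    ∑ k ∈ range (s * p), χ (k : ZMod p) * e (b * k / s) = 0 := by
  have hs0 : (s:ℝ) ≠ 0 := by positivity
  have h1 : ∀ n : ℕ, ∑ k ∈ range (s * n), χ (k : ZMod p) * e (b * k / s)
      = ∑ j ∈ range n, ∑ i ∈ range s, χ ((s * j + i : ℕ) : ZMod p) * e (b * (s * j + i : ℕ) / s) := by
    intro n
    induction n with
    | zero => simp
    | succ n ih => rw [Nat.mul_succ, Finset.sum_range_add, ih, sum_range_succ]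
  rw [h1, sum_comm]
  refine sum_eq_zero fun i _ => ?_
  have h2 : ∀ j ∈ range p, χ ((s * j + i : ℕ) : ZMod p) * e (b * (s * j + i : ℕ) / s)
      = e (b * i / s) * χ ((s : ZMod p) * (j : ZMod p) + i) := by
    intro j _
    have : (b:ℝ) * (s * j + i : ℕ) / s = b * i / s + ((b * j : ℤ) : ℝ) := by
      push_cast; field_simp; ring
    rw [this, e_add_int]
    push_cast; ring
  rw [sum_congr rfl h2, ← mul_sum]
  rw [sum_range_zmod p (fun z => χ ((s : ZMod p) * z + i))]
  have hs' : (s : ZMod p) ≠ 0 := by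
    rw [Ne, ZMod.natCast_eq_zero_iff]; exact hps
  have h3 : ∑ z : ZMod p, χ ((s : ZMod p) * z + i) = ∑ z : ZMod p, χ z := by
    refine Fintype.sum_bijective (fun z : ZMod p => (s : ZMod p) * z + i) ?_ _ _ (fun z => rfl)
    exact (AddGroup.addRight_bijective (i : ZMod p)).comp (mulLeft_bijective₀ _ hs')
  rw [h3, MulChar.sum_eq_zero_of_ne_one hχ, mul_zero]

lemma partial_mod (s : ℕ) (hs : 1 ≤ s) (hps : ¬ p ∣ s) (b : ℤ) (χ : DirichletCharacter ℂ p) (hχ : χ ≠ 1) (y : ℕ) :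
    ∑ k ∈ range y, χ (k : ZMod p) * e (b * k / s)
      = ∑ k ∈ range (y % (s * p)), χ (k : ZMod p) * e (b * k / s) := by
  have hs0 : (s:ℝ) ≠ 0 := by positivity
  have h1 : ∀ n r : ℕ, ∑ k ∈ range (s * p * n + r), χ (k : ZMod p) * e (b * k / s)
      = ∑ k ∈ range r, χ (k : ZMod p) * e (b * k / s) := by
    intro n
    induction n with
    | zero => intro r; simp
    | succ n ih =>
        intro r
        rw [Nat.mul_succ, add_assoc, ih, Finset.sum_range_add, complete_sum p s hs hps b χ hχ, zero_add]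
        refine sum_congr rfl fun k _ => ?_
        have : (b:ℝ) * (s * p + k : ℕ) / s = b * k / s + ((b * p : ℤ) : ℝ) := by
          push_cast; field_simp; ring
        rw [this, e_add_int]
        push_cast
        simp
  conv_lhs => rw [← Nat.div_add_mod y (s * p)]
  exact h1 _ _

lemma card_X_le : ((X p).card : ℝ) ≤ p := by
  have h1 : (X p).card ≤ Fintype.card (DirichletCharacter ℂ p) := card_le_univ _
  have h2 : Nat.card (DirichletCharacter ℂ p) = p.totient :=
    DirichletCharacter.card_eq_totient_of_hasEnoughRootsOfUnity ℂ p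
  rw [Nat.card_eq_fintype_card] at h2
  rw [h2] at h1
  exact_mod_cast h1.trans (Nat.totient_le p)

/-- average Polya-Vinogradov -/
lemma pv_avg (s : ℕ) (hs : 1 ≤ s) (hps : ¬ p ∣ s) (b : ℤ) (y : ℕ) :
    ∑ χ ∈ X p, ‖∑ k ∈ range y, χ (k : ZMod p) * e (b * k / s)‖ ≤ p * Real.sqrt p * s := by
  classical
  set r := y % (s * p) with hr
  have hrlt : r < s * p := Nat.mod_lt _ (Nat.mul_pos hs hp.out.pos)
  have h1 : ∑ χ ∈ X p, ‖∑ k ∈ range y, χ (k : ZMod p) * e (b * k / s)‖
      = ∑ χ ∈ X p, ‖∑ k ∈ range r, χ (k : ZMod p) * e (b * k / s)‖ := by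
    refine sum_congr rfl fun χ hχ => ?_
    simp only [X, mem_filter, mem_univ, true_and] at hχ
    rw [partial_mod p s hs hps b χ hχ y]
  rw [h1]
  set C : ZMod p → ℂ := fun z => ∑ k ∈ (range r).filter (fun k : ℕ => (k : ZMod p) = z), e (b * k / s) with hC
  have h2 : ∀ χ : DirichletCharacter ℂ p, ∑ k ∈ range r, χ (k : ZMod p) * e (b * k / s)
      = ∑ z : ZMod p, χ z * C z := by
    intro χ
    rw [← Finset.sum_fiberwise (range r) (fun k : ℕ => (k : ZMod p))]
    refine sum_congr rfl fun z _ => ?_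
    rw [hC, mul_sum]
    refine sum_congr rfl fun k hk => ?_
    rw [mem_filter] at hk
    rw [hk.2]
  have hCb : ∀ z, ‖C z‖ ≤ s := by
    intro z
    refine (norm_sum_le _ _).trans ?_
    simp only [norm_e, sum_const, nsmul_eq_mul, mul_one]
    have : ((range r).filter (fun k : ℕ => (k : ZMod p) = z)).card ≤ (range s).card := by
      refine card_le_card_of_injOn (fun k => k / p) ?_ ?_
      · intro k hk
        simp only [coe_filter, mem_range, Set.mem_ofPred_eq] at hk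
        simp only [coe_range, Set.mem_Iio]
        rw [Nat.div_lt_iff_lt_mul hp.out.pos]
        omega
      · intro k hk k' hk' hkk
        simp only [coe_filter, mem_range, Set.mem_ofPred_eq] at hk hk'
        simp only at hkk
        have h3 : (k : ZMod p) = (k' : ZMod p) := hk.2.trans hk'.2.symm
        rw [ZMod.natCast_eq_natCast_iff'] at h3
        rw [← Nat.div_add_mod k p, ← Nat.div_add_mod k' p, hkk, h3]
    rw [card_range] at this
    exact_mod_cast this
  have h3 : ∑ χ ∈ X p, ‖∑ k ∈ range r, χ (k : ZMod p) * e (b * k / s)‖ ^ 2 ≤ (p:ℝ) ^ 2 * s ^ 2 := by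
    have h4 : ∑ χ ∈ X p, ‖∑ k ∈ range r, χ (k : ZMod p) * e (b * k / s)‖ ^ 2
        ≤ ∑ χ : DirichletCharacter ℂ p, ‖∑ z : ZMod p, χ z * C z‖ ^ 2 := by
      rw [sum_congr rfl fun χ _ => by rw [h2 χ]]
      exact sum_le_sum_of_subset_of_nonneg (subset_univ _) fun _ _ _ => by positivity
    refine h4.trans ?_
    rw [orth p C]
    have h5 : ∑ z ∈ univ.filter (fun r : ZMod p => r ≠ 0), ‖C z‖ ^ 2 ≤ (p:ℝ) * s ^ 2 := by
      calc ∑ z ∈ univ.filter (fun r : ZMod p => r ≠ 0), ‖C z‖ ^ 2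
          ≤ ∑ z ∈ univ.filter (fun r : ZMod p => r ≠ 0), (s:ℝ) ^ 2 := by
            refine sum_le_sum fun z _ => pow_le_pow_left₀ (norm_nonneg _) (hCb z) 2
        _ = ((univ.filter (fun r : ZMod p => r ≠ 0)).card : ℝ) * (s:ℝ) ^ 2 := by
            rw [sum_const, nsmul_eq_mul]
        _ ≤ (p:ℝ) * s ^ 2 := by
            refine mul_le_mul_of_nonneg_right ?_ (by positivity)
            have := card_le_univ (univ.filter (fun r : ZMod p => r ≠ 0))
            rw [ZMod.card] at this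
            exact_mod_cast this
    have hp1 : (1:ℝ) ≤ p := by exact_mod_cast hp.out.one_le
    calc ((p:ℝ) - 1) * ∑ z ∈ univ.filter (fun r : ZMod p => r ≠ 0), ‖C z‖ ^ 2
        ≤ (p:ℝ) * ((p:ℝ) * s ^ 2) := mul_le_mul (by linarith) h5 (sum_nonneg fun _ _ => by positivity) (by positivity)
      _ = _ := by ring
  have h6 := Real.sum_mul_le_sqrt_mul_sqrt (X p) (fun _ => (1:ℝ)) (fun χ => ‖∑ k ∈ range r, χ (k : ZMod p) * e (b * k / s)‖)
  simp only [one_mul, one_pow, sum_const, nsmul_eq_mul, mul_one] at h6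
  refine h6.trans ?_
  calc Real.sqrt ((X p).card : ℝ) * Real.sqrt (∑ χ ∈ X p, ‖∑ k ∈ range r, χ (k : ZMod p) * e (b * k / s)‖ ^ 2)
      ≤ Real.sqrt p * Real.sqrt ((p:ℝ) ^ 2 * s ^ 2) :=
        mul_le_mul (Real.sqrt_le_sqrt (card_X_le p)) (Real.sqrt_le_sqrt h3) (Real.sqrt_nonneg _) (Real.sqrt_nonneg _)
    _ = p * Real.sqrt p * s := by
        rw [← mul_pow, Real.sqrt_sq (by positivity)]; ring

end pv

/-- Abel summation for monotone weights. -/
lemma abel_bound (f : ℕ → ℂ) (w : ℕ → ℝ) (hw0 : 0 ≤ w 0) (hw : Monotone w) (y : ℕ) :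
    ‖∑ k ∈ range (y + 1), (w k : ℂ) * f k‖
      ≤ w y * ‖∑ k ∈ range (y + 1), f k‖ + ∑ j ∈ range y, (w (j + 1) - w j) * ‖∑ k ∈ range (j + 1), f k‖ := by
  have h1 : ∀ y : ℕ, ∑ k ∈ range (y + 1), (w k : ℂ) * f k
      = (w y : ℂ) * ∑ k ∈ range (y + 1), f k - ∑ j ∈ range y, ((w (j + 1) - w j : ℝ) : ℂ) * ∑ k ∈ range (j + 1), f k := by
    intro y
    induction y with
    | zero => simp
    | succ y ih =>
        rw [sum_range_succ, ih, sum_range_succ (fun j => ((w (j + 1) - w j : ℝ) : ℂ) * ∑ k ∈ range (j + 1), f k) y,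
          sum_range_succ f (y + 1)]
        push_cast
        ring
  rw [h1 y]
  have hwy : 0 ≤ w y := hw0.trans (hw (Nat.zero_le y))
  refine (norm_sub_le _ _).trans ?_
  refine add_le_add ?_ ?_
  · rw [norm_mul, Complex.norm_real, Real.norm_of_nonneg hwy]
  · refine (norm_sum_le _ _).trans (sum_le_sum fun j _ => ?_)
    rw [norm_mul, Complex.norm_real, Real.norm_of_nonneg (sub_nonneg.mpr (hw (Nat.le_succ j)))]

lemma pv_avg_log (p : ℕ) [hp : Fact p.Prime] (s : ℕ) (hs : 1 ≤ s) (hps : ¬ p ∣ s) (b : ℤ) (y : ℕ) :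
    ∑ χ ∈ X p, ‖∑ k ∈ range (y + 1), (Real.log k : ℂ) * (χ (k : ZMod p) * e (b * k / s))‖
      ≤ 2 * Real.log y * (p * Real.sqrt p * s) := by
  set w : ℕ → ℝ := fun k => Real.log k with hw
  have hmono : Monotone w := by
    intro a b hab
    simp only [hw]
    rcases Nat.eq_zero_or_pos a with h | h
    · subst h; simp only [CharP.cast_eq_zero, Real.log_zero]
      exact Real.log_natCast_nonneg b
    · exact Real.log_le_log (by exact_mod_cast h) (by exact_mod_cast hab)
  have hw0 : 0 ≤ w 0 := by simp [hw]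
  have h0 : w 0 = 0 := by simp [hw]
  have hwy : 0 ≤ w y := hw0.trans (hmono (Nat.zero_le y))
  calc ∑ χ ∈ X p, ‖∑ k ∈ range (y + 1), (Real.log k : ℂ) * (χ (k : ZMod p) * e (b * k / s))‖
      ≤ ∑ χ ∈ X p, (w y * ‖∑ k ∈ range (y + 1), χ (k : ZMod p) * e (b * k / s)‖
          + ∑ j ∈ range y, (w (j + 1) - w j) * ‖∑ k ∈ range (j + 1), χ (k : ZMod p) * e (b * k / s)‖) :=
        sum_le_sum fun χ _ => abel_bound (fun k => χ (k : ZMod p) * e (b * k / s)) w hw0 hmono y
    _ = w y * ∑ χ ∈ X p, ‖∑ k ∈ range (y + 1), χ (k : ZMod p) * e (b * k / s)‖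
          + ∑ j ∈ range y, (w (j + 1) - w j) * ∑ χ ∈ X p, ‖∑ k ∈ range (j + 1), χ (k : ZMod p) * e (b * k / s)‖ := by
        rw [sum_add_distrib, sum_comm, mul_sum]
        congr 1
        refine sum_congr rfl fun j _ => by rw [mul_sum]
    _ ≤ w y * (p * Real.sqrt p * s) + ∑ j ∈ range y, (w (j + 1) - w j) * (p * Real.sqrt p * s) := by
        refine add_le_add (mul_le_mul_of_nonneg_left (pv_avg p s hs hps b _) hwy) ?_
        refine sum_le_sum fun j _ => mul_le_mul_of_nonneg_left (pv_avg p s hs hps b _) ?_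
        exact sub_nonneg.mpr (hmono (Nat.le_succ j))
    _ = 2 * w y * (p * Real.sqrt p * s) := by
        rw [← sum_mul, sum_range_sub, h0]; ring

/-! ### separation of variables -/

lemma sum_roots (T : ℕ) (hT : 0 < T) (d : ℤ) :
    ∑ j ∈ range T, e (j * (d / T)) = if (T:ℤ) ∣ d then (T:ℂ) else 0 := by
  have hT0 : (T:ℝ) ≠ 0 := by positivity
  split_ifs with h
  · obtain ⟨c, rfl⟩ := h
    have : ∀ j ∈ range T, e (j * (((T * c : ℤ) : ℝ) / T)) = 1 := by
      intro j _
      have : (j:ℝ) * (((T * c : ℤ) : ℝ) / T) = ((j * c : ℤ) : ℝ) := by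
        push_cast; field_simp
      rw [this, e_int]
    rw [sum_congr rfl this]; simp
  · have h1 : (∑ j ∈ range T, e (j * (d / T))) * (e (d / T) - 1) = 0 := by
      have := geom_sum_mul (e ((d:ℝ) / T)) T
      rw [sum_congr rfl fun j _ => e_nat_mul j ((d:ℝ)/T), this, ← e_nat_mul]
      have : (T:ℝ) * (d / T) = (d:ℤ) := by field_simp
      rw [this, e_int, sub_self]
    rcases mul_eq_zero.mp h1 with h2 | h2
    · exact h2
    · exfalso
      apply h
      rw [sub_eq_zero] at h2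
      unfold e at h2
      rw [Complex.exp_eq_one_iff] at h2
      obtain ⟨n, hn⟩ := h2
      refine ⟨n, ?_⟩
      have hpi : (2 * (Real.pi:ℂ) * Complex.I) ≠ 0 := by
        simp [Real.pi_ne_zero]
      have h3 : (((d:ℝ) / T : ℝ) : ℂ) * (2 * (Real.pi:ℂ) * Complex.I) = n * (2 * (Real.pi:ℂ) * Complex.I) := by
        rw [← hn]; push_cast; ring
      have h4 := mul_right_cancel₀ hpi h3
      have h5 : ((d:ℝ) / T : ℝ) = (n:ℝ) := by exact_mod_cast h4
      rw [div_eq_iff hT0] at h5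
      have h6 : (d:ℝ) = ((T * n : ℤ) : ℝ) := by push_cast; linarith
      exact_mod_cast h6

/-- Fourier coefficients of the indicator of `[1,y]` modulo `T`. -/
noncomputable def cf (T : ℕ) (y j : ℕ) : ℂ := (1 / (T:ℂ)) * ∑ i ∈ Finset.Icc 1 y, e (-((i:ℝ) * (j / T)))

lemma cf_expand (T : ℕ) (y k : ℕ) (hk : 1 ≤ k) (hkT : k ≤ T) (hy : y ≤ T) :
    ∑ j ∈ range T, cf T y j * e (j * k / T) = if k ≤ y then 1 else 0 := by
  have hT : 0 < T := by omega
  have hT0 : (T:ℂ) ≠ 0 := by exact_mod_cast hT.ne'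
  have hTr : (T:ℝ) ≠ 0 := by positivity
  unfold cf
  have h1 : ∑ j ∈ range T, 1 / (T:ℂ) * (∑ i ∈ Finset.Icc 1 y, e (-((i:ℝ) * (j / T)))) * e (j * k / T)
      = 1 / (T:ℂ) * ∑ i ∈ Finset.Icc 1 y, ∑ j ∈ range T, e (j * (((k:ℤ) - i : ℤ) / T)) := by
    rw [sum_comm, mul_sum]
    refine sum_congr rfl fun j _ => ?_
    rw [mul_assoc, sum_mul]
    congr 1
    refine sum_congr rfl fun i _ => ?_
    rw [← e_add]
    congr 1
    push_cast; ring
  rw [h1]
  have h2 : ∀ i ∈ Finset.Icc 1 y, ∑ j ∈ range T, e (j * (((k:ℤ) - i : ℤ) / T)) = if i = k then (T:ℂ) else 0 := by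
    intro i hi
    rw [Finset.mem_Icc] at hi
    rw [sum_roots T hT]
    congr 1
    rw [eq_iff_iff]
    constructor
    · intro h
      have := Int.eq_zero_of_abs_lt_dvd h (by rw [abs_lt]; omega)
      omega
    · intro h; subst h; simp
  rw [sum_congr rfl h2, Finset.sum_ite_eq']
  by_cases hky : k ≤ y
  · rw [if_pos hky, if_pos (by rw [Finset.mem_Icc]; exact ⟨hk, hky⟩)]
    field_simp
  · rw [if_neg hky, if_neg (by rw [Finset.mem_Icc]; omega)]
    simp

/-- majorant for the coefficients -/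
noncomputable def gm (T j : ℕ) : ℝ := if j = 0 then 1 else (1 / (j:ℝ) + 1 / ((T:ℝ) - j)) / 2

lemma gm_nonneg (T j : ℕ) (hj : j < T) : 0 ≤ gm T j := by
  unfold gm
  split_ifs with h
  · norm_num
  · have : (0:ℝ) < (T:ℝ) - j := by rw [sub_pos]; exact_mod_cast hj
    positivity

lemma cf_le (T : ℕ) (y j : ℕ) (hy : y ≤ T) (hj : j < T) : ‖cf T y j‖ ≤ gm T j := by
  have hT : 0 < T := by omega
  have hTr : (0:ℝ) < T := by exact_mod_cast hT
  unfold cf gm
  rw [norm_mul, norm_div, norm_one, Complex.norm_natCast]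
  split_ifs with h
  · have h1 : ‖∑ i ∈ Finset.Icc 1 y, e (-((i:ℝ) * (j / T)))‖ ≤ T := by
      refine (norm_sum_le _ _).trans ?_
      simp only [norm_e, sum_const, nsmul_eq_mul, mul_one, Nat.card_Icc, Nat.add_sub_cancel]
      exact_mod_cast hy
    rw [one_div, inv_mul_le_iff₀ hTr]
    linarith
  · -- the sum is e(-j/T) * sum_{i<y} e(-i j / T)
    have hj0 : (0:ℝ) < j := by exact_mod_cast Nat.pos_of_ne_zero h
    have hjT : (0:ℝ) < (T:ℝ) - j := by rw [sub_pos]; exact_mod_cast hj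
    have h1 : ∑ i ∈ Finset.Icc 1 y, e (-((i:ℝ) * (j / T)))
        = e (-(j / T)) * ∑ i ∈ range y, e (i * (-((j:ℝ) / T))) := by
      have : Finset.Icc 1 y = (range y).image (fun i => i + 1) := by
        ext m
        simp only [Finset.mem_Icc, mem_image, mem_range]
        constructor
        · intro h; exact ⟨m - 1, by omega, by omega⟩
        · rintro ⟨i, hi, rfl⟩; omega
      rw [this, sum_image (fun a _ b _ h => by simpa using h), mul_sum]
      refine sum_congr rfl fun i _ => ?_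
      rw [← e_add]; congr 1; push_cast; ring
    rw [h1, norm_mul, norm_e, one_mul]
    -- bound the geometric sum
    have h2 : ‖∑ i ∈ range y, e (i * (-((j:ℝ) / T)))‖ ≤ T / (2 * j) + T / (2 * ((T:ℝ) - j)) := by
      rcases le_or_gt (2 * j) T with hc | hc
      · have ha : |(-((j:ℝ) / T))| = j / T := by rw [abs_neg, abs_of_pos (by positivity)]
        have hc' : 2 * (j:ℝ) ≤ T := by exact_mod_cast hc
        have h3 := geom_bound (a := -((j:ℝ) / T)) (by rw [ha]; positivity)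
          (by rw [ha, div_le_iff₀ hTr]; linarith) y
        rw [ha] at h3
        have h4 : 1 / (2 * ((j:ℝ) / T)) = T / (2 * j) := by field_simp
        rw [h4] at h3
        have : 0 ≤ (T:ℝ) / (2 * ((T:ℝ) - j)) := by positivity
        linarith
      · have ha : |1 - (j:ℝ) / T| = ((T:ℝ) - j) / T := by
          rw [abs_of_pos]
          · field_simp
          · rw [sub_pos, div_lt_one hTr]; linarith
        have hc' : (T:ℝ) < 2 * j := by exact_mod_cast hc
        have h3 := geom_bound (a := 1 - (j:ℝ) / T) (by rw [ha]; positivity)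
          (by rw [ha, div_le_iff₀ hTr]; linarith) y
        rw [ha] at h3
        have h5 : ∑ i ∈ range y, e (i * (1 - (j:ℝ) / T)) = ∑ i ∈ range y, e (i * (-((j:ℝ) / T))) := by
          refine sum_congr rfl fun i _ => ?_
          have : (i:ℝ) * (1 - (j:ℝ) / T) = i * (-((j:ℝ) / T)) + ((i:ℤ):ℝ) := by push_cast; ring
          rw [this, e_add_int]
        rw [h5] at h3
        have h4 : 1 / (2 * (((T:ℝ) - j) / T)) = T / (2 * ((T:ℝ) - j)) := by field_simp
        rw [h4] at h3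
        have : 0 ≤ (T:ℝ) / (2 * j) := by positivity
        linarith
    calc 1 / (T:ℝ) * ‖∑ i ∈ range y, e (i * (-((j:ℝ) / T)))‖
        ≤ 1 / (T:ℝ) * (T / (2 * j) + T / (2 * ((T:ℝ) - j))) := mul_le_mul_of_nonneg_left h2 (by positivity)
      _ = (1 / (j:ℝ) + 1 / ((T:ℝ) - j)) / 2 := by field_simp

lemma sum_gm_le (T : ℕ) (hT : 1 ≤ T) : ∑ j ∈ range T, gm T j ≤ 2 + Real.log T := by
  have h1 : ∑ j ∈ range T, gm T j = 1 + ∑ j ∈ range (T - 1), (1 / ((j:ℝ) + 1)) := by
    obtain ⟨n, rfl⟩ : ∃ n, T = n + 1 := ⟨T - 1, by omega⟩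
    rw [sum_range_succ', Nat.add_sub_cancel]
    have h2 : gm (n + 1) 0 = 1 := by simp [gm]
    rw [h2, add_comm]
    congr 1
    have h3 : ∀ j ∈ range n, gm (n + 1) (j + 1) = (1/2) * (1 / ((j:ℝ) + 1)) + (1/2) * (1 / (((n - 1 - j : ℕ) : ℝ) + 1)) := by
      intro j hj
      rw [mem_range] at hj
      unfold gm
      rw [if_neg (Nat.succ_ne_zero j)]
      have : ((n - 1 - j : ℕ) : ℝ) + 1 = ((n + 1 : ℕ) : ℝ) - ((j + 1 : ℕ) : ℝ) := by
        have h : (n - 1 - j : ℕ) + 1 + (j + 1) = n + 1 := by omega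
        have h' : (((n - 1 - j : ℕ) + 1 + (j + 1) : ℕ) : ℝ) = ((n + 1 : ℕ) : ℝ) := by rw [h]
        push_cast at h' ⊢
        linarith
      rw [this]; push_cast; ring
    rw [sum_congr rfl h3, sum_add_distrib, ← mul_sum, ← mul_sum]
    rw [Finset.sum_range_reflect (fun j => 1 / ((j:ℝ) + 1)) n]
    ring
  rw [h1]
  have h4 : ∑ j ∈ range (T - 1), (1 / ((j:ℝ) + 1)) ≤ 1 + Real.log ((T - 1 : ℕ) : ℝ) := by
    have := harmonic_le_one_add_log (T - 1)
    rw [harmonic] at this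
    push_cast at this
    refine le_trans (le_of_eq ?_) (this.trans (le_of_eq ?_))
    · refine sum_congr rfl fun j _ => by rw [one_div]
    · push_cast [Nat.cast_sub hT]; rfl
  have h5 : Real.log ((T - 1 : ℕ) : ℝ) ≤ Real.log T := by
    rcases Nat.eq_or_lt_of_le hT with h | h
    · rw [← h]; simp
    · exact Real.log_le_log (by exact_mod_cast (by omega : 0 < T - 1)) (by exact_mod_cast (Nat.sub_le T 1))
  linarith

end Pool.Agent.Var35
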